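import Pool.Agent.Lib.MP_9ff0e7_co.Q.Defs

/-!
Row A1. The left parent exists and is high when `p` has the same parent from a lower apex.

`left_of`. D s x p x' is not 0 by general position (`hS.ne`; p is lower than x', x' lower than x, so the three are
distinct). If it were positive, then x' is in Low (Ht x), x' is not z (z is lower than x'), so h.2.2 x' gives
D s p z x' < 0; but h'.2.1 says 0 < D s x' p z = D s p z x' (D_cyc). Contradiction.

`lowest`. By `left_of`, D s x p x' < 0, so with the sign -s : 0 < D (-s) x p x' (D_neg) and `Par_exists` gives y with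
Par (-s) ε S x p y. If y = x' then Ht z < Ht x' = Ht y (z in Low (Ht x') by h'.1). Otherwise suppose Ht y <= Ht z; then
y is in Low (Ht x') . The parent condition of y at x with r = x' : D (-s) p y x' < 0, i.e. 0 < D s p y x', so
0 < D s x' p y (D_cyc). y is not z because D s x p y < 0 < D s x p z. So h'.2.2 y gives D s p z y < 0.
Now gp4 at p for the points z, y, x, x' :  [zy][xx'] - [zx][yx'] + [zx'][yx] = 0 with [ab] = D s p a b.
[xx'] = D s p x x' > 0 since D s x p x' < 0 ; [zx] = D s x p z > 0 ; [yx'] > 0 ; [zx'] = D s x' p z > 0 ;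
[yx] = D s x p y < 0. So [zy][xx'] = [zx][yx'] - [zx'][yx] > 0, hence [zy] > 0, contradiction with D s p z y < 0.
-/

set_option autoImplicit false
open scoped Classical

namespace Pool.Agent.Lib.MP_9ff0e7_co

variable {s ε h0 : ℝ} {S Z : Finset Pt}

theorem left_of (C : Cx s ε h0 S Z) {x x' p z : Pt} (hx : x ∈ S) (hx' : x' ∈ S)
    (hp : p ∈ Low ε S (Ht ε x')) (hlt : Ht ε x' < Ht ε x) (h : Par s ε S x p z)
    (h' : Par s ε S x' p z) : D s x p x' < 0 := by
  obtain ⟨hpS, hpx'⟩ := mem_Low.1 hp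
  have hpx : Ht ε p < Ht ε x := hpx'.trans hlt
  have hne : D s x p x' ≠ 0 := by
    apply C.gp.ne C.s0 hx hpS hx'
    · rintro rfl; exact lt_irrefl _ hpx
    · rintro rfl; exact lt_irrefl _ hlt
    · rintro rfl; exact lt_irrefl _ hpx'
  rcases lt_or_gt_of_ne hne with h1 | h1
  · exact h1
  · exfalso
    have hz := (mem_Low.1 h'.1).2
    have hzx : x' ≠ z := by
      rintro rfl; exact lt_irrefl _ hz
    have h2 := h.2.2 x' (mem_Low.2 ⟨hx', hlt⟩) h1 hzx
    have h3 := h'.2.1
    have e : D s x' p z = D s p z x' := D_cyc _ _ _ _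
    linarith

theorem lowest (C : Cx s ε h0 S Z) {x x' p z : Pt} (hx : x ∈ S) (hx' : x' ∈ S)
    (hp : p ∈ Low ε S (Ht ε x')) (hlt : Ht ε x' < Ht ε x) (h : Par s ε S x p z)
    (h' : Par s ε S x' p z) : ∃ y, Par (-s) ε S x p y ∧ Ht ε z < Ht ε y := by
  have hl := left_of C hx hx' hp hlt h h'
  obtain ⟨hpS, hpx'⟩ := mem_Low.1 hp
  have hpx : Ht ε p < Ht ε x := hpx'.trans hlt
  have hl' : 0 < D (-s) x p x' := by
    rw [D_neg]; linarith
  have hx'L : x' ∈ Low ε S (Ht ε x) := mem_Low.2 ⟨hx', hlt⟩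
  obtain ⟨y, hy⟩ := Par_exists C.gp (neg_ne_zero.2 C.s0) (mem_Low.2 ⟨hpS, hpx⟩)
    ⟨x', hx'L, hl'⟩
  refine ⟨y, hy, ?_⟩
  have hz := (mem_Low.1 h'.1).2
  by_cases hyx : y = x'
  · rw [hyx]; exact hz
  by_contra hle
  have hle' : Ht ε y ≤ Ht ε z := not_lt.1 hle
  obtain ⟨hyS, _⟩ := mem_Low.1 hy.1
  have hyL : y ∈ Low ε S (Ht ε x') := mem_Low.2 ⟨hyS, lt_of_le_of_lt hle' hz⟩
  have h1 := hy.2.2 x' hx'L hl' (Ne.symm hyx)
  rw [D_neg] at h1
  have h2 := hy.2.1
  rw [D_neg] at h2
  have h3 : 0 < D s x' p y := by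
    have e : D s x' p y = D s p y x' := D_cyc _ _ _ _
    linarith
  have hyz : y ≠ z := by
    rintro rfl
    have := h.2.1
    linarith
  have h4 := h'.2.2 y hyL h3 hyz
  have g := gp4 s p z y x x'
  have e1 : D s p x x' = - D s x p x' := by unfold D; ring
  have e2 : D s p z x = D s x p z := by unfold D; ring
  have e3 : D s p y x = D s x p y := by unfold D; ring
  have e4 : D s p z x' = D s x' p z := by unfold D; ring
  have e5 : D s p y x' = D s x' p y := by unfold D; ring
  rw [e1, e2, e3, e4, e5] at g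
  have a1 : 0 < - D s x p x' := by linarith
  have a2 := h.2.1
  have a3 := h'.2.1
  have b1 : D s p z y * - D s x p x' < 0 := mul_neg_of_neg_of_pos h4 a1
  have b2 : 0 < D s x p z * D s x' p y := mul_pos a2 h3
  have b3 : D s x' p z * D s x p y < 0 := mul_neg_of_pos_of_neg a3 (by linarith)
  linarith

end Pool.Agent.Lib.MP_9ff0e7_co
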