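import Pool.Agent.Lib.MP_9ff0e7_co.Q.A1

/-!
Row A2. Few apexes see `p` on a heavy side.

Proof. Let B be the filter set. For x in B choose z_x (in Z, Par s x p z_x, side condition, L <= card (Xs z_x p)).
The sets Xs s ε S Z z_x p (x in B) are subsets of Z and pairwise disjoint: if x, x' in B are different and y lies in
both, then Par_unique gives z_x = z_x' =: z; now x and x' have the same parent z of p. Their heights differ (C.inj,
C.sub); say Ht x' < Ht x. `lowest` (p is in Low (Ht x') by C.low) gives y0 with Par (-s) ε S x p y0 and Ht z < Ht y0,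
against the side condition of x. So card Z >= sum_{x in B} card (Xs z_x p) >= L card B
(Finset.card_biUnion, Finset.card_le_card, Finset.card_nsmul_le_sum or Finset.sum_le_sum).
-/

set_option autoImplicit false
open scoped Classical

namespace Pool.Agent.Lib.MP_9ff0e7_co

variable {s ε h0 : ℝ} {S Z : Finset Pt}

theorem heavy (C : Cx s ε h0 S Z) (L : ℕ) {p : Pt} (hp : p ∈ Low ε S h0) :
    L * (Z.filter (fun x => ∃ z ∈ Z, Par s ε S x p z ∧
      (∀ y, Par (-s) ε S x p y → Ht ε y < Ht ε z) ∧ L ≤ (Xs s ε S Z z p).card)).card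
      ≤ Z.card := by
  set B := Z.filter (fun x => ∃ z ∈ Z, Par s ε S x p z ∧
      (∀ y, Par (-s) ε S x p y → Ht ε y < Ht ε z) ∧ L ≤ (Xs s ε S Z z p).card) with hB
  have hch : ∀ x ∈ B, ∃ z ∈ Z, Par s ε S x p z ∧
      (∀ y, Par (-s) ε S x p y → Ht ε y < Ht ε z) ∧ L ≤ (Xs s ε S Z z p).card :=
    fun x hx => (Finset.mem_filter.1 hx).2
  choose! w hwZ hw1 hw2 hw3 using hch
  have hBZ : ∀ x ∈ B, x ∈ Z := fun x hx => (Finset.mem_filter.1 hx).1
  -- no two comparable apexes
  have key : ∀ x ∈ B, ∀ x' ∈ B, Ht ε x' < Ht ε x → w x = w x' → False := by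
    intro x hx x' hx' hlt heq
    have h' := hw1 x' hx'
    rw [← heq] at h'
    obtain ⟨y, hy1, hy2⟩ := lowest C (C.sub (hBZ x hx)) (C.sub (hBZ x' hx'))
      (C.low (hBZ x' hx') hp) hlt (hw1 x hx) h'
    have := hw2 x hx y hy1
    linarith
  have hdis : ∀ x ∈ B, ∀ x' ∈ B, x ≠ x' →
      Disjoint (Xs s ε S Z (w x) p) (Xs s ε S Z (w x') p) := by
    intro x hx x' hx' hne
    rw [Finset.disjoint_left]
    intro y hy hy'
    have h1 := (Finset.mem_filter.1 hy).2
    have h2 := (Finset.mem_filter.1 hy').2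
    have heq : w x = w x' := Par_unique h1 h2
    have hHt : Ht ε x ≠ Ht ε x' := fun h =>
      hne (C.inj (C.sub (hBZ x hx)) (C.sub (hBZ x' hx')) h)
    rcases lt_or_gt_of_ne hHt with h | h
    · exact key x' hx' x hx h heq.symm
    · exact key x hx x' hx' h heq
  have h1 : (B.biUnion (fun x => Xs s ε S Z (w x) p)).card =
      ∑ x ∈ B, (Xs s ε S Z (w x) p).card := Finset.card_biUnion hdis
  have h2 : B.biUnion (fun x => Xs s ε S Z (w x) p) ⊆ Z := by
    intro y hy
    obtain ⟨x, hx, hy⟩ := Finset.mem_biUnion.1 hy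
    exact (Finset.mem_filter.1 hy).1
  have h3 := Finset.card_le_card h2
  rw [h1] at h3
  refine le_trans ?_ h3
  rw [mul_comm, ← smul_eq_mul]
  exact Finset.card_nsmul_le_sum _ _ _ (fun x hx => hw3 x hx)

end Pool.Agent.Lib.MP_9ff0e7_co
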