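import Pool.Agent.Lib.MP_9ff0e7_co.Q.A2

/-!
Row A3. Most good points are light.

Proof. For s = 1, -1 let HV s x = the p in Low ε S h0 such that there is z in Z with Par s ε S x p z,
(∀ y, Par (-s) ε S x p y → Ht y < Ht z) and L <= card (Xs s ε S Z z p).
(1) For x in Z : Gd x ⊆ LG 1 x ∪ LG (-1) x ∪ HV 1 x ∪ HV (-1) x. Let p be in Gd x with q = right parent, q' = left
parent (see the definition of Gd in Avg.lean), both of colour different from f x, q in Z or q' in Z. D 1 x p q > 0 and
D (-1) x p q' > 0, so q is not q', and their heights differ (C.inj). If Ht q' < Ht q : then q is in Z (if q' is in Z, then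
h0 <= Ht q' < Ht q and C.cov x hx q; q is in Low (Ht x) by the definition of Par) and every y with Par (-1) x p y is
q' (Par_unique), so the side condition holds for z = q; according to card (Xs 1 ε S Z q p) < L or >= L, p is in
LG 1 x or HV 1 x. If Ht q < Ht q' the same with s = -1 (note - -1 = 1, use neg_neg / norm_num) and z = q'.
(2) L * sum_{x in Z} card (HV s x) = sum_{p in Low h0} L * card {x in Z : ...} <= card (Low h0) * card Z by
Finset.sum_card_bipartiteAbove_eq_sum_card_bipartiteBelow (see its use in Avg.lean, theorem sum_good) and `heavy`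
for C and for C.neg (for s = -1 the condition reads Par (- -1); simp only [neg_neg]).
(3) sum up : card_le_card, card_union_le, multiply by L.
-/

set_option autoImplicit false
open scoped Classical

namespace Pool.Agent.Lib.MP_9ff0e7_co

variable {ε h0 : ℝ} {S Z : Finset Pt}

/-- heavy points of `x`. -/
noncomputable def a3HV (s ε h0 : ℝ) (S Z : Finset Pt) (L : ℕ) (x : Pt) : Finset Pt :=
  (Low ε S h0).filter (fun p => ∃ z ∈ Z, Par s ε S x p z ∧
      (∀ y, Par (-s) ε S x p y → Ht ε y < Ht ε z) ∧ L ≤ (Xs s ε S Z z p).card)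

theorem a3_heavy {s : ℝ} (C : Cx s ε h0 S Z) (L : ℕ) :
    L * ∑ x ∈ Z, (a3HV s ε h0 S Z L x).card ≤ (Low ε S h0).card * Z.card := by
  have hdc : ∑ x ∈ Z, (a3HV s ε h0 S Z L x).card =
      ∑ p ∈ Low ε S h0, (Z.filter (fun x => ∃ z ∈ Z, Par s ε S x p z ∧
      (∀ y, Par (-s) ε S x p y → Ht ε y < Ht ε z) ∧ L ≤ (Xs s ε S Z z p).card)).card :=
    Finset.sum_card_bipartiteAbove_eq_sum_card_bipartiteBelow
      (fun x p => ∃ z ∈ Z, Par s ε S x p z ∧
      (∀ y, Par (-s) ε S x p y → Ht ε y < Ht ε z) ∧ L ≤ (Xs s ε S Z z p).card)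
  rw [hdc, Finset.mul_sum, ← smul_eq_mul (a := (Low ε S h0).card)]
  apply Finset.sum_le_card_nsmul
  intro p hp
  exact heavy C L hp

theorem a3_cover (C : Cx 1 ε h0 S Z) (f : Pt → Bool) (L : ℕ) {x : Pt} (hx : x ∈ Z) :
    Gd ε h0 f S Z x ⊆ (LG 1 ε h0 f S Z L x ∪ LG (-1) ε h0 f S Z L x) ∪
      (a3HV 1 ε h0 S Z L x ∪ a3HV (-1) ε h0 S Z L x) := by
  intro p hp
  obtain ⟨hpI, hpf, q, hq, hqf, q', hq', hqf', hZ⟩ := Finset.mem_filter.1 hp
  have hqS := (mem_Low.1 hq.1).1
  have hqS' := (mem_Low.1 hq'.1).1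
  have hne : q ≠ q' := by
    rintro rfl
    have h1 := hq.2.1
    have h2 := hq'.2.1
    have : D (-1) x p q = - D 1 x p q := D_neg _ _ _ _
    linarith
  have hH : Ht ε q ≠ Ht ε q' := fun h => hne (C.inj hqS hqS' h)
  rcases lt_or_gt_of_ne hH with hlt | hlt
  · -- q' is higher
    have hq'Z : q' ∈ Z := by
      rcases hZ with hZ | hZ
      · exact C.cov x hx q' hqS' (by have := C.hi q hZ; linarith) (mem_Low.1 hq'.1).2
      · exact hZ
    have hside : ∀ y, Par (- -1) ε S x p y → Ht ε y < Ht ε q' := by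
      intro y hy
      rw [neg_neg] at hy
      rw [Par_unique hy hq]; exact hlt
    by_cases hL : (Xs (-1) ε S Z q' p).card < L
    · apply Finset.mem_union_left
      apply Finset.mem_union_right
      exact Finset.mem_filter.2 ⟨hpI, hpf, q', hq'Z, hqf', hq', hL⟩
    · apply Finset.mem_union_right
      apply Finset.mem_union_right
      exact Finset.mem_filter.2 ⟨hpI, q', hq'Z, hq', hside, not_lt.1 hL⟩
  · have hqZ : q ∈ Z := by
      rcases hZ with hZ | hZ
      · exact hZ
      · exact C.cov x hx q hqS (by have := C.hi q' hZ; linarith) (mem_Low.1 hq.1).2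
    have hside : ∀ y, Par (-1) ε S x p y → Ht ε y < Ht ε q := by
      intro y hy
      rw [Par_unique hy hq']; exact hlt
    by_cases hL : (Xs 1 ε S Z q p).card < L
    · apply Finset.mem_union_left
      apply Finset.mem_union_left
      exact Finset.mem_filter.2 ⟨hpI, hpf, q, hqZ, hqf, hq, hL⟩
    · apply Finset.mem_union_right
      apply Finset.mem_union_left
      exact Finset.mem_filter.2 ⟨hpI, q, hqZ, hq, hside, not_lt.1 hL⟩

theorem light_sum (C : Cx 1 ε h0 S Z) (f : Pt → Bool) (L : ℕ) :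
    L * ∑ x ∈ Z, (Gd ε h0 f S Z x).card ≤
      L * ∑ x ∈ Z, (LG 1 ε h0 f S Z L x).card + L * ∑ x ∈ Z, (LG (-1) ε h0 f S Z L x).card
        + 2 * ((Low ε S h0).card * Z.card) := by
  have h1 : ∑ x ∈ Z, (Gd ε h0 f S Z x).card ≤ ∑ x ∈ Z, ((LG 1 ε h0 f S Z L x).card +
      (LG (-1) ε h0 f S Z L x).card + ((a3HV 1 ε h0 S Z L x).card +
      (a3HV (-1) ε h0 S Z L x).card)) := by
    apply Finset.sum_le_sum
    intro x hx
    refine (Finset.card_le_card (a3_cover C f L hx)).trans ?_
    refine (Finset.card_union_le _ _).trans ?_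
    exact Nat.add_le_add (Finset.card_union_le _ _) (Finset.card_union_le _ _)
  rw [Finset.sum_add_distrib, Finset.sum_add_distrib, Finset.sum_add_distrib] at h1
  have h2 := a3_heavy C L
  have h3 := a3_heavy C.neg L
  have h4 := Nat.mul_le_mul_left L h1
  rw [mul_add, mul_add, mul_add] at h4
  omega

end Pool.Agent.Lib.MP_9ff0e7_co
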