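import Pool.Agent.Lib.MP_9ff0e7_co.Q.Defs

/-!
Row A4. Most light points give a square.

Proof. x is in Z. For c in LG x choose z = z(c) in Z with f z ≠ f x, Par s ε S x c z, card (Xs z c) < L. c is in
Low (Ht x) by C.low, so c is in Ch s ε S x z = (Low (Ht x)).filter (Par s ε S x · z). Split LG x into four parts.
N0 : no b in Ch s ε S x (z c) has ord s ε x b < ord s ε x c. The map c ↦ z(c) is injective on N0 : if z(c) = z(c') = z
   and c ≠ c' then ord c ≠ ord c' (ord_inj_below), and the smaller one contradicts the choice of the other.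
   So card N0 <= card Z.
For c not in N0 let b = b(c) be an element of Ch s ε S x (z c) with ord b < ord c and ord b maximal
   (Finset.exists_max_image). Then Adj s ε x (Ch s ε S x z) b c. b, c, z are determined: c ↦ b(c) is injective
   (z(c) = z(c') by Par_unique at b; if ord c < ord c' then c is between b(c') and c', contradiction to maximality).
N1 : b(c) in Z : card N1 <= card Z by injectivity of c ↦ b(c).
N2 : b(c) not in Z and f (b c) = f x : card N2 <= ee S f x by `pairs_le` (Sum.lean) applied with u = x, g = ord s ε x and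
   the image of N2 under c ↦ (b c, c) (injective, so the card of the image is card N2). Emptiness of (x, b, c): by Adj
   no point of Ch is strictly between b and c, so Vis s ε x (Ch s ε S x z) b c holds vacuously, `claimA` gives
   Vis s ε x (Low ..) b c and `vis_empty_x` gives the emptiness.
N3 : the rest: b(c) in Low (Ht x), not in Z, so in Low h0 by C.cases; f (b c) ≠ f x. Then Sq s ε h0 f S Z L x z b c
   and the map c ↦ ((z, x), (b, c)) goes into (SQ ..).filter (fun g => g.1.2 = x), injective by the last coordinate.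
Total: card <= card (SQ filter) + 2 card Z + ee.
-/

set_option autoImplicit false
open scoped Classical

namespace Pool.Agent.Lib.MP_9ff0e7_co

variable {s ε h0 : ℝ} {S Z : Finset Pt}

theorem sq_of_light (C : Cx s ε h0 S Z) (f : Pt → Bool) (L : ℕ) {x : Pt} (hx : x ∈ Z) :
    (LG s ε h0 f S Z L x).card ≤
      ((SQ s ε h0 f S Z L).filter (fun g => g.1.2 = x)).card + 2 * Z.card + ee S f x := by
  have hxS := C.sub hx
  have hI : ∀ {p : Pt}, p ∈ Low ε S h0 → p ∈ Low ε S (Ht ε x) := fun hp => C.low hx hp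
  have hch : ∀ c ∈ LG s ε h0 f S Z L x, ∃ z ∈ Z, f z ≠ f x ∧ Par s ε S x c z ∧
      (Xs s ε S Z z c).card < L := fun c hc => (Finset.mem_filter.1 hc).2.2
  choose! w hwZ hwf hwP hwL using hch
  have hLow : ∀ c ∈ LG s ε h0 f S Z L x, c ∈ Low ε S (Ht ε x) := fun c hc =>
    hI (Finset.mem_filter.1 hc).1
  have hCh : ∀ c ∈ LG s ε h0 f S Z L x, c ∈ Ch s ε S x (w c) := fun c hc =>
    Finset.mem_filter.2 ⟨hLow c hc, hwP c hc⟩
  have hinj := ord_inj_below (s := s) (ε := ε) C.gp C.s0 hxS
  set A := LG s ε h0 f S Z L x with hA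
  set A1 := A.filter (fun c => ∃ b ∈ Ch s ε S x (w c), ord s ε x b < ord s ε x c) with hA1
  set A0 := A.filter (fun c => ¬ ∃ b ∈ Ch s ε S x (w c), ord s ε x b < ord s ε x c) with hA0
  have hsplit : A.card = A1.card + A0.card :=
    (Finset.card_filter_add_card_filter_not _).symm
  -- first elements
  have h0c : A0.card ≤ Z.card := by
    apply Finset.card_le_card_of_injOn w
    · intro c hc; exact hwZ c (Finset.mem_filter.1 hc).1
    · intro c hc c' hc' heq
      obtain ⟨c1, c2⟩ := Finset.mem_filter.1 (Finset.mem_coe.1 hc)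
      obtain ⟨c1', c2'⟩ := Finset.mem_filter.1 (Finset.mem_coe.1 hc')
      rcases lt_trichotomy (ord s ε x c) (ord s ε x c') with h | h | h
      · exact absurd ⟨c, by rw [← heq]; exact hCh c c1, h⟩ c2'
      · exact hinj (hLow c c1) (hLow c' c1') h
      · exact absurd ⟨c', by rw [heq]; exact hCh c' c1', h⟩ c2
  -- predecessors
  have hpred : ∀ c ∈ A1, ∃ b, Adj s ε x (Ch s ε S x (w c)) b c := by
    intro c hc
    obtain ⟨c1, b0, hb0, hb1⟩ := Finset.mem_filter.1 hc
    have hne : ((Ch s ε S x (w c)).filter (fun b => ord s ε x b < ord s ε x c)).Nonempty :=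
      ⟨b0, Finset.mem_filter.2 ⟨hb0, hb1⟩⟩
    obtain ⟨b, hb, hmax⟩ := Finset.exists_max_image _ (ord s ε x) hne
    obtain ⟨hb2, hb3⟩ := Finset.mem_filter.1 hb
    refine ⟨b, hb2, hCh c c1, hb3, ?_⟩
    rintro d hd ⟨h1, h2⟩
    have := hmax d (Finset.mem_filter.2 ⟨hd, h2⟩)
    linarith
  choose! β hβ using hpred
  have hA1A : ∀ c ∈ A1, c ∈ A := fun c hc => (Finset.mem_filter.1 hc).1
  have hβinj : Set.InjOn β A1 := by
    intro c hc c' hc' heq
    have hc := Finset.mem_coe.1 hc
    have hc' := Finset.mem_coe.1 hc'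
    have a := hβ c hc
    have a' := hβ c' hc'
    have hz : w c = w c' := by
      have p1 := (Finset.mem_filter.1 a.1).2
      have p2 := (Finset.mem_filter.1 a'.1).2
      rw [heq] at p1
      exact Par_unique p1 p2
    rcases lt_trichotomy (ord s ε x c) (ord s ε x c') with h | h | h
    · exact absurd ⟨by rw [← heq]; exact a.2.2.1, h⟩
        (a'.2.2.2 c (by rw [← hz]; exact hCh c (hA1A c hc)))
    · exact hinj (hLow c (hA1A c hc)) (hLow c' (hA1A c' hc')) h
    · exact absurd ⟨by rw [heq]; exact a'.2.2.1, h⟩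
        (a.2.2.2 c' (by rw [hz]; exact hCh c' (hA1A c' hc')))
  have hβL : ∀ c ∈ A1, β c ∈ Low ε S (Ht ε x) := fun c hc =>
    (Finset.mem_filter.1 (hβ c hc).1).1
  -- three classes
  have hcov : A1 ⊆ (A1.filter (fun c => β c ∈ Z)) ∪ (A1.filter (fun c => f (β c) = f x)) ∪
      (A1.filter (fun c => β c ∉ Z ∧ f (β c) ≠ f x)) := by
    intro c hc
    simp only [Finset.mem_union, Finset.mem_filter]
    by_cases h1 : β c ∈ Z
    · exact Or.inl (Or.inl ⟨hc, h1⟩)
    · by_cases h2 : f (β c) = f x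
      · exact Or.inl (Or.inr ⟨hc, h2⟩)
      · exact Or.inr ⟨hc, h1, h2⟩
  have n1 : (A1.filter (fun c => β c ∈ Z)).card ≤ Z.card := by
    apply Finset.card_le_card_of_injOn β
    · intro c hc; exact (Finset.mem_filter.1 (Finset.mem_coe.1 hc)).2
    · exact hβinj.mono (fun c hc => (Finset.mem_filter.1 (Finset.mem_coe.1 hc)).1)
  have n2 : (A1.filter (fun c => f (β c) = f x)).card ≤ ee S f x := by
    have hi : Set.InjOn (fun c => (β c, c)) (A1.filter (fun c => f (β c) = f x)) := by
      intro c _ c' _ h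
      exact (Prod.mk.inj h).2
    rw [← Finset.card_image_of_injOn hi]
    apply pairs_le C.gp hxS _ (ord s ε x)
    intro q hq
    obtain ⟨c, hc, rfl⟩ := Finset.mem_image.1 hq
    obtain ⟨c1, c2⟩ := Finset.mem_filter.1 hc
    have a := hβ c c1
    have hcf : f c = f x := (Finset.mem_filter.1 (hA1A c c1)).2.1
    have hvis : Vis s ε x (Ch s ε S x (w c)) (β c) c := fun d hd h1 h2 =>
      absurd ⟨h1, h2⟩ (a.2.2.2 d hd)
    exact ⟨(mem_Low.1 (hβL c c1)).1, (mem_Low.1 (hLow c (hA1A c c1))).1,
      ne_of_below (hβL c c1), ne_of_below (hLow c (hA1A c c1)), c2, hcf, a.2.2.1,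
      vis_empty_x (hβL c c1) (hLow c (hA1A c c1)) a.2.2.1
        (claimA C.gp C.s0 hxS a.1 a.2.1 a.2.2.1 hvis)⟩
  have n3 : (A1.filter (fun c => β c ∉ Z ∧ f (β c) ≠ f x)).card ≤
      ((SQ s ε h0 f S Z L).filter (fun g => g.1.2 = x)).card := by
    apply Finset.card_le_card_of_injOn (fun c => ((w c, x), (β c, c)))
    · intro c hc
      obtain ⟨c1, c2, c3⟩ := Finset.mem_filter.1 (Finset.mem_coe.1 hc)
      have cA := hA1A c c1
      have hcI := (Finset.mem_filter.1 cA).1
      have hbI : β c ∈ Low ε S h0 := (C.cases hx (hβL c c1)).resolve_left c2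
      rw [Finset.mem_coe, Finset.mem_filter]
      refine ⟨Finset.mem_filter.2 ⟨?_, ?_⟩, rfl⟩
      · exact Finset.mem_product.2 ⟨Finset.mem_product.2 ⟨hwZ c cA, hx⟩,
          Finset.mem_product.2 ⟨hbI, hcI⟩⟩
      · exact ⟨hx, hwZ c cA, hbI, hcI, (Finset.mem_filter.1 cA).2.1, hwf c cA, c3, hβ c c1,
          hwL c cA⟩
    · intro c _ c' _ h
      exact (Prod.mk.inj (Prod.mk.inj h).2).2
  have h1 := Finset.card_le_card hcov
  have h2 := Finset.card_union_le ((A1.filter (fun c => β c ∈ Z)) ∪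
    (A1.filter (fun c => f (β c) = f x))) (A1.filter (fun c => β c ∉ Z ∧ f (β c) ≠ f x))
  have h3 := Finset.card_union_le (A1.filter (fun c => β c ∈ Z))
    (A1.filter (fun c => f (β c) = f x))
  omega

end Pool.Agent.Lib.MP_9ff0e7_co
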