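import Pool.Agent.Lib.MP_9ff0e7_co.Q.A4

/-!
Row A5. Sum of row A4.

Proof. Sum `sq_of_light` over x in Z. Every g in SQ has g.1.2 in Z, so
sum_{x in Z} card (SQ.filter (g.1.2 = x)) = card SQ (Finset.card_eq_sum_card_fiberwise), and
sum_{x in Z} 2 * card Z = 2 * card Z ^ 2.
-/

set_option autoImplicit false
open scoped Classical

namespace Pool.Agent.Lib.MP_9ff0e7_co

variable {s ε h0 : ℝ} {S Z : Finset Pt}

theorem sq_sum (C : Cx s ε h0 S Z) (f : Pt → Bool) (L : ℕ) :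
    ∑ x ∈ Z, (LG s ε h0 f S Z L x).card ≤
      (SQ s ε h0 f S Z L).card + 2 * Z.card ^ 2 + ∑ x ∈ Z, ee S f x := by
  have h1 : ∑ x ∈ Z, (LG s ε h0 f S Z L x).card ≤
      ∑ x ∈ Z, (((SQ s ε h0 f S Z L).filter (fun g => g.1.2 = x)).card + 2 * Z.card
        + ee S f x) := Finset.sum_le_sum fun x hx => sq_of_light C f L hx
  rw [Finset.sum_add_distrib, Finset.sum_add_distrib, Finset.sum_const, smul_eq_mul] at h1
  have h2 : (SQ s ε h0 f S Z L).card =
      ∑ x ∈ Z, ((SQ s ε h0 f S Z L).filter (fun g => g.1.2 = x)).card := by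
    apply Finset.card_eq_sum_card_fiberwise
    intro g hg
    have hg' := (Finset.mem_filter.1 (Finset.mem_coe.1 hg)).2
    exact hg'.hx
  rw [← h2] at h1
  have h3 : Z.card * (2 * Z.card) = 2 * Z.card ^ 2 := by ring
  rw [h3] at h1
  exact h1

end Pool.Agent.Lib.MP_9ff0e7_co
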