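import Pool.Agent.Lib.MP_9ff0e7_co.Q.Defs

/-!
Row B0. Ordered monochromatic empty triangles with first vertex in `Z`.

Proof. For q = (z, u, v) in N the set {z, u, v} is in Tri S f by `mem_Tri` and contains z. Map q to
(z, {z, u, v}) in Z ×ˢ (Tri S f). Every fibre has at most 2 elements: for given z and T = {z, u, v} the pair (u, v) is one
of two. (Finset.card_le_mul_card_image_of_maps_to or Finset.card_le_mul_card_image; a fibre is contained in
{(z,u,v), (z,v,u)} for one of its elements: if {z,u',v'} = {z,u,v} with u' ≠ z, v' ≠ z, u' ≠ v' then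
u' ∈ {u, v} and v' ∈ {u, v}.) The target {(z, T) : z in Z, T in Tri S f, z in T} has
sum_{z in Z} ee S f z elements (ee S f z = card ((Tri S f).filter (z ∈ ·)); Finset.card_sigma or write the target as
Z.sigma or use Finset.sum over fibres of q ↦ q.1: N.card = sum_{z in Z} card (N.filter (q.1 = z)) and for each z
card (N.filter (q.1 = z)) <= 2 * ee S f z; this second way is the shortest).
-/

set_option autoImplicit false
open scoped Classical

namespace Pool.Agent.Lib.MP_9ff0e7_co

theorem tri_count {S : Finset Pt} (hS : GP S) (f : Pt → Bool) {Z : Finset Pt} (hZ : Z ⊆ S)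
    (N : Finset (Pt × Pt × Pt))
    (hN : ∀ q ∈ N, q.1 ∈ Z ∧ q.2.1 ∈ S ∧ q.2.2 ∈ S ∧ q.1 ≠ q.2.1 ∧ q.1 ≠ q.2.2 ∧
      q.2.1 ≠ q.2.2 ∧ f q.2.1 = f q.1 ∧ f q.2.2 = f q.1 ∧ ∀ r ∈ S, ¬ In q.1 q.2.1 q.2.2 r) :
    N.card ≤ 2 * ∑ z ∈ Z, ee S f z := by
  have h1 : N.card = ∑ z ∈ Z, (N.filter (fun q => q.1 = z)).card :=
    Finset.card_eq_sum_card_fiberwise fun q hq => (hN q hq).1
  rw [h1, Finset.mul_sum]
  refine Finset.sum_le_sum fun z _ => ?_
  unfold ee
  refine Finset.card_le_mul_card_image_of_maps_to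
    (f := fun q : Pt × Pt × Pt => ({q.1, q.2.1, q.2.2} : Finset Pt)) ?_ 2 ?_
  · intro q hq
    obtain ⟨hqN, hqz⟩ := Finset.mem_filter.1 hq
    obtain ⟨g1, g2, g3, g4, g5, g6, g7, g8, g9⟩ := hN q hqN
    rw [Finset.mem_filter]
    refine ⟨mem_Tri hS (hZ g1) g2 g3 g4 g5 g6 g7 g8 g9, ?_⟩
    rw [← hqz]
    exact Finset.mem_insert_self _ _
  · intro T _
    rcases Finset.eq_empty_or_nonempty
      ((N.filter (fun q => q.1 = z)).filter (fun q => ({q.1, q.2.1, q.2.2} : Finset Pt) = T)) with
      hE | ⟨q0, hq0⟩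
    · rw [hE]
      simp
    · obtain ⟨hq0', hq0T⟩ := Finset.mem_filter.1 hq0
      obtain ⟨hq0N, hq0z⟩ := Finset.mem_filter.1 hq0'
      have hsub : ((N.filter (fun q => q.1 = z)).filter
          (fun q => ({q.1, q.2.1, q.2.2} : Finset Pt) = T)) ⊆
          {(z, q0.2.1, q0.2.2), (z, q0.2.2, q0.2.1)} := by
        intro q hq
        obtain ⟨hq', hqT⟩ := Finset.mem_filter.1 hq
        obtain ⟨hqN, hqz⟩ := Finset.mem_filter.1 hq'
        obtain ⟨-, -, -, g4, g5, g6, -⟩ := hN q hqN
        have hu : q.2.1 ∈ T := by rw [← hqT]; simp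
        have hv : q.2.2 ∈ T := by rw [← hqT]; simp
        rw [← hq0T, Finset.mem_insert, Finset.mem_insert, Finset.mem_singleton] at hu hv
        rw [hqz] at g4 g5
        rw [hq0z] at hu hv
        obtain ⟨a, b, c⟩ := q
        simp only at hqz g4 g5 g6 hu hv
        subst hqz
        rw [Finset.mem_insert, Finset.mem_singleton]
        rcases hu with hu | hu | hu
        · exact absurd hu.symm g4
        · rcases hv with hv | hv | hv
          · exact absurd hv.symm g5
          · exact absurd (hu.trans hv.symm) g6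
          · left; rw [hu, hv]
        · rcases hv with hv | hv | hv
          · exact absurd hv.symm g5
          · right; rw [hu, hv]
          · exact absurd (hu.trans hv.symm) g6
      exact (Finset.card_le_card hsub).trans (Finset.card_le_two)

end Pool.Agent.Lib.MP_9ff0e7_co
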