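import Pool.Agent.Lib.MP_9ff0e7_co.Q.Defs

/-!
Row B1. Geometry of a square, and what determines it.

`Sq.geo`. Membership: C.sub, mem_Low. From h.adj : b, c in Ch s ε S x z, so b, c in Low (Ht x), Par s ε S x b z,
Par s ε S x c z, z in Low (Ht x) (first component of Par), so Ht z < Ht x. Ht b < h0 <= Ht z (C.hi) and the same for c.
dxbc : ord b < ord c and ord_lt_below. dxcz, dxbz : second component of Par. dbcz : the parent condition of b with
r = c (0 < D s x b c, c ≠ z because Ht c < Ht z): D s b z c < 0, so 0 < D s b c z (D_swap').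
e1 : Vis s ε x (Ch ..) b c holds vacuously (Adj: nothing of Ch is between), claimA gives Vis in Low, then vis_empty_x.
e2 : Par_empty. e3 : vis_empty_z.
`Sq.det1`. z = z' by Par_unique. Then b, b' are both consecutive predecessors of c in Ch s ε S x z: if
ord b < ord b' then b' is strictly between b and c, contradiction with h.adj; symmetric; equality of ord: ord_inj_below.
`Sq.det2`. The same for the successors of b in Ch s ε S x z.
-/

set_option autoImplicit false
open scoped Classical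

namespace Pool.Agent.Lib.MP_9ff0e7_co

variable {s ε h0 : ℝ} {S Z : Finset Pt}

theorem Sq.geo (C : Cx s ε h0 S Z) {f : Pt → Bool} {L : ℕ} {x z b c : Pt}
    (h : Sq s ε h0 f S Z L x z b c) : Geo s ε S x z b c := by
  obtain ⟨hbC, hcC, hlt, hno⟩ := h.adj
  obtain ⟨hbP, hbz⟩ := Finset.mem_filter.1 hbC
  obtain ⟨hcP, hcz⟩ := Finset.mem_filter.1 hcC
  have hzx : Ht ε z < Ht ε x := (mem_Low.1 hbz.1).2
  have hxS := C.sub h.hx
  have hzS := C.sub h.hz
  have hbS := (mem_Low.1 h.hb).1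
  have hcS := (mem_Low.1 h.hc).1
  have hb0 := (mem_Low.1 h.hb).2
  have hc0 := (mem_Low.1 h.hc).2
  have hz0 := C.hi z h.hz
  have hbz' : Ht ε b < Ht ε z := lt_of_lt_of_le hb0 hz0
  have hcz' : Ht ε c < Ht ε z := lt_of_lt_of_le hc0 hz0
  have d1 : 0 < D s x b c := (ord_lt_below hbP hcP).1 hlt
  have hcnz : c ≠ z := by
    rintro rfl
    exact lt_irrefl _ hcz'
  have d2 : D s b z c < 0 := hbz.2.2 c hcP d1 hcnz
  have hvis : Vis s ε x (Low ε S (Ht ε x)) b c :=
    claimA C.gp C.s0 hxS hbC hcC hlt (fun r hr h1 h2 => absurd ⟨h1, h2⟩ (hno r hr))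
  exact
    { xS := hxS
      zS := hzS
      bS := hbS
      cS := hcS
      zx := hzx
      bz := hbz'
      cz := hcz'
      dxbc := d1
      dxcz := hcz.2.1
      dxbz := hbz.2.1
      dbcz := by rw [D_swap']; linarith
      pb := hbz
      pc := hcz
      e1 := vis_empty_x hbP hcP hlt hvis
      e2 := Par_empty hcP hcz
      e3 := vis_empty_z C.gp C.s0 hxS hbC hcC hlt hvis }

theorem Sq.det1 (C : Cx s ε h0 S Z) {f : Pt → Bool} {L : ℕ} {x z b c z' b' : Pt}
    (h : Sq s ε h0 f S Z L x z b c) (h' : Sq s ε h0 f S Z L x z' b' c) : z = z' ∧ b = b' := by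
  have hz : z = z' := Par_unique (Finset.mem_filter.1 h.adj.2.1).2
    (Finset.mem_filter.1 h'.adj.2.1).2
  subst hz
  refine ⟨rfl, ?_⟩
  obtain ⟨hb, hc, hlt, hno⟩ := h.adj
  obtain ⟨hb', hc', hlt', hno'⟩ := h'.adj
  have hbP := (Finset.mem_filter.1 hb).1
  have hbP' := (Finset.mem_filter.1 hb').1
  by_contra hne
  have hne2 : ord s ε x b ≠ ord s ε x b' := fun e =>
    hne (ord_inj_below C.gp C.s0 (C.sub h.hx) hbP hbP' e)
  rcases lt_or_gt_of_ne hne2 with h1 | h1
  · exact hno b' hb' ⟨h1, hlt'⟩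
  · exact hno' b hb ⟨h1, hlt⟩

theorem Sq.det2 (C : Cx s ε h0 S Z) {f : Pt → Bool} {L : ℕ} {x z b c c' : Pt}
    (h : Sq s ε h0 f S Z L x z b c) (h' : Sq s ε h0 f S Z L x z b c') : c = c' := by
  obtain ⟨hb, hc, hlt, hno⟩ := h.adj
  obtain ⟨hb', hc', hlt', hno'⟩ := h'.adj
  have hcP := (Finset.mem_filter.1 hc).1
  have hcP' := (Finset.mem_filter.1 hc').1
  by_contra hne
  have hne2 : ord s ε x c ≠ ord s ε x c' := fun e =>
    hne (ord_inj_below C.gp C.s0 (C.sub h.hx) hcP hcP' e)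
  rcases lt_or_gt_of_ne hne2 with h1 | h1
  · exact hno' c hc ⟨hlt, h1⟩
  · exact hno c' hc' ⟨hlt', h1⟩

end Pool.Agent.Lib.MP_9ff0e7_co
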