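import Pool.Agent.Lib.MP_9ff0e7_co.Q.Defs

/-!
Row B7. A right witness is a low point with the same parent.

Proof. [..] = D s.
(1) Ht a < Ht z. baryH s ε x c z a ... : the library lemma baryH says
 D s u q r * Ht h = D s h q r * Ht u + D s u h r * Ht q + D s u q h * Ht r and baryS : D s u q r = sum of the three.
 With u = x, q = c, r = z, h = a : [x c z] (Ht a - Ht z) = [a c z] (Ht x - Ht z) + [x a z] (Ht c - Ht z).
 [x c z] > 0, [a c z] = [c z a] < 0, Ht x > Ht z, [x a z] > 0, Ht c < Ht z. So Ht a < Ht z.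
(2) 0 < [x c a]. gp4 at c for z, x, a, b : [c z x][c a b] - [c z a][c x b] + [c z b][c x a] = 0 with [c z x] = [x c z] > 0,
 [c a b] = [b c a] > 0, [c z a] < 0, [c x b] = [x b c] > 0, [c z b] = [b c z] > 0. So [c x a] < 0, [x c a] = -[c x a] > 0.
(3) Par s ε S x a z: z in Low (Ht x) (g.pc.1), 0 < [x a z]. Let r be in Low (Ht x), 0 < [x a r], r ≠ z; claim [a z r] < 0.
 r ≠ a. a ≠ z. By D_ne' assume 0 < [a z r] for contradiction. c, a, r are in Low (Ht x), so 0 < [x c r] by low_trans.
 The parent condition of c (g.pc.2.2 r) gives [c z r] < 0. baryD s s x a z c a r :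
 [z c a][x a r] = [r c a][x a z] + [z r a][x a c] + [z c r][x a a], [x a a] = 0, [z c a] = -[c z a] > 0, [x a r] > 0,
 [x a z] > 0, [z r a] = [a z r] > 0, [x a c] = -[x c a] < 0. So [r c a][x a z] > 0, [r c a] = [c a r] > 0.
 Now In c z a r by In_of with the sign -s : -[c z a] > 0, -[c z r] > 0, -[z a r] = [a z r] > 0, -[a c r] = [c a r] > 0.
 Contradiction with w.emp.
-/

set_option autoImplicit false
open scoped Classical

namespace Pool.Agent.Lib.MP_9ff0e7_co

variable {s ε h0 : ℝ} {S Z : Finset Pt}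

theorem rw_par (C : Cx s ε h0 S Z) {x z b c a : Pt} (g : Geo s ε S x z b c)
    (w : RWit s S x z b c a) :
    Ht ε a < Ht ε z ∧ 0 < D s x c a ∧ Par s ε S x a z := by
  have k1 := g.dxcz
  have k2 := w.h1
  have k3 := w.h2
  have k4 := w.h3
  have zx := g.zx
  have cz := g.cz
  have hzL : z ∈ Low ε S (Ht ε x) := g.pc.1
  have hcL : c ∈ Low ε S (Ht ε x) := mem_Low.2 ⟨g.cS, cz.trans zx⟩
  -- (1)
  have haz : Ht ε a < Ht ε z := by
    have e1 := baryH s ε x c z a
    have e2 := baryS s x c z a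
    have e3 : D s a c z = D s c z a := D_cyc _ _ _ _
    rw [e3] at e1 e2
    have e4 : D s x c z * (Ht ε a - Ht ε z) = D s c z a * (Ht ε x - Ht ε z)
        + D s x a z * (Ht ε c - Ht ε z) := by
      linear_combination e1 - Ht ε z * e2
    by_contra hcon
    push Not at hcon
    have m1 := mul_nonneg k1.le (sub_nonneg.2 hcon)
    have m2 := mul_neg_of_neg_of_pos k2 (sub_pos.2 zx)
    have m3 := mul_neg_of_pos_of_neg k3 (sub_neg.2 cz)
    linarith
  have haL : a ∈ Low ε S (Ht ε x) := mem_Low.2 ⟨w.ha, haz.trans zx⟩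
  -- (2)
  have hxca : 0 < D s x c a := by
    have e0 := gp4 s c z x a b
    have e1 : D s c z x = D s x c z := (D_cyc _ _ _ _).symm
    have e2 : D s c a b = D s b c a := (D_cyc _ _ _ _).symm
    have e3 : D s c x b = D s x b c := D_cyc _ _ _ _ |>.trans rfl
    have e4 : D s c z b = D s b c z := (D_cyc _ _ _ _).symm
    have e5 : D s c x a = - D s x c a := D_swap _ _ _ _
    rw [e1, e2, e3, e4, e5] at e0
    have n1 := g.dxbc
    have n2 := g.dbcz
    by_contra hcon
    push Not at hcon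
    have m1 := mul_pos k1 k4
    have m2 := mul_neg_of_neg_of_pos k2 n1
    have m3 := mul_nonneg n2.le (neg_nonneg.2 hcon)
    linarith
  refine ⟨haz, hxca, hzL, k3, ?_⟩
  -- (3)
  intro r hr hr1 hrz
  have hrS := (mem_Low.1 hr).1
  have hra : a ≠ r := D_pos_ne2 hr1
  have haz' : a ≠ z := D_pos_ne2 k3
  rcases D_ne' C.gp C.s0 w.ha g.zS hrS haz' hra hrz.symm with h | h
  · exact h
  exfalso
  have hxcr : 0 < D s x c r := low_trans hcL haL hr hxca hr1
  have hczr : D s c z r < 0 := g.pc.2.2 r hr hxcr hrz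
  have e0 := baryD s s x a z c a r
  have e1 : D s x a a = 0 := D_abb _ _ _
  have e2 : D s z c a = - D s c z a := D_swap _ _ _ _
  have e3 : D s z r a = D s a z r := (D_cyc _ _ _ _).symm
  have e4 : D s x a c = - D s x c a := D_swap' _ _ _ _
  have e5 : D s r c a = D s c a r := D_cyc _ _ _ _
  rw [e1, e2, e3, e4, e5] at e0
  have hcar : 0 < D s c a r := by
    by_contra hcon
    push Not at hcon
    have m1 := mul_pos (neg_pos.2 k2) hr1
    have m2 := mul_nonneg (neg_nonneg.2 hcon) k3.le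
    have m3 := mul_pos h hxca
    nlinarith
  apply w.emp r hrS
  apply In_of (s := -s)
  · rw [D_neg]; linarith
  · rw [D_neg]; linarith
  · rw [D_neg]
    have : D s z a r = - D s a z r := D_swap _ _ _ _
    linarith
  · rw [D_neg]
    have : D s a c r = - D s c a r := D_swap _ _ _ _
    linarith

end Pool.Agent.Lib.MP_9ff0e7_co
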