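import Pool.Agent.Lib.MP_9ff0e7_co.Q.A1
import Pool.Agent.Lib.MP_9ff0e7_co.Q.B7

/-!
Row B9. The interval lemma.

Proof. [..] = D s. rw_par: Ht a < Ht z, 0 < [x c a], Par s ε S x a z. z, b, c, a, x are in Low (Ht x')
(Ht b, Ht c, Ht a < Ht z < Ht x < Ht x').
1. [x' b x] < 0 by left_of (apexes x' high and x low, p = b, hb, g.pb).
2. 0 < [x' b c]: gp4 at b for c, z, x', x : [b c z][b x' x] - [b c x'][b z x] + [b c x][b z x'] = 0 with [b c z] > 0,
   [b x' x] = -[b x x'] = -[x' b x] > 0, [b z x] = [x b z] > 0, [b c x] = [x b c] > 0, [b z x'] = [x' b z] > 0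
   (hb.2.1). So [b c x'] > 0 and [x' b c] = [b c x'].
3. 0 < [x' c a]: [x' a c] ≠ 0 by general position (c ≠ a because 0 < [x c a]). If 0 < [x' a c] then ha.2.2 c (c ≠ z)
   gives [a z c] < 0. But g.pc.2.2 a (a in Low (Ht x), 0 < [x c a], a ≠ z) gives [c z a] < 0, and
   [a z c] = [c a z] = -[c z a] > 0. So [x' a c] < 0 and [x' c a] > 0.
4. 0 < [x' c z] by low_trans (c, a, z; ha.2.1 : 0 < [x' a z]).
5. Let r be in Low (Ht x'), 0 < [x' c r], r ≠ z. Claim [c z r] < 0. c ≠ r. By D_ne' assume 0 < [c z r]. By low_trans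
   0 < [x' b r], so hb.2.2 r gives [b z r] < 0. [b c r] > 0 : gp4 at c for z, r, x', b :
   [c z r][c x' b] - [c z x'][c r b] + [c z b][c r x'] = 0 with [c z r] > 0, [c x' b] = [x' b c] > 0, [c z x'] = [x' c z] > 0,
   [c z b] = [b c z] > 0, [c r x'] = [x' c r] > 0. So [c r b] > 0, [b c r] = [c r b].
   In z b c r by In_of: [z b c] = [b c z] > 0, [z b r] = -[b z r] > 0, [b c r] > 0, [c z r] > 0.
   Contradiction with g.e3.
-/

set_option autoImplicit false
open scoped Classical

namespace Pool.Agent.Lib.MP_9ff0e7_co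

variable {s ε h0 : ℝ} {S Z : Finset Pt}

theorem interval (C : Cx s ε h0 S Z) {x x' z b c a : Pt} (g : Geo s ε S x z b c)
    (w : RWit s S x z b c a) (hx' : x' ∈ S) (hlt : Ht ε x < Ht ε x')
    (hb : Par s ε S x' b z) (ha : Par s ε S x' a z) : Par s ε S x' c z := by
  obtain ⟨haz, hxca, hxa⟩ := rw_par C g w
  have lowmem : ∀ {p : Pt}, p ∈ S → Ht ε p < Ht ε z → p ∈ Low ε S (Ht ε x) := fun hp h =>
    mem_Low.2 ⟨hp, h.trans g.zx⟩
  have lowmem' : ∀ {p : Pt}, p ∈ S → Ht ε p < Ht ε z → p ∈ Low ε S (Ht ε x') := fun hp h =>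
    mem_Low.2 ⟨hp, (h.trans g.zx).trans hlt⟩
  have zL' : z ∈ Low ε S (Ht ε x') := mem_Low.2 ⟨g.zS, g.zx.trans hlt⟩
  have bL' := lowmem' g.bS g.bz
  have cL' := lowmem' g.cS g.cz
  have aL' := lowmem' w.ha haz
  have aL := lowmem w.ha haz
  have cL := lowmem g.cS g.cz
  have bL := lowmem g.bS g.bz
  -- step 1
  have s1 : D s x' b x < 0 := left_of C hx' g.xS bL hlt hb g.pb
  -- step 2
  have s2 : 0 < D s x' b c := by
    have h := gp4 s b c z x' x
    have e1 : D s b c z = D s b c z := rfl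
    have e2 : D s b x' x = - D s x' b x := by unfold D; ring
    have e3 : D s b c x' = D s x' b c := by unfold D; ring
    have e4 : D s b z x = D s x b z := by unfold D; ring
    have e5 : D s b c x = D s x b c := by unfold D; ring
    have e6 : D s b z x' = D s x' b z := by unfold D; ring
    rw [e2, e3, e4, e5, e6] at h
    have k1 := mul_pos g.dbcz (neg_pos.2 s1)
    have k2 := mul_pos g.dxbc hb.2.1
    have k3 : 0 < D s x' b c * D s x b z := by linarith
    exact (mul_pos_iff_of_pos_right g.dxbz).1 k3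
  have hac : a ≠ c := (D_pos_ne2 hxca).symm
  have hax' : x' ≠ a := by
    rintro rfl; exact lt_irrefl _ (mem_Low.1 aL').2
  have hcx' : x' ≠ c := by
    rintro rfl; exact lt_irrefl _ (mem_Low.1 cL').2
  have hcz : c ≠ z := by
    rintro rfl; exact lt_irrefl _ g.cz
  have haz' : a ≠ z := by
    rintro rfl; exact lt_irrefl _ haz
  -- step 3
  have s3 : 0 < D s x' c a := by
    rcases D_ne' C.gp C.s0 hx' g.cS w.ha hcx' hax' hac.symm with h | h
    · exfalso
      have h' : 0 < D s x' a c := by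
        have : D s x' a c = - D s x' c a := D_swap' _ _ _ _
        linarith
      have h1 := ha.2.2 c cL' h' hcz
      have h2 := g.pc.2.2 a aL hxca haz'
      have h3 : D s a z c = - D s c z a := by unfold D; ring
      linarith
    · exact h
  -- step 4
  have s4 : 0 < D s x' c z := low_trans cL' aL' zL' s3 ha.2.1
  refine ⟨zL', s4, ?_⟩
  intro r hr hcr hrz
  have hrS := (mem_Low.1 hr).1
  have hcr' : c ≠ r := D_pos_ne2 hcr
  rcases D_ne' C.gp C.s0 g.cS g.zS hrS hcz hcr' (Ne.symm hrz) with h | h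
  · exact h
  exfalso
  have hbr : 0 < D s x' b r := low_trans bL' cL' hr s2 hcr
  have hbz := hb.2.2 r hr hbr hrz
  have hbcr : 0 < D s b c r := by
    have h := gp4 s c z r x' b
    have e1 : D s c x' b = D s x' b c := by unfold D; ring
    have e2 : D s c z x' = D s x' c z := by unfold D; ring
    have e3 : D s c r b = D s b c r := by unfold D; ring
    have e4 : D s c z b = D s b c z := by unfold D; ring
    have e5 : D s c r x' = D s x' c r := by unfold D; ring
    rw [e1, e2, e3, e4, e5] at h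
    have k1 := mul_pos ‹0 < D s c z r› s2
    have k2 := mul_pos g.dbcz hcr
    have k3 : 0 < D s b c r * D s x' c z := by linarith
    exact (mul_pos_iff_of_pos_right s4).1 k3
  have hin : In z b c r := by
    refine In_of (s := s) ?_ ?_ hbcr ?_
    · have : D s z b c = D s b c z := by unfold D; ring
      rw [this]; exact g.dbcz
    · have : D s z b r = - D s b z r := by unfold D; ring
      rw [this]; exact neg_pos.2 hbz
    · exact h
  exact g.e3 r hrS hin

end Pool.Agent.Lib.MP_9ff0e7_co
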