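import Pool.Agent.Lib.MP_9ff0e7_co.Q.B1
import Pool.Agent.Lib.MP_9ff0e7_co.Q.B9

/-!
Row B10. For a given right witness there are at most `L` squares with given `z` and `b`.

Proof. Let R be the filter set. If it is empty, fine. Let g0 be an element of R with Ht ε g0.1.2 minimal
(Finset.exists_min_image), c0 = g0.2.2, x0 = g0.1.2. For every g in R : g.1.2 is in Xs s ε S Z z c0, i.e. in Z and
Par s ε S g.1.2 c0 z. If g.1.2 = x0 : from (Sq.geo C ..).pc for g0. Otherwise Ht x0 < Ht g.1.2 (minimality and C.inj);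
apply `interval` to the square g0 with witness a, x' = g.1.2, hb = the field pb of the geometry of g, ha = (rw_par C ..).2.2 of g.
(Here g.1.1 = z and g.2.1 = b for all g in R; rewrite.) The map g ↦ g.1.2 is injective on R : if g.1.2 = g'.1.2 = x then both
are squares x z b c and x z b c', so c = c' by Sq.det2 and g = g' (Prod.ext). So card R <= card (Xs s ε S Z z c0) < L
by the field `light` of g0.
-/

set_option autoImplicit false
open scoped Classical

namespace Pool.Agent.Lib.MP_9ff0e7_co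

variable {s ε h0 : ℝ} {S Z : Finset Pt}

theorem rw_fibre (C : Cx s ε h0 S Z) (f : Pt → Bool) (L : ℕ) (z b a : Pt) :
    ((SQ s ε h0 f S Z L).filter (fun g => g.1.1 = z ∧ g.2.1 = b ∧
      RWit s S g.1.2 g.1.1 g.2.1 g.2.2 a)).card ≤ L := by
  set R := (SQ s ε h0 f S Z L).filter (fun g => g.1.1 = z ∧ g.2.1 = b ∧
      RWit s S g.1.2 g.1.1 g.2.1 g.2.2 a) with hR
  have hmem : ∀ g ∈ R, Sq s ε h0 f S Z L g.1.2 z b g.2.2 ∧ RWit s S g.1.2 z b g.2.2 a ∧
      g.1.1 = z ∧ g.2.1 = b := by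
    intro g hg
    obtain ⟨h1, h2, h3, h4⟩ := Finset.mem_filter.1 hg
    have h5 := (Finset.mem_filter.1 h1).2
    rw [h2, h3] at h5
    rw [h2, h3] at h4
    exact ⟨h5, h4, h2, h3⟩
  rcases R.eq_empty_or_nonempty with h0' | hne
  · rw [h0']; simp
  obtain ⟨g0, hg0, hmin⟩ := Finset.exists_min_image R (fun g => Ht ε g.1.2) hne
  obtain ⟨hs0, hw0, -, -⟩ := hmem g0 hg0
  have G0 := Sq.geo C hs0
  have hle : R.card ≤ (Xs s ε S Z z g0.2.2).card := by
    apply Finset.card_le_card_of_injOn (fun g => g.1.2)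
    · intro g hg
      obtain ⟨hs, hw, -, -⟩ := hmem g hg
      have G := Sq.geo C hs
      have hxx : g.1.2 ∈ Xs s ε S Z z g0.2.2 := by
        refine Finset.mem_filter.2 ⟨hs.hx, ?_⟩
        by_cases hx : g0.1.2 = g.1.2
        · rw [← hx]; exact G0.pc
        · have hlt : Ht ε g0.1.2 < Ht ε g.1.2 :=
            lt_of_le_of_ne (hmin g hg) (fun h => hx (C.inj G0.xS G.xS h))
          exact interval C G0 hw0 G.xS hlt G.pb (rw_par C G hw).2.2
      exact hxx
    · intro g hg g' hg' hgg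
      obtain ⟨hs, -, e1, e2⟩ := hmem g hg
      obtain ⟨hs', -, e1', e2'⟩ := hmem g' hg'
      have hgg' : g.1.2 = g'.1.2 := hgg
      rw [← hgg'] at hs'
      have hc := Sq.det2 C hs hs'
      refine Prod.ext (Prod.ext ?_ hgg') (Prod.ext ?_ hc)
      · rw [e1, e1']
      · rw [e2, e2']
  exact hle.trans hs0.light.le

end Pool.Agent.Lib.MP_9ff0e7_co
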