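import Pool.Agent.Lib.MP_9ff0e7_co.Q.Defs

/-!
Row B11. A bad square has a point of the wedge on the left or on the right.

Proof. Take q from Bad. [..] = D s. [x b q] ≠ 0, [c z q] ≠ 0, [x c q] ≠ 0 by D_ne' (distinctness: q differs from x, z, b, c;
x ≠ b, c ≠ z, x ≠ c by heights). If [x b q] < 0 or [c z q] < 0 we are done. So let both be positive. If [x c q] > 0 :
In x c z q by In_of ([x c z] > 0, [x c q] > 0, [c z q] > 0, [z x q] = [x q z] > 0), contradiction with g.e2. If
[x c q] < 0 : In x b c q by In_of ([x b c] > 0, [x b q] > 0, [b c q] > 0, [c x q] = -[x c q] > 0), contradiction with g.e1.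
-/

set_option autoImplicit false
open scoped Classical

namespace Pool.Agent.Lib.MP_9ff0e7_co

variable {s ε h0 : ℝ} {S Z : Finset Pt}

theorem bad_split (C : Cx s ε h0 S Z) {x z b c : Pt} (g : Geo s ε S x z b c)
    (hb : Bad s S x z b c) :
    ∃ q ∈ S, 0 < D s x q z ∧ 0 < D s b c q ∧ (D s x b q < 0 ∨ D s c z q < 0) := by
  obtain ⟨q, hq, qx, qz, qb, qc, h1, h2⟩ := hb
  refine ⟨q, hq, h1, h2, ?_⟩
  have xb : x ≠ b := by
    rintro rfl; have := g.bz; have := g.zx; linarith
  have cz : c ≠ z := by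
    rintro rfl; exact lt_irrefl _ g.cz
  have xc : x ≠ c := by
    rintro rfl; have := g.cz; have := g.zx; linarith
  rcases D_ne' C.gp C.s0 g.xS g.bS hq xb qx.symm qb.symm with k1 | k1
  · exact Or.inl k1
  rcases D_ne' C.gp C.s0 g.cS g.zS hq cz qc.symm qz.symm with k2 | k2
  · exact Or.inr k2
  exfalso
  rcases D_ne' C.gp C.s0 g.xS g.cS hq xc qx.symm qc.symm with k3 | k3
  · apply g.e1 q hq
    apply In_of g.dxbc k1 h2
    have : D s c x q = - D s x c q := D_swap _ _ _ _
    linarith
  · apply g.e2 q hq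
    apply In_of g.dxcz k3 k2
    have : D s z x q = D s x q z := D_cyc _ _ _ _
    linarith

end Pool.Agent.Lib.MP_9ff0e7_co
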