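import Pool.Agent.Lib.MP_9ff0e7_co.Q.Defs

/-!
Row B4. Empty triangles from a left witness. The pentagon x, a, b, c, z is convex (counterclockwise for the sign s).

Signs (write [..] = D s): [x a b] = -[x b a] > 0; [a b c] = [b c a] > 0; [x a c] > 0 : gp4 at x for a, b, c, z :
[x a b][x c z] - [x a c][x b z] + [x a z][x b c] = 0, so [x a c][x b z] > 0.
[z a b] > 0 : gp4 at b for c, z, x, a : [b c z][b x a] - [b c x][b z a] + [b c a][b z x] = 0 with [b c z] > 0,
[b x a] = [x a b] > 0, [b c x] = [x b c] > 0, [b c a] > 0, [b z x] = [x b z] > 0; so [b z a] > 0.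
[z a c] > 0 : gp4 at z for x, a, b, c : [z x a][z b c] - [z x b][z a c] + [z x c][z a b] = 0 with [z x a] = [x a z] > 0,
[z b c] = [b c z] > 0, [z x b] = [x b z] > 0, [z x c] = [x c z] > 0, [z a b] = [b z a] > 0; so [z a c] > 0.
Part 1: q in S, In x a c q. In.pos (with 0 < [x a c]): 0 < [x a q], 0 < [a c q], 0 < [c x q]. q ≠ x; q ≠ b since
[a c b] < 0. So [x b q] ≠ 0 (D_ne'; x ≠ b). If [x b q] > 0: In x b c q by In_of: [x b q] > 0; [b c q] > 0 by In_pos
(functional D s b c · at x, a positive, at c zero); [c x q] > 0. Contradiction with g.e1. If [x b q] < 0: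
In x a b q by In_of: [x a q] > 0; [a b q] > 0 by In_pos (functional D s a b · : at x [a b x] = [x a b] > 0, at a 0, at c
[a b c] > 0); [b x q] = -[x b q] > 0. Then (In x a b q).swap : In x b a q contradicts w.emp.
Part 2: q in S, In z a b q, In.pos: 0 < [z a q], 0 < [a b q], 0 < [b z q].
[x a q] > 0 by In_pos (functional D s x a · : z [x a z] > 0, a 0, b [x a b] > 0). [b c q] > 0 by In_pos (D s b c · : z > 0,
a > 0, b 0). [z x q] > 0 by In_pos (D s z x · : z 0, a > 0, b > 0). [c z q] > 0 by In_pos (D s c z · : z 0,
a [c z a] = [z a c] > 0, b [c z b] = [b c z] > 0). q ≠ x, z, b, c (each of these makes one of the strict signs zero; for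
q = c : [b c q] = 0). If [x b q] < 0: In x a b q ([x a q], [a b q], [b x q] > 0), swap, contradiction with w.emp.
If [x b q] > 0 and [x c q] < 0 : In x b c q ([x b q], [b c q], [c x q] > 0), contradiction with g.e1.
If [x b q] > 0 and [x c q] > 0: In x c z q ([x c q], [c z q], [z x q] > 0), contradiction with g.e2.
-/

set_option autoImplicit false
open scoped Classical

namespace Pool.Agent.Lib.MP_9ff0e7_co

variable {s ε h0 : ℝ} {S Z : Finset Pt}

theorem lw_empty (C : Cx s ε h0 S Z) {x z b c a : Pt} (g : Geo s ε S x z b c)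
    (w : LWit s ε S x z b c a) : (∀ q ∈ S, ¬ In x a c q) ∧ (∀ q ∈ S, ¬ In z a b q) := by
  have hs := C.s0
  have hxab : 0 < D s x a b := by
    have e : D s x a b = - D s x b a := D_swap' _ _ _ _
    have := w.h1
    rw [e]; linarith
  have hbca : 0 < D s b c a := w.h3
  have habc : 0 < D s a b c := by
    have e : D s a b c = D s b c a := D_cyc _ _ _ _
    rw [e]; exact hbca
  have hxaz : 0 < D s x a z := w.h2
  have hxbc := g.dxbc
  have hxcz := g.dxcz
  have hxbz := g.dxbz
  have hbcz := g.dbcz
  have hxac : 0 < D s x a c := by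
    have h := gp4 s x a b c z
    have m1 := mul_pos hxab hxcz
    have m2 := mul_pos hxaz hxbc
    have h2 : 0 < D s x a c * D s x b z := by linarith
    exact (mul_pos_iff_of_pos_right hxbz).1 h2
  have hzab : 0 < D s z a b := by
    have h := gp4 s b c z x a
    have e1 : D s b x a = D s x a b := by unfold D; ring
    have e2 : D s b c x = D s x b c := by unfold D; ring
    have e3 : D s b z x = D s x b z := by unfold D; ring
    have e4 : D s b z a = D s z a b := by unfold D; ring
    rw [e1, e2, e3, e4] at h
    have m1 := mul_pos hbcz hxab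
    have m2 := mul_pos hbca hxbz
    have h2 : 0 < D s x b c * D s z a b := by linarith
    exact (mul_pos_iff_of_pos_left hxbc).1 h2
  have hzac : 0 < D s z a c := by
    have h := gp4 s z x a b c
    have e1 : D s z x a = D s x a z := by unfold D; ring
    have e2 : D s z b c = D s b c z := by unfold D; ring
    have e3 : D s z x b = D s x b z := by unfold D; ring
    have e4 : D s z x c = D s x c z := by unfold D; ring
    rw [e1, e2, e3, e4] at h
    have m1 := mul_pos hxaz hbcz
    have m2 := mul_pos hxcz hzab
    have h2 : 0 < D s x b z * D s z a c := by linarith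
    exact (mul_pos_iff_of_pos_left hxbz).1 h2
  have hxb : x ≠ b := by
    rintro rfl
    have : D s x x c = 0 := D_aac _ _ _
    linarith
  have hxc : x ≠ c := by
    rintro rfl
    have : D s x b x = 0 := D_aba _ _ _
    linarith
  have caa : D s c a x = D s x c a := by unfold D; ring
  refine ⟨?_, ?_⟩
  · intro q hq hin
    obtain ⟨k1, k2, k3⟩ := hin.pos hxac
    have hqx : q ≠ x := by
      rintro rfl
      have : D s q a q = 0 := D_aba _ _ _
      linarith
    have hqb : q ≠ b := by
      rintro rfl
      have : D s a c q = - D s a q c := D_swap' _ _ _ _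
      linarith
    have hbx : D s b c x = D s x b c := by unfold D; ring
    have hbcq : 0 < D s b c q := by
      refine In_pos hin (by rw [hbx]; exact hxbc.le) hbca.le (by rw [D_abb]) (Or.inr (Or.inl hbca))
    rcases D_ne' C.gp hs g.xS g.bS hq hxb (Ne.symm hqx) (Ne.symm hqb) with h | h
    · have habx : D s a b x = D s x a b := by unfold D; ring
      have habq : 0 < D s a b q := by
        refine In_pos hin (by rw [habx]; exact hxab.le) (by rw [D_aba]) habc.le
          (Or.inr (Or.inr habc))
      have hbxq : 0 < D s b x q := by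
        have e : D s b x q = - D s x b q := D_swap _ _ _ _
        rw [e]; linarith
      exact w.emp q hq (In_of hxab k1 habq hbxq).swap
    · exact g.e1 q hq (In_of hxbc h hbcq k3)
  · intro q hq hin
    obtain ⟨k1, k2, k3⟩ := hin.pos hzab
    have hxaq : 0 < D s x a q :=
      In_pos hin hxaz.le (by rw [D_abb]) hxab.le (Or.inl hxaz)
    have hbcq : 0 < D s b c q :=
      In_pos hin hbcz.le hbca.le (by rw [D_aba]) (Or.inl hbcz)
    have e1 : D s z x a = D s x a z := by unfold D; ring
    have e3 : D s z x b = D s x b z := by unfold D; ring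
    have hzxq : 0 < D s z x q :=
      In_pos hin (by rw [D_aba]) (by rw [e1]; exact hxaz.le) (by rw [e3]; exact hxbz.le)
        (Or.inr (Or.inl (by rw [e1]; exact hxaz)))
    have e5 : D s c z a = D s z a c := by unfold D; ring
    have e6 : D s c z b = D s b c z := by unfold D; ring
    have hczq : 0 < D s c z q :=
      In_pos hin (by rw [D_abb]) (by rw [e5]; exact hzac.le) (by rw [e6]; exact hbcz.le)
        (Or.inr (Or.inl (by rw [e5]; exact hzac)))
    have hqx : q ≠ x := by
      rintro rfl
      have : D s q a q = 0 := D_aba _ _ _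
      linarith
    have hqb : q ≠ b := by
      rintro rfl
      have : D s q c q = 0 := D_aba _ _ _
      linarith
    have hqc : q ≠ c := by
      rintro rfl
      have : D s b q q = 0 := D_abb _ _ _
      linarith
    rcases D_ne' C.gp hs g.xS g.bS hq hxb (Ne.symm hqx) (Ne.symm hqb) with h | h
    · have habq : 0 < D s a b q := k2
      have hbxq : 0 < D s b x q := by
        have e : D s b x q = - D s x b q := D_swap _ _ _ _
        rw [e]; linarith
      exact w.emp q hq (In_of hxab hxaq habq hbxq).swap
    · rcases D_ne' C.gp hs g.xS g.cS hq hxc (Ne.symm hqx) (Ne.symm hqc) with h' | h'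
      · have hcxq : 0 < D s c x q := by
          have e : D s c x q = - D s x c q := D_swap _ _ _ _
          rw [e]; linarith
        exact g.e1 q hq (In_of hxbc h hbcq hcxq)
      · exact g.e2 q hq (In_of hxcz h' hczq hzxq)

end Pool.Agent.Lib.MP_9ff0e7_co
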