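import Pool.Agent.Lib.MP_9ff0e7_co.Q.A1

/-!
Row B5. The apex of a square with a given left witness is unique.

Proof. Suppose x1 ≠ x2. Heights differ (C.inj). By symmetry (prove an auxiliary statement with the hypothesis
Ht x1 < Ht x2 and conclusion False first) let Ht x1 < Ht x2. b is in Low (Ht x1) since Ht b < Ht z < Ht x1. `left_of`
(x = x2, x' = x1, p = b, with g2.pb and g1.pb) gives D s x2 b x1 < 0. So 0 < D (-s) x2 b x1, x1 is in Low (Ht x2).
Write [uv] = D s b u v. [x2 x1] = D s b x2 x1 = -D s b x1 x2 = - D s x2 b x1 > 0. [x1 a] = D s b x1 a > 0 since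
D s x1 b a < 0 (w1.h1; D s x1 b a = D s b a x1 = -D s b x1 a). [x2 a] > 0 the same with w2.h1.
w2.cond: (i) no left parent: contradiction with Par_exists (sign -s, point x1).
(ii) Par (-s) ε S x2 b a : x1 ≠ a because [x1 a] ≠ 0. The parent condition with r = x1: D (-s) b a x1 < 0, so
0 < D s b a x1, so [x1 a] < 0, contradiction.
(iii) y with Par (-s) ε S x2 b y and [c2 y] = D s b c2 y < 0. First [c2 x1] < 0: if x1 = y clear. Otherwise the parent condition
with r = x1 gives D (-s) b y x1 < 0, i.e. [y x1] > 0; 0 < D (-s) x2 b y gives [x2 y] > 0; [c2 x2] = D s x2 b c2 > 0;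
gp4 at b for c2, x2, y, x1 : [c2 x2][y x1] - [c2 y][x2 x1] + [c2 x1][x2 y] = 0, so [c2 x1][x2 y] < 0 and [c2 x1] < 0.
Finally gp4 at b for c2, x2, x1, a : [c2 x2][x1 a] - [c2 x1][x2 a] + [c2 a][x2 x1] = 0, where [c2 x2] > 0, [x1 a] > 0,
[c2 x1] < 0, [x2 a] > 0, [c2 a] = w2.h3 > 0, [x2 x1] > 0: a sum of three positive terms. Contradiction.
-/

set_option autoImplicit false
open scoped Classical

namespace Pool.Agent.Lib.MP_9ff0e7_co

variable {s ε h0 : ℝ} {S Z : Finset Pt}

theorem b5_aux (C : Cx s ε h0 S Z) {x1 x2 z b c1 c2 a : Pt} (g1 : Geo s ε S x1 z b c1)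
    (g2 : Geo s ε S x2 z b c2) (w1 : LWit s ε S x1 z b c1 a) (w2 : LWit s ε S x2 z b c2 a)
    (hlt : Ht ε x1 < Ht ε x2) : False := by
  have hb1 : b ∈ Low ε S (Ht ε x1) := mem_Low.2 ⟨g1.bS, g1.bz.trans g1.zx⟩
  have hb2 : b ∈ Low ε S (Ht ε x2) := mem_Low.2 ⟨g1.bS, g2.bz.trans g2.zx⟩
  have e0 : D s x2 b x1 < 0 := left_of C g2.xS g1.xS hb1 hlt g2.pb g1.pb
  have hx1 : x1 ∈ Low ε S (Ht ε x2) := mem_Low.2 ⟨g1.xS, hlt⟩
  have f1 : 0 < D s b x2 x1 := by
    have e : D s x2 b x1 = - D s b x2 x1 := by unfold D; ring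
    linarith
  have f2 : 0 < D s b x1 a := by
    have e : D s x1 b a = - D s b x1 a := by unfold D; ring
    have := w1.h1
    linarith
  have f3 : 0 < D s b x2 a := by
    have e : D s x2 b a = - D s b x2 a := by unfold D; ring
    have := w2.h1
    linarith
  have f4 : 0 < D s b c2 x2 := by
    have e : D s x2 b c2 = D s b c2 x2 := by unfold D; ring
    have := g2.dxbc
    linarith
  have k1 : 0 < D (-s) x2 b x1 := by
    have e : D (-s) x2 b x1 = - D s x2 b x1 := by unfold D; ring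
    linarith
  have f5 : D s b c2 x1 < 0 := by
    rcases w2.cond with h | h | ⟨y, hy, hy2⟩
    · exact absurd (Par_exists C.gp (neg_ne_zero.2 C.s0) hb2 ⟨x1, hx1, k1⟩) h
    · exfalso
      have hne : x1 ≠ a := by rintro rfl; rw [D_abb] at f2; exact lt_irrefl _ f2
      have h1 := h.2.2 x1 hx1 k1 hne
      have e : D (-s) b a x1 = D s b x1 a := by unfold D; ring
      linarith
    · by_cases hxy : x1 = y
      · rw [hxy]; exact hy2
      · have k := hy.2.2 x1 hx1 k1 hxy
        have k2 : 0 < D s b y x1 := by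
          have e : D (-s) b y x1 = - D s b y x1 := by unfold D; ring
          linarith
        have k3 : 0 < D s b x2 y := by
          have h2 := hy.2.1
          have e : D (-s) x2 b y = D s b x2 y := by unfold D; ring
          linarith
        have r := gp4 s b c2 x2 y x1
        by_contra hc
        push Not at hc
        have m1 := mul_pos f4 k2
        have m2 := mul_pos (neg_pos.2 hy2) f1
        have m3 := mul_nonneg hc k3.le
        linarith
  have r := gp4 s b c2 x2 x1 a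
  have m1 := mul_pos f4 f2
  have m2 := mul_pos (neg_pos.2 f5) f3
  have h3 : 0 < D s b c2 a := w2.h3
  have m3 := mul_pos h3 f1
  linarith

theorem lw_unique (C : Cx s ε h0 S Z) {x1 x2 z b c1 c2 a : Pt} (g1 : Geo s ε S x1 z b c1)
    (g2 : Geo s ε S x2 z b c2) (w1 : LWit s ε S x1 z b c1 a) (w2 : LWit s ε S x2 z b c2 a) :
    x1 = x2 := by
  by_contra hne
  rcases lt_or_gt_of_ne (fun h => hne (C.inj g1.xS g2.xS h)) with h | h
  · exact b5_aux C g1 g2 w1 w2 h
  · exact b5_aux C g2 g1 w2 w1 h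

end Pool.Agent.Lib.MP_9ff0e7_co
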