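import Pool.Agent.Lib.MP_9ff0e7_co.Q.B0
import Pool.Agent.Lib.MP_9ff0e7_co.Q.B1
import Pool.Agent.Lib.MP_9ff0e7_co.Q.B4
import Pool.Agent.Lib.MP_9ff0e7_co.Q.B5

/-!
Row B12. Number of squares with a left witness.

Proof. Let R be the filter set; for g in R choose a(g) (choose!). Split R = R1 ∪ R2, R1 : f (a g) = f g.1.2.
R1 : the map g = ((z,x),(b,c)) ↦ (x, a g, c) into N1 = its image; it is injective on R1 (x and c determine the square by
Sq.det1). `tri_count` with N1 : x in Z, a in S, c in S, x ≠ a (w.h2 : 0 < D s x a z gives x ≠ a, D_pos_ne1), x ≠ c,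
a ≠ c (0 < D s b c a, D_pos_ne2), colours: f a = f x, f c = f x (field fc), emptiness: (lw_empty C geo w).1.
R2 : f (a g) ≠ f x : the map g ↦ (z, a g, b) is injective: if (z,a,b) is the same for g and g' then lw_unique gives
x = x' and Sq.det2 gives c = c'. tri_count: z in Z, a in S, b in S, z ≠ a (0 < D s x a z, D_pos_ne2), z ≠ b (heights),
a ≠ b (D s x b a < 0; if a = b then D s x b b = 0), colours: f a ≠ f x, f b ≠ f x, f z ≠ f x, so
f a = f z and f b = f z (Bool, cases/decide), emptiness: (lw_empty C geo w).2.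
Each part has at most 2 * sum elements (Finset.card_image_of_injOn), so together 4 * sum.
-/

set_option autoImplicit false
open scoped Classical

namespace Pool.Agent.Lib.MP_9ff0e7_co

variable {s ε h0 : ℝ} {S Z : Finset Pt}

theorem b12_part1 (C : Cx s ε h0 S Z) (f : Pt → Bool) (L : ℕ) (R : Finset (Seg × Seg))
    (A : Seg × Seg → Pt)
    (hS : ∀ g ∈ R, Sq s ε h0 f S Z L g.1.2 g.1.1 g.2.1 g.2.2)
    (hA : ∀ g ∈ R, LWit s ε S g.1.2 g.1.1 g.2.1 g.2.2 (A g))
    (hf : ∀ g ∈ R, f (A g) = f g.1.2) :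
    R.card ≤ 2 * ∑ z ∈ Z, ee S f z := by
  have hinj : Set.InjOn (fun g : Seg × Seg => (g.1.2, A g, g.2.2)) R := by
    intro g hg g' hg' h
    have hg := Finset.mem_coe.1 hg
    have hg' := Finset.mem_coe.1 hg'
    have s1 := hS g hg
    have s2 := hS g' hg'
    simp only [Prod.mk.injEq] at h
    obtain ⟨e1, -, e3⟩ := h
    rw [← e1, ← e3] at s2
    obtain ⟨e4, e5⟩ := Sq.det1 C s1 s2
    exact Prod.ext (Prod.ext e4 e1) (Prod.ext e5 e3)
  rw [← Finset.card_image_of_injOn hinj]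
  apply tri_count C.gp f C.sub
  intro q hq
  obtain ⟨g, hg, rfl⟩ := Finset.mem_image.1 hq
  have sq := hS g hg
  have w := hA g hg
  have geo := Sq.geo C sq
  refine ⟨sq.hx, w.ha, geo.cS, D_pos_ne1 w.h2, ?_, ?_, hf g hg, sq.fc, (lw_empty C geo w).1⟩
  · intro h
    have h1 := geo.zx
    have h2 := geo.cz
    have h : g.1.2 = g.2.2 := h
    rw [h] at h1
    exact lt_asymm h1 h2
  · exact (D_pos_ne2 w.h3).symm

theorem b12_part2 (C : Cx s ε h0 S Z) (f : Pt → Bool) (L : ℕ) (R : Finset (Seg × Seg))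
    (A : Seg × Seg → Pt)
    (hS : ∀ g ∈ R, Sq s ε h0 f S Z L g.1.2 g.1.1 g.2.1 g.2.2)
    (hA : ∀ g ∈ R, LWit s ε S g.1.2 g.1.1 g.2.1 g.2.2 (A g))
    (hf : ∀ g ∈ R, ¬ f (A g) = f g.1.2) :
    R.card ≤ 2 * ∑ z ∈ Z, ee S f z := by
  have hinj : Set.InjOn (fun g : Seg × Seg => (g.1.1, A g, g.2.1)) R := by
    intro g hg g' hg' h
    have hg := Finset.mem_coe.1 hg
    have hg' := Finset.mem_coe.1 hg'
    have s1 := hS g hg
    have s2 := hS g' hg'
    have w1 := hA g hg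
    have w2 := hA g' hg'
    simp only [Prod.mk.injEq] at h
    obtain ⟨e1, e2, e3⟩ := h
    rw [← e1, ← e3] at s2
    rw [← e1, ← e2, ← e3] at w2
    have ex := lw_unique C (Sq.geo C s1) (Sq.geo C s2) w1 w2
    rw [← ex] at s2
    have ec := Sq.det2 C s1 s2
    exact Prod.ext (Prod.ext e1 ex) (Prod.ext e3 ec)
  rw [← Finset.card_image_of_injOn hinj]
  apply tri_count C.gp f C.sub
  intro q hq
  obtain ⟨g, hg, rfl⟩ := Finset.mem_image.1 hq
  have sq := hS g hg
  have w := hA g hg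
  have geo := Sq.geo C sq
  have hb : ∀ u v w : Bool, u ≠ v → w ≠ v → u = w := by decide
  refine ⟨sq.hz, w.ha, geo.bS, (D_pos_ne2 w.h2).symm, ?_, ?_, hb _ _ _ (hf g hg) sq.fz,
    hb _ _ _ sq.fb sq.fz, (lw_empty C geo w).2⟩
  · intro h
    have h1 := geo.bz
    have h : g.1.1 = g.2.1 := h
    rw [h] at h1
    exact lt_irrefl _ h1
  · intro h
    have h : A g = g.2.1 := h
    have h1 := w.h1
    rw [h, D_abb] at h1
    exact lt_irrefl _ h1

theorem bad_left (C : Cx s ε h0 S Z) (f : Pt → Bool) (L : ℕ) :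
    ((SQ s ε h0 f S Z L).filter (fun g => ∃ a, LWit s ε S g.1.2 g.1.1 g.2.1 g.2.2 a)).card ≤
      4 * ∑ z ∈ Z, ee S f z := by
  set R := (SQ s ε h0 f S Z L).filter (fun g => ∃ a, LWit s ε S g.1.2 g.1.1 g.2.1 g.2.2 a)
    with hR
  have hRm : ∀ g ∈ R, Sq s ε h0 f S Z L g.1.2 g.1.1 g.2.1 g.2.2 ∧
      ∃ a, LWit s ε S g.1.2 g.1.1 g.2.1 g.2.2 a := by
    intro g hg
    rw [hR, Finset.mem_filter] at hg
    refine ⟨?_, hg.2⟩
    have h1 := hg.1
    unfold SQ at h1
    exact (Finset.mem_filter.1 h1).2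
  have hex : ∀ g : Seg × Seg, ∃ a : Pt, g ∈ R → LWit s ε S g.1.2 g.1.1 g.2.1 g.2.2 a := by
    intro g
    by_cases hg : g ∈ R
    · obtain ⟨a, ha⟩ := (hRm g hg).2
      exact ⟨a, fun _ => ha⟩
    · exact ⟨(0, 0), fun h => absurd h hg⟩
  choose A hA using hex
  have h1 : (R.filter (fun g => f (A g) = f g.1.2)).card ≤ 2 * ∑ z ∈ Z, ee S f z := by
    apply b12_part1 C f L _ A
    · intro g hg; exact (hRm g (Finset.mem_filter.1 hg).1).1
    · intro g hg; exact hA g (Finset.mem_filter.1 hg).1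
    · intro g hg; exact (Finset.mem_filter.1 hg).2
  have h2 : (R.filter (fun g => ¬ f (A g) = f g.1.2)).card ≤ 2 * ∑ z ∈ Z, ee S f z := by
    apply b12_part2 C f L _ A
    · intro g hg; exact (hRm g (Finset.mem_filter.1 hg).1).1
    · intro g hg; exact hA g (Finset.mem_filter.1 hg).1
    · intro g hg; exact (Finset.mem_filter.1 hg).2
  have h3 := Finset.card_filter_add_card_filter_not (s := R) (fun g => f (A g) = f g.1.2)
  omega

end Pool.Agent.Lib.MP_9ff0e7_co
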