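import Pool.Agent.Lib.MP_9ff0e7_co.Q.B7

/-!
Row B8. Empty triangles from a right witness. The pentagon x, b, c, a, z is convex (counterclockwise for the sign s).

From rw_par: Ht a < Ht z, 0 < [x c a], Par s ε S x a z. [c a z] = [z c a] = -[c z a] > 0.
Part 1: q in S, In x a c q; then In x c a q (swap) and In.pos with 0 < [x c a]: 0 < [x c q], 0 < [c a q], 0 < [a x q].
[z x q] > 0 by In_pos (functional D s z x · at x 0, at c > 0, at a > 0). [a z q] > 0 by In_pos (functional D s a z · at x
[a z x] = [x a z] > 0, at c [a z c] = [c a z] > 0, at a 0). q ≠ z, q ≠ c. If [c z q] > 0 : In x c z q, contradiction with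
g.e2. If [c z q] < 0 : In c z a q by In_of with the sign -s : -[c z a] > 0, -[c z q] > 0, -[z a q] = [a z q] > 0,
-[a c q] = [c a q] > 0. Contradiction with w.emp.
Part 2: b, c, a, z in Low (Ht x), 0 < [x b a] by low_trans (0 < [x b c], 0 < [x c a]). The parent condition of b (g.pb.2.2 a,
a ≠ z as Ht a < Ht z) gives [b z a] < 0, so [z b a] = [b a z] = -[b z a] > 0. Let q in S, In z a b q, so In z b a q,
In.pos: 0 < [z b q], 0 < [b a q], 0 < [a z q]. [b c q] > 0 by In_pos (functional D s b c · at z > 0, b 0, a > 0).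
[c a q] > 0 by In_pos (functional D s c a · at z [c a z] > 0, at b [c a b] = [b c a] > 0, at a 0). q ≠ c, q ≠ z.
If [z c q] < 0 : In z b c q by In_of ([z b c] = [b c z] > 0, [z b q] > 0, [b c q] > 0, [c z q] = -[z c q] > 0),
contradiction with g.e3. If [z c q] > 0 : In c z a q by In_of with the sign -s : -[c z a] > 0, -[c z q] = [z c q] > 0,
-[z a q] = [a z q] > 0, -[a c q] = [c a q] > 0. Contradiction with w.emp.
-/

set_option autoImplicit false
open scoped Classical

namespace Pool.Agent.Lib.MP_9ff0e7_co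

variable {s ε h0 : ℝ} {S Z : Finset Pt}

theorem rw_empty (C : Cx s ε h0 S Z) {x z b c a : Pt} (g : Geo s ε S x z b c)
    (w : RWit s S x z b c a) : (∀ q ∈ S, ¬ In x a c q) ∧ (∀ q ∈ S, ¬ In z a b q) := by
  obtain ⟨haz, hxca, hpar⟩ := rw_par C g w
  have k1 := g.dxcz
  have k2 := w.h1
  have k3 := w.h2
  have k4 := w.h3
  have k5 := g.dbcz
  have hcaz : D s c a z = - D s c z a := D_swap' _ _ _ _
  have hcz : c ≠ z := D_pos_ne2 k1
  have hAz : a ≠ z := D_pos_ne2 k3
  refine ⟨?_, ?_⟩
  · intro q hq h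
    have h' := h.swap
    obtain ⟨p1, p2, p3⟩ := h'.pos hxca
    have e1 : D s z x c = D s x c z := D_cyc _ _ _ _
    have e2 : D s z x a = D s x a z := D_cyc _ _ _ _
    have e3 : D s z x x = 0 := D_abb _ _ _
    have f1 : 0 < D s z x q := by
      refine In_pos h' ?_ ?_ ?_ (Or.inr (Or.inl ?_))
      · rw [e3]
      · rw [e1]; exact k1.le
      · rw [e2]; exact k3.le
      · rw [e1]; exact k1
    have e4 : D s a z x = D s x a z := (D_cyc _ _ _ _).symm
    have e5 : D s a z c = D s c a z := (D_cyc _ _ _ _).symm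
    have e6 : D s a z a = 0 := D_aba _ _ _
    have f2 : 0 < D s a z q := by
      refine In_pos h' ?_ ?_ ?_ (Or.inl ?_)
      · rw [e4]; exact k3.le
      · rw [e5, hcaz]; linarith
      · rw [e6]
      · rw [e4]; exact k3
    have hzq : z ≠ q := D_pos_ne3 f1
    have hcq : c ≠ q := D_pos_ne2 p1
    rcases D_ne' C.gp C.s0 g.cS g.zS hq hcz hcq hzq with h1 | h1
    · apply w.emp q hq
      apply In_of (s := -s)
      · rw [D_neg]; linarith
      · rw [D_neg]; linarith
      · rw [D_neg]
        have : D s z a q = - D s a z q := D_swap _ _ _ _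
        linarith
      · rw [D_neg]
        have : D s a c q = - D s c a q := D_swap _ _ _ _
        linarith
    · exact g.e2 q hq (In_of k1 p1 h1 f1)
  · intro q hq h
    have hbL : b ∈ Low ε S (Ht ε x) := mem_Low.2 ⟨g.bS, g.bz.trans g.zx⟩
    have hcL : c ∈ Low ε S (Ht ε x) := mem_Low.2 ⟨g.cS, g.cz.trans g.zx⟩
    have haL : a ∈ Low ε S (Ht ε x) := mem_Low.2 ⟨w.ha, haz.trans g.zx⟩
    have hxba : 0 < D s x b a := low_trans hbL hcL haL g.dxbc hxca
    have hbza : D s b z a < 0 := g.pb.2.2 a haL hxba hAz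
    have hzba : 0 < D s z b a := by
      have : D s z b a = - D s b z a := D_swap _ _ _ _
      linarith
    have h' := h.swap
    obtain ⟨p1, p2, p3⟩ := h'.pos hzba
    have e1 : D s b c b = 0 := D_aba _ _ _
    have f1 : 0 < D s b c q := by
      refine In_pos h' ?_ ?_ ?_ (Or.inl ?_)
      · exact k5.le
      · rw [e1]
      · exact k4.le
      · exact k5
    have e2 : D s c a b = D s b c a := (D_cyc _ _ _ _).symm
    have e3 : D s c a a = 0 := D_abb _ _ _
    have f2 : 0 < D s c a q := by
      refine In_pos h' ?_ ?_ ?_ (Or.inl ?_)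
      · rw [hcaz]; linarith
      · rw [e2]; exact k4.le
      · rw [e3]
      · rw [hcaz]; linarith
    have hcq : c ≠ q := D_pos_ne2 f1
    have hzq : z ≠ q := D_pos_ne3 p1
    have e4 : D s c z q = - D s z c q := D_swap _ _ _ _
    rcases D_ne' C.gp C.s0 g.zS g.cS hq hcz.symm hzq hcq with h1 | h1
    · apply g.e3 q hq
      refine In_of (s := s) ?_ p1 f1 ?_
      · have : D s z b c = D s b c z := D_cyc _ _ _ _
        rw [this]; exact k5
      · linarith
    · apply w.emp q hq
      apply In_of (s := -s)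
      · rw [D_neg]; linarith
      · rw [D_neg]; linarith
      · rw [D_neg]
        have : D s z a q = - D s a z q := D_swap _ _ _ _
        linarith
      · rw [D_neg]
        have : D s a c q = - D s c a q := D_swap _ _ _ _
        linarith

end Pool.Agent.Lib.MP_9ff0e7_co
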