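import Pool.Agent.Lib.MP_9ff0e7_co.Q.B0
import Pool.Agent.Lib.MP_9ff0e7_co.Q.B8
import Pool.Agent.Lib.MP_9ff0e7_co.Q.B10

/-!
Row B13. Number of squares with a right witness.
-/

set_option autoImplicit false
open scoped Classical

namespace Pool.Agent.Lib.MP_9ff0e7_co

variable {s ε h0 : ℝ} {S Z : Finset Pt}

theorem b13_ne12 {s : ℝ} {a b c : Pt} (h : 0 < D s a b c) : a ≠ b := by
  rintro rfl
  have : D s a a c = 0 := by unfold D; ring
  rw [this] at h
  exact lt_irrefl _ h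

theorem b13_ne13 {s : ℝ} {a b c : Pt} (h : 0 < D s a b c) : a ≠ c := by
  rintro rfl
  have : D s a b a = 0 := by unfold D; ring
  rw [this] at h
  exact lt_irrefl _ h

theorem b13_ne23 {s : ℝ} {a b c : Pt} (h : 0 < D s a b c) : b ≠ c := by
  rintro rfl
  have : D s a b b = 0 := by unfold D; ring
  rw [this] at h
  exact lt_irrefl _ h

theorem bad_right (C : Cx s ε h0 S Z) (f : Pt → Bool) (L : ℕ) :
    ((SQ s ε h0 f S Z L).filter (fun g => ∃ a, RWit s S g.1.2 g.1.1 g.2.1 g.2.2 a)).card ≤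
      (2 + 2 * L) * ∑ z ∈ Z, ee S f z := by
  have hA : ∀ g : Seg × Seg, ∃ a : Pt, (∃ a, RWit s S g.1.2 g.1.1 g.2.1 g.2.2 a) →
      RWit s S g.1.2 g.1.1 g.2.1 g.2.2 a := by
    intro g
    by_cases h : ∃ a, RWit s S g.1.2 g.1.1 g.2.1 g.2.2 a
    · obtain ⟨a, ha⟩ := h
      exact ⟨a, fun _ => ha⟩
    · exact ⟨g.1.1, fun h' => absurd h' h⟩
  choose A hA using hA
  set R := (SQ s ε h0 f S Z L).filter (fun g => ∃ a, RWit s S g.1.2 g.1.1 g.2.1 g.2.2 a) with hR
  have hmem : ∀ g ∈ R, Sq s ε h0 f S Z L g.1.2 g.1.1 g.2.1 g.2.2 ∧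
      RWit s S g.1.2 g.1.1 g.2.1 g.2.2 (A g) := by
    intro g hg
    rw [hR, Finset.mem_filter, SQ, Finset.mem_filter] at hg
    exact ⟨hg.1.2, hA g hg.2⟩
  have hSQ : ∀ g ∈ R, g ∈ SQ s ε h0 f S Z L := by
    intro g hg
    rw [hR, Finset.mem_filter] at hg
    exact hg.1
  set R1 := R.filter (fun g => f (A g) = f g.1.2) with hR1
  set R2 := R.filter (fun g => ¬ f (A g) = f g.1.2) with hR2
  have hsplit : R.card = R1.card + R2.card := by
    rw [hR1, hR2]
    exact (Finset.card_filter_add_card_filter_not (fun g => f (A g) = f g.1.2)).symm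
  have h1 : R1.card ≤ 2 * ∑ z ∈ Z, ee S f z := by
    have e : (R1.image (fun g => (g.1.2, A g, g.2.2))).card = R1.card := by
      apply Finset.card_image_of_injOn
      rintro ⟨⟨z, x⟩, ⟨b, c⟩⟩ hg ⟨⟨z', x'⟩, ⟨b', c'⟩⟩ hg' heq
      have hg := (Finset.mem_filter.1 (Finset.mem_coe.1 hg)).1
      have hg' := (Finset.mem_filter.1 (Finset.mem_coe.1 hg')).1
      simp only [Prod.mk.injEq] at heq
      obtain ⟨e1, _, e3⟩ := heq
      subst e1
      subst e3
      obtain ⟨e4, e5⟩ := Sq.det1 C (hmem _ hg).1 (hmem _ hg').1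
      subst e4
      subst e5
      rfl
    rw [← e]
    apply tri_count C.gp f C.sub
    intro q hq
    obtain ⟨g, hg, rfl⟩ := Finset.mem_image.1 hq
    obtain ⟨hg, hf⟩ := Finset.mem_filter.1 hg
    obtain ⟨sq, w⟩ := hmem g hg
    have geo := Sq.geo C sq
    refine ⟨sq.hx, w.ha, geo.cS, b13_ne12 w.h2, b13_ne12 geo.dxcz, ?_, hf, sq.fc,
      (rw_empty C geo w).1⟩
    exact (b13_ne23 w.h3).symm
  have h2 : R2.card ≤ L * (2 * ∑ z ∈ Z, ee S f z) := by
    have e : R2.card ≤ L * (R2.image (fun g => (g.1.1, A g, g.2.1))).card := by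
      apply Finset.card_le_mul_card_image
      intro q hq
      refine le_trans (Finset.card_le_card ?_) (rw_fibre C f L q.1 q.2.2 q.2.1)
      intro g hg
      obtain ⟨hg1, hg2⟩ := Finset.mem_filter.1 hg
      have hg3 := (Finset.mem_filter.1 hg1).1
      rw [Finset.mem_filter]
      refine ⟨hSQ g hg3, ?_, ?_, ?_⟩
      · rw [← hg2]
      · rw [← hg2]
      · rw [← hg2]
        exact (hmem g hg3).2
    refine e.trans (Nat.mul_le_mul_left _ ?_)
    apply tri_count C.gp f C.sub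
    intro q hq
    obtain ⟨g, hg, rfl⟩ := Finset.mem_image.1 hq
    obtain ⟨hg, hf⟩ := Finset.mem_filter.1 hg
    obtain ⟨sq, w⟩ := hmem g hg
    have geo := Sq.geo C sq
    have hbool : ∀ u v w' : Bool, ¬ u = w' → ¬ v = w' → u = v := by decide
    refine ⟨sq.hz, w.ha, geo.bS, (b13_ne23 w.h2).symm, ?_, (b13_ne13 w.h3).symm, ?_, ?_,
      (rw_empty C geo w).2⟩
    · intro h
      have h3 := geo.bz
      have h : g.1.1 = g.2.1 := h
      rw [← h] at h3
      exact lt_irrefl _ h3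
    · exact hbool _ _ _ hf sq.fz
    · exact hbool _ _ _ sq.fb sq.fz
  calc R.card = R1.card + R2.card := hsplit
    _ ≤ 2 * ∑ z ∈ Z, ee S f z + L * (2 * ∑ z ∈ Z, ee S f z) := Nat.add_le_add h1 h2
    _ = (2 + 2 * L) * ∑ z ∈ Z, ee S f z := by ring

end Pool.Agent.Lib.MP_9ff0e7_co
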