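import Pool.Agent.Lib.MP_9ff0e7_co.Q.B2

/-!
Row B6. Existence of a right witness.

Proof. min_tri with u = c, v = z and P a := 0 < D s x a z ∧ 0 < D s b c a. Closure: if P a and In c z a q then
0 < D s x q z = D s z x q by In_pos (functional D s z x · : at c D s z x c = D s x c z > 0, at z 0, at a > 0) and
0 < D s b c q by In_pos (at c 0, at z > 0 (g.dbcz), at a > 0).
-/

set_option autoImplicit false
open scoped Classical

namespace Pool.Agent.Lib.MP_9ff0e7_co

variable {s ε h0 : ℝ} {S Z : Finset Pt}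

theorem rw_exists (C : Cx s ε h0 S Z) {x z b c : Pt} (g : Geo s ε S x z b c) {q0 : Pt}
    (hq : q0 ∈ S) (h1 : D s c z q0 < 0) (h2 : 0 < D s x q0 z) (h3 : 0 < D s b c q0) :
    ∃ a, RWit s S x z b c a := by
  obtain ⟨a, ha, ⟨p1, p2⟩, hneg, hemp⟩ := min_tri C.gp C.s0 hq h1
    (fun a => 0 < D s x a z ∧ 0 < D s b c a) ⟨h2, h3⟩ (by
      rintro a q ⟨q1, q2⟩ hin
      have e1 : D s z x c = D s x c z := D_cyc _ _ _ _
      have e2 : D s z x a = D s x a z := D_cyc _ _ _ _
      have e3 : D s z x q = D s x q z := D_cyc _ _ _ _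
      have e4 : D s z x z = 0 := D_aba _ _ _
      have e5 : D s b c c = 0 := D_abb _ _ _
      have k1 := g.dxcz
      have k2 := g.dbcz
      refine ⟨?_, ?_⟩
      · rw [← e3]
        exact In_pos hin (by rw [e1]; exact k1.le) (by rw [e4]) (by rw [e2]; exact q1.le)
          (Or.inl (by rw [e1]; exact k1))
      · exact In_pos hin (by rw [e5]) k2.le q2.le (Or.inr (Or.inl k2)))
  exact ⟨a, ha, hneg, p1, p2, hemp⟩

end Pool.Agent.Lib.MP_9ff0e7_co
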