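import Pool.Agent.Lib.MP_9ff0e7_co.Q.B3
import Pool.Agent.Lib.MP_9ff0e7_co.Q.B6
import Pool.Agent.Lib.MP_9ff0e7_co.Q.B11
import Pool.Agent.Lib.MP_9ff0e7_co.Q.B12
import Pool.Agent.Lib.MP_9ff0e7_co.Q.B13

/-!
Row B14. Number of bad squares.

Proof. The bad squares are contained in the union of the sets of rows B12 and B13: for a bad g take q from bad_split (Sq.geo C);
if D s x b q < 0 use lw_exists, otherwise rw_exists. card_union_le and bad_left, bad_right.
-/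

set_option autoImplicit false
open scoped Classical

namespace Pool.Agent.Lib.MP_9ff0e7_co

variable {s ε h0 : ℝ} {S Z : Finset Pt}

theorem bad_count (C : Cx s ε h0 S Z) (f : Pt → Bool) (L : ℕ) :
    ((SQ s ε h0 f S Z L).filter (fun g => Bad s S g.1.2 g.1.1 g.2.1 g.2.2)).card ≤
      (6 + 2 * L) * ∑ z ∈ Z, ee S f z := by
  have hsub : (SQ s ε h0 f S Z L).filter (fun g => Bad s S g.1.2 g.1.1 g.2.1 g.2.2) ⊆
      (SQ s ε h0 f S Z L).filter (fun g => ∃ a, LWit s ε S g.1.2 g.1.1 g.2.1 g.2.2 a) ∪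
      (SQ s ε h0 f S Z L).filter (fun g => ∃ a, RWit s S g.1.2 g.1.1 g.2.1 g.2.2 a) := by
    intro g hg
    obtain ⟨hg1, hg2⟩ := Finset.mem_filter.1 hg
    have hsq := (Finset.mem_filter.1 hg1).2
    have geo := Sq.geo C hsq
    obtain ⟨q, hq, h1, h2, h3⟩ := bad_split C geo hg2
    rcases h3 with h3 | h3
    · exact Finset.mem_union_left _ (Finset.mem_filter.2 ⟨hg1, lw_exists C geo hq h3 h1 h2⟩)
    · exact Finset.mem_union_right _ (Finset.mem_filter.2 ⟨hg1, rw_exists C geo hq h3 h1 h2⟩)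
  have h1 := Finset.card_le_card hsub
  have h2 := Finset.card_union_le
    ((SQ s ε h0 f S Z L).filter (fun g => ∃ a, LWit s ε S g.1.2 g.1.1 g.2.1 g.2.2 a))
    ((SQ s ε h0 f S Z L).filter (fun g => ∃ a, RWit s S g.1.2 g.1.1 g.2.1 g.2.2 a))
  have h3 := bad_left C f L
  have h4 := bad_right C f L
  have h5 : (6 + 2 * L) * ∑ z ∈ Z, ee S f z = 4 * ∑ z ∈ Z, ee S f z
      + (2 + 2 * L) * ∑ z ∈ Z, ee S f z := by ring
  rw [h5]
  omega

end Pool.Agent.Lib.MP_9ff0e7_co
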