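import Pool.Agent.Lib.MP_9ff0e7_co.Q.Defs

/-!
Row B2. A minimal triangle on the negative side of the line `u v`.

Proof. A = S.filter (fun a => P a ∧ D s u v a < 0) is nonempty (q0). Choose a in A with D s u v a maximal
(Finset.exists_max_image). If q is in S with In u v a q, then P q by hP. With the sign t = -s : 0 < D t u v a, so
In.pos gives 0 < D t u v q, 0 < D t v a q, 0 < D t a u q. By baryS : D t u v a = D t q v a + D t u q a + D t u v q, where
D t q v a = D t v a q > 0 and D t u q a = D t a u q > 0 (D_cyc). So 0 < D t u v q < D t u v a, i.e.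
D s u v a < D s u v q < 0 (D_neg), so q is in A with a larger value, contradiction.
-/

set_option autoImplicit false
open scoped Classical

namespace Pool.Agent.Lib.MP_9ff0e7_co

theorem min_tri {S : Finset Pt} (hS : GP S) {s : ℝ} (hs : s ≠ 0) {u v q0 : Pt}
    (hq0 : q0 ∈ S) (hneg : D s u v q0 < 0) (P : Pt → Prop) (hP0 : P q0)
    (hP : ∀ a q : Pt, P a → In u v a q → P q) :
    ∃ a ∈ S, P a ∧ D s u v a < 0 ∧ ∀ q ∈ S, ¬ In u v a q := by
  have hne : (S.filter (fun a => P a ∧ D s u v a < 0)).Nonempty :=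
    ⟨q0, Finset.mem_filter.2 ⟨hq0, hP0, hneg⟩⟩
  obtain ⟨a, ha, hmax⟩ := Finset.exists_max_image _ (fun a => D s u v a) hne
  obtain ⟨haS, hPa, hna⟩ := Finset.mem_filter.1 ha
  refine ⟨a, haS, hPa, hna, ?_⟩
  intro q hq hin
  have e0 : D (-s) u v a = - D s u v a := D_neg _ _ _ _
  have e1 : D (-s) u v q = - D s u v q := D_neg _ _ _ _
  have hpos : 0 < D (-s) u v a := by rw [e0]; linarith
  obtain ⟨k1, k2, k3⟩ := hin.pos hpos
  have hb := baryS (-s) u v a q
  have f1 : D (-s) q v a = D (-s) v a q := D_cyc _ _ _ _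
  have f2 : D (-s) u q a = D (-s) a u q := (D_cyc _ _ _ _).symm
  rw [f1, f2] at hb
  have h1 : D s u v q < 0 := by linarith
  have h2 := hmax q (Finset.mem_filter.2 ⟨hq, hP a q hPa hin, h1⟩)
  linarith

end Pool.Agent.Lib.MP_9ff0e7_co
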