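import Pool.Agent.Lib.MP_9ff0e7_co.Q.B2

/-!
Row B3. Existence of a left witness.

Proof. Case 1: there is y with Par (-s) ε S x b y and 0 < D s b c y. Take a = y. h1: 0 < D (-s) x b y, so D s x b y < 0.
h2 : b, y, z are in Low (Ht x) (b : Ht b < Ht z < Ht x; y : first component of Par; z : g.pb.1), 0 < D s x y b and
0 < D s x b z, so 0 < D s x y z by low_trans. h3 : assumption. emp : Par_empty (with the sign -s; b in Low (Ht x)).
cond : Or.inr (Or.inl ..).
Case 2: otherwise. Use min_tri with u = x, v = b and P a := 0 < D s x a z ∧ 0 < D s b c a. P q0 holds. Closure: if P a and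
In x b a q then 0 < D s x q z and 0 < D s b c q by In_pos: D s x q z = D s z x q (D_cyc), the functional D s z x · is 0 at x,
positive at b (g.dxbz) and at a; the functional D s b c · is positive at x (D s b c x = D s x b c), 0 at b (D_aba) and
positive at a. This gives a with all conditions except `cond`. cond: if no y exists, Or.inl. If y exists, then
D s b c y is not 0 by general position: b ≠ y, c ≠ y, b ≠ c (D s x b y < 0 < D s x b c), y in S; it is not positive
(not case 1), so it is negative: Or.inr (Or.inr ..).
-/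

set_option autoImplicit false
open scoped Classical

namespace Pool.Agent.Lib.MP_9ff0e7_co

variable {s ε h0 : ℝ} {S Z : Finset Pt}

theorem lw_exists (C : Cx s ε h0 S Z) {x z b c : Pt} (g : Geo s ε S x z b c) {q0 : Pt}
    (hq : q0 ∈ S) (h1 : D s x b q0 < 0) (h2 : 0 < D s x q0 z) (h3 : 0 < D s b c q0) :
    ∃ a, LWit s ε S x z b c a := by
  have hs := C.s0
  have bx : Ht ε b < Ht ε x := lt_trans g.bz g.zx
  have hbL : b ∈ Low ε S (Ht ε x) := mem_Low.2 ⟨g.bS, bx⟩
  have hzL : z ∈ Low ε S (Ht ε x) := mem_Low.2 ⟨g.zS, g.zx⟩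
  have hbcx : D s b c x = D s x b c := by unfold D; ring
  by_cases hy : ∃ y, Par (-s) ε S x b y ∧ 0 < D s b c y
  · obtain ⟨y, hP, hy2⟩ := hy
    have hn : D s x b y < 0 := by
      have e : D (-s) x b y = - D s x b y := D_neg _ _ _ _
      have := hP.2.1
      rw [e] at this; linarith
    have hyb : 0 < D s x y b := by
      have e : D s x y b = - D s x b y := D_swap' _ _ _ _
      rw [e]; linarith
    exact ⟨y, (mem_Low.1 hP.1).1, hn, low_trans hP.1 hbL hzL hyb g.dxbz, hy2,
      Par_empty hbL hP, Or.inr (Or.inl hP)⟩
  · push Not at hy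
    obtain ⟨a, ha, ⟨p1, p2⟩, p3, p4⟩ := min_tri C.gp hs hq h1
      (fun a => 0 < D s x a z ∧ 0 < D s b c a) ⟨h2, h3⟩ (by
        rintro a q ⟨a1, a2⟩ hin
        refine ⟨?_, ?_⟩
        · have e1 : D s x q z = D s z x q := by unfold D; ring
          have e2 : D s z x b = D s x b z := by unfold D; ring
          have e3 : D s z x a = D s x a z := by unfold D; ring
          have hb := g.dxbz
          rw [e1]
          exact In_pos hin (by rw [D_abb]) (by rw [e2]; exact hb.le) (by rw [e3]; exact a1.le)
            (Or.inr (Or.inl (by rw [e2]; exact hb)))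
        · have hb := g.dxbc
          exact In_pos hin (by rw [hbcx]; exact hb.le) (by rw [D_aba]) a2.le
            (Or.inr (Or.inr a2)))
    refine ⟨a, ha, p3, p1, p2, p4, ?_⟩
    by_cases hex : ∃ y, Par (-s) ε S x b y
    · obtain ⟨y, hP⟩ := hex
      right; right
      refine ⟨y, hP, ?_⟩
      have hn : D s x b y < 0 := by
        have e : D (-s) x b y = - D s x b y := D_neg _ _ _ _
        have := hP.2.1
        rw [e] at this; linarith
      have hbc : b ≠ c := D_pos_ne2 g.dxbc
      have hby : b ≠ y := by
        rintro rfl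
        have : D s x b b = 0 := D_abb _ _ _
        linarith
      have hcy : c ≠ y := by
        rintro rfl
        have := g.dxbc
        linarith
      rcases D_ne' C.gp hs g.bS g.cS (mem_Low.1 hP.1).1 hbc hby hcy with h | h
      · exact h
      · exact absurd h (not_lt.2 (hy y hP))
    · exact Or.inl hex

end Pool.Agent.Lib.MP_9ff0e7_co
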