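import Pool.Agent.Lib.MP_9ff0e7_co.Q.Defs

/-!
Row C1. Basic facts on configurations.

`mono`: restrict all fields. `swap`: G.image Prod.swap; every field of the swapped configuration is a field of h
(use Finset.mem_image; for g = Prod.swap g0 simp; the pair of conditions in `emp` is exchanged, and so are the four
inequalities q ≠ ..).
`uniq`. [..] = D s. Let g.1 = g'.1 = (u, v), g.2 = (b, c), g'.2 = (b', c').
 Case b = b'. Suppose c ≠ c'. c' is in S (WS, m22), c' ≠ u, v (c' in W, u, v in V, disjoint), c' ≠ b (colours: f b = l,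
 f c' = !l), c' ≠ c. 0 < [u v c'] by p2 for g'. So emp for g and q = c' gives not 0 < [b c c'], and [b c c'] ≠ 0 (D_ne'), so
 [b c c'] < 0. Exchanging roles: [b c' c] < 0. But [b c' c] = -[b c c'] (D_swap'). Contradiction. So c = c' and g = g'.
 Case c = c'. Suppose b ≠ b'. In the same way [b c b'] < 0 and [b' c b] < 0 (q = b' in emp for g with p1 for g'), but
 [b' c b] = -[b c b'] (cyc and swap). Contradiction.
`neg_of`: for g, g' with the same first segment and g ≠ g': the endpoints of g'.2 are strictly on the negative side of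
 g.2: g'.2.1 ≠ g.2.1 and g'.2.2 ≠ g.2.2 by uniq, other distinctness by colours, then emp for g with p1, p2 of g' and D_ne'.
-/

set_option autoImplicit false
open scoped Classical

namespace Pool.Agent.Lib.MP_9ff0e7_co

variable {s : ℝ} {S V W : Finset Pt} {f : Pt → Bool} {k l : Bool} {G : Finset (Seg × Seg)}

theorem Conf.mono (h : Conf s S V W f k l G) {G' : Finset (Seg × Seg)} (hG : G' ⊆ G) :
    Conf s S V W f k l G' where
  gp := h.gp
  s0 := h.s0
  VS := h.VS
  WS := h.WS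
  dis := h.dis
  m11 := fun g hg => h.m11 g (hG hg)
  m12 := fun g hg => h.m12 g (hG hg)
  m21 := fun g hg => h.m21 g (hG hg)
  m22 := fun g hg => h.m22 g (hG hg)
  c11 := fun g hg => h.c11 g (hG hg)
  c12 := fun g hg => h.c12 g (hG hg)
  c21 := fun g hg => h.c21 g (hG hg)
  c22 := fun g hg => h.c22 g (hG hg)
  p1 := fun g hg => h.p1 g (hG hg)
  p2 := fun g hg => h.p2 g (hG hg)
  p3 := fun g hg => h.p3 g (hG hg)
  p4 := fun g hg => h.p4 g (hG hg)
  emp := fun g hg => h.emp g (hG hg)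

theorem c1_image {P : Seg × Seg → Prop} (h : ∀ g ∈ G, P (Prod.swap g)) :
    ∀ g ∈ G.image Prod.swap, P g := by
  intro g hg
  obtain ⟨g0, h0, rfl⟩ := Finset.mem_image.1 hg
  exact h g0 h0

theorem Conf.swap (h : Conf s S V W f k l G) : Conf s S W V f l k (G.image Prod.swap) where
  gp := h.gp
  s0 := h.s0
  VS := h.WS
  WS := h.VS
  dis := h.dis.symm
  m11 := c1_image fun g hg => h.m21 g hg
  m12 := c1_image fun g hg => h.m22 g hg
  m21 := c1_image fun g hg => h.m11 g hg
  m22 := c1_image fun g hg => h.m12 g hg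
  c11 := c1_image fun g hg => h.c21 g hg
  c12 := c1_image fun g hg => h.c22 g hg
  c21 := c1_image fun g hg => h.c11 g hg
  c22 := c1_image fun g hg => h.c12 g hg
  p1 := c1_image fun g hg => h.p3 g hg
  p2 := c1_image fun g hg => h.p4 g hg
  p3 := c1_image fun g hg => h.p1 g hg
  p4 := c1_image fun g hg => h.p2 g hg
  emp := c1_image fun g hg q hq h1 h2 h3 h4 hh => h.emp g hg q hq h3 h4 h1 h2 ⟨hh.2, hh.1⟩

theorem c1_neg (h : Conf s S V W f k l G) {g : Seg × Seg} (hg : g ∈ G) {q : Pt} (hq : q ∈ W)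
    (h1 : q ≠ g.2.1) (h2 : q ≠ g.2.2) (h3 : 0 < D s g.1.1 g.1.2 q) : D s g.2.1 g.2.2 q < 0 := by
  have hne : g.2.1 ≠ g.2.2 := by
    intro he
    have e1 := h.c21 g hg
    have e2 := h.c22 g hg
    rw [he, e2] at e1
    cases l <;> simp at e1
  have hd : ∀ v ∈ V, q ≠ v := by
    rintro v hv rfl
    exact (Finset.disjoint_left.1 h.dis) hv hq
  rcases D_ne' h.gp h.s0 (h.WS (h.m21 g hg)) (h.WS (h.m22 g hg)) (h.WS hq) hne h1.symm h2.symm
    with h4 | h4
  · exact h4
  · exact absurd ⟨h3, h4⟩ (h.emp g hg q (h.WS hq) (hd _ (h.m11 g hg)) (hd _ (h.m12 g hg)) h1 h2)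

theorem Conf.uniq (h : Conf s S V W f k l G) {g g' : Seg × Seg} (hg : g ∈ G) (hg' : g' ∈ G)
    (he : g.1 = g'.1) (hh : g.2.1 = g'.2.1 ∨ g.2.2 = g'.2.2) : g = g' := by
  have hcol : ∀ g ∈ G, ∀ g' ∈ G, g.2.1 ≠ g'.2.2 := by
    intro g hg g' hg' he
    have e1 := h.c21 g hg
    have e2 := h.c22 g' hg'
    rw [he, e2] at e1
    cases l <;> simp at e1
  rcases hh with hh | hh
  · by_cases hc : g.2.2 = g'.2.2
    · exact Prod.ext he (Prod.ext hh hc)
    · exfalso
      have k1 : D s g.2.1 g.2.2 g'.2.2 < 0 :=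
        c1_neg h hg (h.m22 g' hg') (hcol g hg g' hg').symm (Ne.symm hc)
          (by rw [he]; exact h.p2 g' hg')
      have k2 : D s g'.2.1 g'.2.2 g.2.2 < 0 :=
        c1_neg h hg' (h.m22 g hg) (hcol g' hg' g hg).symm hc
          (by rw [← he]; exact h.p2 g hg)
      rw [← hh, D_swap'] at k2
      linarith
  · by_cases hc : g.2.1 = g'.2.1
    · exact Prod.ext he (Prod.ext hc hh)
    · exfalso
      have k1 : D s g.2.1 g.2.2 g'.2.1 < 0 :=
        c1_neg h hg (h.m21 g' hg') (Ne.symm hc) (hcol g' hg' g hg)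
          (by rw [he]; exact h.p1 g' hg')
      have k2 : D s g'.2.1 g'.2.2 g.2.1 < 0 :=
        c1_neg h hg' (h.m21 g hg) hc (hcol g hg g' hg')
          (by rw [← he]; exact h.p1 g hg)
      rw [← hh] at k2
      have e : D s g'.2.1 g.2.2 g.2.1 = - D s g.2.1 g.2.2 g'.2.1 := by unfold D; ring
      rw [e] at k2
      linarith

theorem Conf.neg_of (h : Conf s S V W f k l G) {g g' : Seg × Seg} (hg : g ∈ G) (hg' : g' ∈ G)
    (he : g.1 = g'.1) (hne : g ≠ g') :
    D s g.2.1 g.2.2 g'.2.1 < 0 ∧ D s g.2.1 g.2.2 g'.2.2 < 0 := by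
  have hcol : ∀ g ∈ G, ∀ g' ∈ G, g.2.1 ≠ g'.2.2 := by
    intro g hg g' hg' he
    have e1 := h.c21 g hg
    have e2 := h.c22 g' hg'
    rw [he, e2] at e1
    cases l <;> simp at e1
  refine ⟨?_, ?_⟩
  · exact c1_neg h hg (h.m21 g' hg') (fun e => hne (h.uniq hg hg' he (Or.inl e.symm)))
      (hcol g' hg' g hg) (by rw [he]; exact h.p1 g' hg')
  · exact c1_neg h hg (h.m22 g' hg') (hcol g hg g' hg').symm
      (fun e => hne (h.uniq hg hg' he (Or.inr e.symm))) (by rw [he]; exact h.p2 g' hg')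

end Pool.Agent.Lib.MP_9ff0e7_co
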