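import Pool.Agent.Lib.MP_9ff0e7_co.Q.C1

/-!
Row C2. Crossing second segments: each one straddles the line of the first segment of the other.

Proof. g = ((u,v),(b,c)), g' = ((u',v'),(b',c')), [..] = D s. Let l, m be the parameters of Crs:
(1-l) b + l c = (1-m) b' + m c' =: M, 0 < l, m < 1. By D_aff: [b c M] = (1-l)[b c b] + l [b c c] = 0, so
(1-m)[b c b'] + m [b c c'] = 0 (*).
b ≠ b': if b = b' then c ≠ c' (g.2 ≠ g'.2), [b c b'] = 0, so [b c c'] = 0, but b, c, c' are different
(b ≠ c, b ≠ c' by colours), contradiction with D_ne'. c ≠ c' in the same way. b ≠ c', c ≠ b' by colours.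
So [b c b'], [b c c'] ≠ 0 and by (*) they have opposite signs. Case [b c b'] > 0: b' is in S and different from u, v (V, W
disjoint), b, c. emp for g with q = b' gives not 0 < [u v b'], so [u v b'] < 0 (D_ne'; u ≠ v by colours). By D_aff
0 < (1-l)[u v b] + l [u v c] = [u v M] = (1-m)[u v b'] + m [u v c'], so [u v c'] > 0. The product is negative.
Case [b c c'] > 0: the same with q = c'.
-/

set_option autoImplicit false
open scoped Classical

namespace Pool.Agent.Lib.MP_9ff0e7_co

variable {s : ℝ} {S V W : Finset Pt} {f : Pt → Bool} {k l : Bool} {G : Finset (Seg × Seg)}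

theorem c2_aux {s : ℝ} {S V W : Finset Pt} {k l : Bool} {f : Pt → Bool}
    {G : Finset (Seg × Seg)} (h : Conf s S V W f k l G) {u v b c : Pt}
    (hg : ((u, v), (b, c)) ∈ G) {q : Pt} (hq : q ∈ W) (qb : q ≠ b) (qc : q ≠ c)
    (hp : 0 < D s b c q) : D s u v q < 0 := by
  have hu : u ∈ V := h.m11 _ hg
  have hv : v ∈ V := h.m12 _ hg
  have qu : q ≠ u := fun e => (Finset.disjoint_left.1 h.dis hu) (e ▸ hq)
  have qv : q ≠ v := fun e => (Finset.disjoint_left.1 h.dis hv) (e ▸ hq)
  have huv : u ≠ v := by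
    intro e
    have h1 : f u = k := h.c11 _ hg
    have h2 : f v = !k := h.c12 _ hg
    rw [← e, h1] at h2
    cases k <;> simp at h2
  have := h.emp _ hg q (h.WS hq) qu qv qb qc
  rcases D_ne' h.gp h.s0 (h.VS hu) (h.VS hv) (h.WS hq) huv qu.symm qv.symm with h3 | h3
  · exact h3
  · exact absurd ⟨h3, hp⟩ this

theorem Conf.straddle (h : Conf s S V W f k l G) {g g' : Seg × Seg} (hg : g ∈ G) (hg' : g' ∈ G)
    (hne : g.2 ≠ g'.2) (hc : Crs g.2 g'.2) :
    D s g.1.1 g.1.2 g'.2.1 * D s g.1.1 g.1.2 g'.2.2 < 0 := by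
  obtain ⟨⟨u, v⟩, ⟨b, c⟩⟩ := g
  obtain ⟨⟨u', v'⟩, ⟨b', c'⟩⟩ := g'
  simp only at hc hne ⊢
  obtain ⟨x, y, hx0, hx1, hy0, hy1, hM⟩ := hc
  simp only at hM
  have hb : b ∈ W := h.m21 _ hg
  have hcW : c ∈ W := h.m22 _ hg
  have hb' : b' ∈ W := h.m21 _ hg'
  have hc' : c' ∈ W := h.m22 _ hg'
  have fb : f b = l := h.c21 _ hg
  have fc : f c = !l := h.c22 _ hg
  have fb' : f b' = l := h.c21 _ hg'
  have fc' : f c' = !l := h.c22 _ hg'
  have colne : ∀ {p q : Pt}, f p = l → f q = !l → p ≠ q := by
    intro p q h1 h2 e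
    rw [e, h2] at h1
    cases l <;> simp at h1
  have bc : b ≠ c := colne fb fc
  have bc' : b ≠ c' := colne fb fc'
  have b'c : b' ≠ c := colne fb' fc
  have star : (1 - y) * D s b c b' + y * D s b c c' = 0 := by
    have e1 := D_aff s x b c b c
    have e2 := D_aff s y b c b' c'
    rw [hM, e2] at e1
    have e3 : D s b c b = 0 := D_aba _ _ _
    have e4 : D s b c c = 0 := D_abb _ _ _
    rw [e3, e4] at e1
    linarith
  have hbb : b ≠ b' := by
    rintro rfl
    have hcc : c ≠ c' := by
      rintro rfl; exact hne rfl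
    have e3 : D s b c b = 0 := D_aba _ _ _
    rw [e3] at star
    have e4 : D s b c c' = 0 := by
      have : y * D s b c c' = 0 := by linarith
      rcases mul_eq_zero.1 this with h1 | h1
      · exact absurd h1 hy0.ne'
      · exact h1
    rcases D_ne' h.gp h.s0 (h.WS hb) (h.WS hcW) (h.WS hc') bc bc' hcc with h1 | h1 <;> linarith
  have hcc : c ≠ c' := by
    rintro rfl
    have e3 : D s b c c = 0 := D_abb _ _ _
    rw [e3] at star
    have e4 : D s b c b' = 0 := by
      have : (1 - y) * D s b c b' = 0 := by linarith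
      rcases mul_eq_zero.1 this with h1 | h1
      · exact absurd h1 (by linarith)
      · exact h1
    rcases D_ne' h.gp h.s0 (h.WS hb) (h.WS hcW) (h.WS hb') bc hbb b'c.symm with h1 | h1 <;> linarith
  have hpos : 0 < (1 - y) * D s u v b' + y * D s u v c' := by
    have e1 := D_aff s x u v b c
    have e2 := D_aff s y u v b' c'
    rw [hM, e2] at e1
    rw [e1]
    have k1 : 0 < D s u v b := h.p1 _ hg
    have k2 : 0 < D s u v c := h.p2 _ hg
    have := mul_pos (sub_pos.2 hx1) k1
    have := mul_pos hx0 k2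
    linarith
  have hy1' : 0 < 1 - y := sub_pos.2 hy1
  rcases D_ne' h.gp h.s0 (h.WS hb) (h.WS hcW) (h.WS hb') bc hbb b'c.symm with h1 | h1
  · -- then D s b c c' positive
    have h2 : 0 < D s b c c' := by
      have : 0 < y * D s b c c' := by
        have := mul_pos hy1' (neg_pos.2 h1)
        linarith
      exact (mul_pos_iff_of_pos_left hy0).1 this
    have h3 := c2_aux h hg hc' bc'.symm hcc.symm h2
    have h4 : 0 < D s u v b' := by
      have : 0 < (1 - y) * D s u v b' := by
        have := mul_pos hy0 (neg_pos.2 h3)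
        linarith
      exact (mul_pos_iff_of_pos_left hy1').1 this
    exact mul_neg_of_pos_of_neg h4 h3
  · have h3 := c2_aux h hg hb' hbb.symm b'c h1
    have h4 : 0 < D s u v c' := by
      have : 0 < y * D s u v c' := by
        have := mul_pos hy1' (neg_pos.2 h3)
        linarith
      exact (mul_pos_iff_of_pos_left hy0).1 this
    exact mul_neg_of_neg_of_pos h3 h4

end Pool.Agent.Lib.MP_9ff0e7_co
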