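import Pool.Agent.Lib.MP_9ff0e7_co.Q.C1

/-!
Row C3. At most two partners of `e` straddle a given line.

Proof. Let X be the filter set, P = X.filter (0 < D s e'.1 e'.2 g.2.1) and N = X.filter (D s e'.1 e'.2 g.2.1 < 0). For g in X
the value D s e'.1 e'.2 g.2.1 is not 0, so X = P ∪ N. Each of P, N has at most one element: let g1 ≠ g2 be both in P (or both
in N), g1.2 = (b1,c1), g2.2 = (b2,c2), φ(q) = D s e'.1 e'.2 q. The lemma aff4 (with t = s, u = e'.1, v = e'.2 and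
the points b1, c1, b2, c2) says
φ(b1) [c1 b2 c2] - φ(c1) [b1 b2 c2] + φ(b2) [b1 c1 c2] - φ(c2) [b1 c1 b2] = 0, [..] = D s.
By Conf.neg_of (both orders): [b1 c1 b2] < 0, [b1 c1 c2] < 0, [b2 c2 b1] < 0, [b2 c2 c1] < 0, and
[c1 b2 c2] = [b2 c2 c1] < 0, [b1 b2 c2] = [b2 c2 b1] < 0 (D_cyc). In P : φ(b1) > 0, φ(c1) < 0, φ(b2) > 0, φ(c2) < 0, all four
terms are negative. In N all four are positive. Contradiction.
-/

set_option autoImplicit false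
open scoped Classical

namespace Pool.Agent.Lib.MP_9ff0e7_co

variable {s : ℝ} {S V W : Finset Pt} {f : Pt → Bool} {k l : Bool} {G : Finset (Seg × Seg)}

theorem c3_key (h : Conf s S V W f k l G) {e e' : Seg} {g1 g2 : Seg × Seg}
    (h1 : g1 ∈ G) (h1e : g1.1 = e) (h2 : g2 ∈ G) (h2e : g2.1 = e) (hne : g1 ≠ g2)
    (x1 : D s e'.1 e'.2 g1.2.1 * D s e'.1 e'.2 g1.2.2 < 0)
    (x2 : D s e'.1 e'.2 g2.2.1 * D s e'.1 e'.2 g2.2.2 < 0) :
    ¬ (0 < D s e'.1 e'.2 g1.2.1 ∧ 0 < D s e'.1 e'.2 g2.2.1) ∧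
      ¬ (D s e'.1 e'.2 g1.2.1 < 0 ∧ D s e'.1 e'.2 g2.2.1 < 0) := by
  obtain ⟨n1, n2⟩ := h.neg_of h1 h2 (h1e.trans h2e.symm) hne
  obtain ⟨n3, n4⟩ := h.neg_of h2 h1 (h2e.trans h1e.symm) hne.symm
  have ha := aff4 s s e'.1 e'.2 g1.2.1 g1.2.2 g2.2.1 g2.2.2
  have e1 : D s g1.2.2 g2.2.1 g2.2.2 = D s g2.2.1 g2.2.2 g1.2.2 := D_cyc _ _ _ _
  have e2 : D s g1.2.1 g2.2.1 g2.2.2 = D s g2.2.1 g2.2.2 g1.2.1 := D_cyc _ _ _ _
  rw [e1, e2] at ha
  set b1 := D s e'.1 e'.2 g1.2.1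
  set c1 := D s e'.1 e'.2 g1.2.2
  set b2 := D s e'.1 e'.2 g2.2.1
  set c2 := D s e'.1 e'.2 g2.2.2
  constructor
  · rintro ⟨p1, p2⟩
    have q1 : c1 < 0 := by
      by_contra hc
      have := mul_nonneg p1.le (not_lt.1 hc)
      linarith
    have q2 : c2 < 0 := by
      by_contra hc
      have := mul_nonneg p2.le (not_lt.1 hc)
      linarith
    have t1 := mul_neg_of_pos_of_neg p1 n4
    have t2 := mul_pos_of_neg_of_neg q1 n3
    have t3 := mul_neg_of_pos_of_neg p2 n2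
    have t4 := mul_pos_of_neg_of_neg q2 n1
    linarith
  · rintro ⟨p1, p2⟩
    have q1 : 0 < c1 := by
      by_contra hc
      have := mul_nonneg_of_nonpos_of_nonpos p1.le (not_lt.1 hc)
      linarith
    have q2 : 0 < c2 := by
      by_contra hc
      have := mul_nonneg_of_nonpos_of_nonpos p2.le (not_lt.1 hc)
      linarith
    have t1 := mul_pos_of_neg_of_neg p1 n4
    have t2 := mul_neg_of_pos_of_neg q1 n3
    have t3 := mul_pos_of_neg_of_neg p2 n2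
    have t4 := mul_neg_of_pos_of_neg q2 n1
    linarith

theorem Conf.two (h : Conf s S V W f k l G) (e e' : Seg) :
    ((at1 G e).filter (fun g => D s e'.1 e'.2 g.2.1 * D s e'.1 e'.2 g.2.2 < 0)).card ≤ 2 := by
  set X := (at1 G e).filter (fun g => D s e'.1 e'.2 g.2.1 * D s e'.1 e'.2 g.2.2 < 0) with hX
  have hsub : X ⊆ X.filter (fun g => 0 < D s e'.1 e'.2 g.2.1) ∪
      X.filter (fun g => D s e'.1 e'.2 g.2.1 < 0) := by
    intro g hg
    have hg2 := (Finset.mem_filter.1 hg).2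
    refine Finset.mem_union.2 ?_
    rcases lt_trichotomy (D s e'.1 e'.2 g.2.1) 0 with h1 | h1 | h1
    · exact Or.inr (Finset.mem_filter.2 ⟨hg, h1⟩)
    · rw [h1, zero_mul] at hg2
      exact absurd hg2 (lt_irrefl _)
    · exact Or.inl (Finset.mem_filter.2 ⟨hg, h1⟩)
  have hmem : ∀ g ∈ X, g ∈ G ∧ g.1 = e ∧ D s e'.1 e'.2 g.2.1 * D s e'.1 e'.2 g.2.2 < 0 := by
    intro g hg
    obtain ⟨h1, h2⟩ := Finset.mem_filter.1 hg
    unfold at1 at h1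
    obtain ⟨h3, h4⟩ := Finset.mem_filter.1 h1
    exact ⟨h3, h4, h2⟩
  have hP : (X.filter (fun g => 0 < D s e'.1 e'.2 g.2.1)).card ≤ 1 := by
    rw [Finset.card_le_one]
    intro g1 hg1 g2 hg2
    by_contra hne
    obtain ⟨k1, k2⟩ := Finset.mem_filter.1 hg1
    obtain ⟨k3, k4⟩ := Finset.mem_filter.1 hg2
    obtain ⟨a1, a2, a3⟩ := hmem g1 k1
    obtain ⟨b1, b2, b3⟩ := hmem g2 k3
    exact (c3_key h a1 a2 b1 b2 hne a3 b3).1 ⟨k2, k4⟩
  have hN : (X.filter (fun g => D s e'.1 e'.2 g.2.1 < 0)).card ≤ 1 := by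
    rw [Finset.card_le_one]
    intro g1 hg1 g2 hg2
    by_contra hne
    obtain ⟨k1, k2⟩ := Finset.mem_filter.1 hg1
    obtain ⟨k3, k4⟩ := Finset.mem_filter.1 hg2
    obtain ⟨a1, a2, a3⟩ := hmem g1 k1
    obtain ⟨b1, b2, b3⟩ := hmem g2 k3
    exact (c3_key h a1 a2 b1 b2 hne a3 b3).2 ⟨k2, k4⟩
  have h3 := Finset.card_le_card hsub
  have h4 := Finset.card_union_le (X.filter (fun g => 0 < D s e'.1 e'.2 g.2.1))
    (X.filter (fun g => D s e'.1 e'.2 g.2.1 < 0))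
  omega

end Pool.Agent.Lib.MP_9ff0e7_co
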