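import Pool.Agent.Lib.MP_9ff0e7_co.Q.C2
import Pool.Agent.Lib.MP_9ff0e7_co.Q.C3

/-!
Row C4. Number of pairs with crossing second segments.

Proof. Let Q be the filter set on the left, E = G.image Prod.fst. The map q ↦ (q.1.1, q.2.1) sends Q into E ×ˢ E. The
fibre over (e, e') is contained in X ×ˢ X' where X = (at1 G e).filter (the second segment straddles the line of e') and
X' = (at1 G e').filter (.. straddles the line of e): for (g, g') in Q, Conf.straddle for g, g' says that g'.2 straddles the line of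
g.1; and for g', g (Crs is symmetric: exchange l and m) that g.2 straddles the line of g'.1. By Conf.two each fibre has at most
4 elements. Finset.card_le_mul_card_image_of_maps_to, card (E ×ˢ E) = card E ^ 2.
-/

set_option autoImplicit false
open scoped Classical

namespace Pool.Agent.Lib.MP_9ff0e7_co

variable {s : ℝ} {S V W : Finset Pt} {f : Pt → Bool} {k l : Bool} {G : Finset (Seg × Seg)}

theorem Conf.crosscount (h : Conf s S V W f k l G) :
    ((G ×ˢ G).filter (fun q => q.1.2 ≠ q.2.2 ∧ Crs q.1.2 q.2.2)).card ≤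
      4 * (G.image Prod.fst).card ^ 2 := by
  have key := Finset.card_le_mul_card_image_of_maps_to
    (f := fun q : (Seg × Seg) × (Seg × Seg) => (q.1.1, q.2.1))
    (s := (G ×ˢ G).filter (fun q => q.1.2 ≠ q.2.2 ∧ Crs q.1.2 q.2.2))
    (t := (G.image Prod.fst) ×ˢ (G.image Prod.fst)) ?_ 4 ?_
  · rw [Finset.card_product] at key
    calc _ ≤ _ := key
      _ = _ := by ring
  · intro q hq
    rw [Finset.mem_filter, Finset.mem_product] at hq
    rw [Finset.mem_product]
    exact ⟨Finset.mem_image.2 ⟨q.1, hq.1.1, rfl⟩, Finset.mem_image.2 ⟨q.2, hq.1.2, rfl⟩⟩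
  · rintro ⟨e, e'⟩ -
    have hsub : (((G ×ˢ G).filter (fun q => q.1.2 ≠ q.2.2 ∧ Crs q.1.2 q.2.2)).filter
        (fun q : (Seg × Seg) × (Seg × Seg) => (q.1.1, q.2.1) = (e, e'))) ⊆
        ((at1 G e).filter (fun g => D s e'.1 e'.2 g.2.1 * D s e'.1 e'.2 g.2.2 < 0)) ×ˢ
        ((at1 G e').filter (fun g => D s e.1 e.2 g.2.1 * D s e.1 e.2 g.2.2 < 0)) := by
      intro q hq
      rw [Finset.mem_filter, Finset.mem_filter, Finset.mem_product] at hq
      obtain ⟨⟨⟨h1, h2⟩, h3, h4⟩, h5⟩ := hq
      have h6 : q.1.1 = e := congrArg Prod.fst h5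
      have h7 : q.2.1 = e' := congrArg Prod.snd h5
      have h8 : Crs q.2.2 q.1.2 := by
        obtain ⟨l, m, a1, a2, a3, a4, a5⟩ := h4
        exact ⟨m, l, a3, a4, a1, a2, a5.symm⟩
      have k1 := h.straddle h1 h2 h3 h4
      have k2 := h.straddle h2 h1 (Ne.symm h3) h8
      rw [h6] at k1
      rw [h7] at k2
      rw [Finset.mem_product, Finset.mem_filter, Finset.mem_filter, at1, at1, Finset.mem_filter,
        Finset.mem_filter]
      exact ⟨⟨⟨h1, h6⟩, k2⟩, ⟨⟨h2, h7⟩, k1⟩⟩
    refine (Finset.card_le_card hsub).trans ?_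
    rw [Finset.card_product]
    exact Nat.mul_le_mul (h.two e e') (h.two e' e)

end Pool.Agent.Lib.MP_9ff0e7_co
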