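import Pool.Agent.Lib.MP_9ff0e7_co.Q.Defs

/-!
Row C5. An order function for the rays at `u` into the negative side of the line `u c`, and the hull star lemma.

`ordL_lt`. Let d = c - u, dot(q) = (q - u)·d. Then (-D s u c a) dot(b) - (-D s u c b) dot(a) = |d|^2 D s u a b (unfold D; ring,
|d|^2 = (c.1-u.1)^2 + (c.2-u.2)^2 > 0 as u ≠ c). Divide by the positive product (-D s u c a)(-D s u c b)
(div_lt_div_iff₀).

`hull_star`. Use `star` (Star.lean) with A = J.filter (fun q => f q = f u ∧ q ≠ u), B = J.filter (fun q => f q ≠ f u ∧ q ∉ Cs) and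
g = ordL s u c. For q in A or B : q ≠ u, q ≠ c (c is in Cs and has the other colour), so D s u c q < 0 by hneg.
InjOn g A: for a ≠ b in A, D s u a b ≠ 0 (D_ne'), so by ordL_lt (for a b or b a) g a ≠ g b.
Let a, a' in A with g a < g a', no point of A and no point of B strictly between. Let q in S with In u a a' q. Then
0 < D s u a a' (ordL_lt), In.pos: 0 < D s u a q, 0 < D s a' u q, i.e. 0 < D s u q a' (D_cyc). q is in J (hisl), q ≠ u.
q is not in Cs by hext. So q ≠ c, D s u c q < 0, and g a < g q < g a' by ordL_lt. q is in A or in B according to its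
colour: contradiction.
So star gives card A <= card B + ee + 1; card A = card (J.filter (f q = f u)) - 1 (u is in J) and card B = card (J.filter (f q ≠ f u)) -
card Cs (Cs is contained in it).
-/

set_option autoImplicit false
open scoped Classical

namespace Pool.Agent.Lib.MP_9ff0e7_co

/-- order function of the rays at `u` into the negative side of the line `u c`. -/
noncomputable def ordL (s : ℝ) (u c q : Pt) : ℝ :=
  ((q.1 - u.1) * (c.1 - u.1) + (q.2 - u.2) * (c.2 - u.2)) / (- D s u c q)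

theorem ordL_lt {s : ℝ} {u c a b : Pt} (huc : u ≠ c) (ha : D s u c a < 0)
    (hb : D s u c b < 0) : ordL s u c a < ordL s u c b ↔ 0 < D s u a b := by
  have hX : 0 < - D s u c a := neg_pos.2 ha
  have hY : 0 < - D s u c b := neg_pos.2 hb
  have hd : 0 < (c.1 - u.1) ^ 2 + (c.2 - u.2) ^ 2 := by
    have h1 : c.1 - u.1 ≠ 0 ∨ c.2 - u.2 ≠ 0 := by
      by_contra hcon
      push Not at hcon
      exact huc (Prod.ext (sub_eq_zero.1 hcon.1).symm (sub_eq_zero.1 hcon.2).symm)
    rcases h1 with h1 | h1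
    · have h2 : 0 < (c.1 - u.1) ^ 2 := by positivity
      have h3 := sq_nonneg (c.2 - u.2)
      linarith
    · have h2 : 0 < (c.2 - u.2) ^ 2 := by positivity
      have h3 := sq_nonneg (c.1 - u.1)
      linarith
  have e : (- D s u c a) * ((b.1 - u.1) * (c.1 - u.1) + (b.2 - u.2) * (c.2 - u.2)) -
      (- D s u c b) * ((a.1 - u.1) * (c.1 - u.1) + (a.2 - u.2) * (c.2 - u.2)) =
      ((c.1 - u.1) ^ 2 + (c.2 - u.2) ^ 2) * D s u a b := by
    unfold D; ring
  unfold ordL
  rw [div_lt_div_iff₀ hX hY, ← mul_pos_iff_of_pos_left hd, ← e, sub_pos,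
    mul_comm ((a.1 - u.1) * (c.1 - u.1) + (a.2 - u.2) * (c.2 - u.2)),
    mul_comm ((b.1 - u.1) * (c.1 - u.1) + (b.2 - u.2) * (c.2 - u.2))]

theorem hull_star {S : Finset Pt} (hS : GP S) (f : Pt → Bool) {s : ℝ} (hs : s ≠ 0)
    (J : Finset Pt) (hJ : J ⊆ S)
    (hisl : ∀ a ∈ J, ∀ b ∈ J, ∀ d ∈ J, ∀ q ∈ S, In a b d q → q ∈ J)
    {u c : Pt} (hu : u ∈ J) (huc : u ≠ c)
    (hneg : ∀ q ∈ J, q ≠ u → q ≠ c → D s u c q < 0) (Cs : Finset Pt) (hC : Cs ⊆ J)
    (hcC : c ∈ Cs) (hCf : ∀ q ∈ Cs, f q ≠ f u)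
    (hext : ∀ q ∈ Cs, ∀ a ∈ J, ∀ b ∈ J, ∀ d ∈ J, ¬ In a b d q) :
    (J.filter (fun q => f q = f u)).card + Cs.card ≤
      (J.filter (fun q => f q ≠ f u)).card + ee S f u + 2 := by
  have hcJ : c ∈ J := hC hcC
  have hcf : f c ≠ f u := hCf c hcC
  set A := J.filter (fun q => f q = f u ∧ q ≠ u) with hA
  set B := J.filter (fun q => f q ≠ f u ∧ q ∉ Cs) with hB
  have hnA : ∀ q ∈ J, q ≠ u → q ∉ Cs → D s u c q < 0 := by
    intro q hq hqu hqC
    exact hneg q hq hqu (fun h => hqC (h ▸ hcC))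
  have hAm : ∀ q ∈ A, q ∈ J ∧ f q = f u ∧ q ≠ u := fun q hq => Finset.mem_filter.1 hq
  have hAC : ∀ q ∈ A, q ∉ Cs := fun q hq hqC => hCf q hqC (hAm q hq).2.1
  have hAn : ∀ q ∈ A, D s u c q < 0 := fun q hq => hnA q (hAm q hq).1 (hAm q hq).2.2 (hAC q hq)
  have key : A.card ≤ B.card + ee S f u + 1 := by
    apply star hS (hJ hu) A B (ordL s u c)
    · intro a ha
      exact ⟨hJ (hAm a ha).1, (hAm a ha).2.2, (hAm a ha).2.1⟩
    · intro a ha b hb hab
      by_contra hne
      have ha' := Finset.mem_coe.1 ha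
      have hb' := Finset.mem_coe.1 hb
      have h1 := D_ne' hS hs (hJ hu) (hJ (hAm a ha').1) (hJ (hAm b hb').1)
        (hAm a ha').2.2.symm (hAm b hb').2.2.symm hne
      rcases h1 with h1 | h1
      · have h2 : 0 < D s u b a := by
          rw [D_swap']
          linarith
        have h3 := (ordL_lt huc (hAn b hb') (hAn a ha')).2 h2
        exact absurd hab (ne_of_gt h3)
      · have h3 := (ordL_lt huc (hAn a ha') (hAn b hb')).2 h1
        exact absurd hab (ne_of_lt h3)
    · intro a ha a' ha' hlt hc hb q hq hin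
      have hD : 0 < D s u a a' := (ordL_lt huc (hAn a ha) (hAn a' ha')).1 hlt
      obtain ⟨h1, h2, h3⟩ := hin.pos hD
      have h3' : 0 < D s u q a' := by rw [D_cyc, D_cyc]; exact h3
      have hqJ : q ∈ J := hisl u hu a (hAm a ha).1 a' (hAm a' ha').1 q hq hin
      have hqC : q ∉ Cs := fun h => hext q h u hu a (hAm a ha).1 a' (hAm a' ha').1 hin
      have hqu : q ≠ u := by
        rintro rfl
        rw [D_aba] at h1
        exact lt_irrefl _ h1
      have hqn : D s u c q < 0 := hnA q hqJ hqu hqC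
      have k3 := (ordL_lt huc (hAn a ha) hqn).2 h1
      have k4 := (ordL_lt huc hqn (hAn a' ha')).2 h3'
      by_cases hf : f q = f u
      · exact hc q (Finset.mem_filter.2 ⟨hqJ, hf, hqu⟩) ⟨k3, k4⟩
      · exact hb q (Finset.mem_filter.2 ⟨hqJ, hf, hqC⟩) ⟨k3, k4⟩
  have e1 : (J.filter (fun q => f q = f u)).card = A.card + 1 := by
    have h1 : J.filter (fun q => f q = f u) = insert u A := by
      ext q
      rw [Finset.mem_insert, hA, Finset.mem_filter, Finset.mem_filter]
      constructor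
      · rintro ⟨h1, h2⟩
        by_cases hqu : q = u
        · exact Or.inl hqu
        · exact Or.inr ⟨h1, h2, hqu⟩
      · rintro (rfl | ⟨h1, h2, -⟩)
        · exact ⟨hu, rfl⟩
        · exact ⟨h1, h2⟩
    rw [h1, Finset.card_insert_of_notMem]
    intro h
    exact (hAm u h).2.2 rfl
  have e2 : (J.filter (fun q => f q ≠ f u)).card = B.card + Cs.card := by
    have h1 : J.filter (fun q => f q ≠ f u) = B ∪ Cs := by
      ext q
      rw [Finset.mem_union, hB, Finset.mem_filter, Finset.mem_filter]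
      constructor
      · rintro ⟨h1, h2⟩
        by_cases hqC : q ∈ Cs
        · exact Or.inr hqC
        · exact Or.inl ⟨h1, h2, hqC⟩
      · rintro (⟨h1, h2, -⟩ | h)
        · exact ⟨h1, h2⟩
        · exact ⟨hC h, hCf q h⟩
    rw [h1, Finset.card_union_of_disjoint]
    rw [Finset.disjoint_left]
    intro q hq hqC
    exact (Finset.mem_filter.1 hq).2.2 hqC
  omega

end Pool.Agent.Lib.MP_9ff0e7_co
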