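import Pool.Agent.Lib.MP_9ff0e7_co.Q.C1
import Pool.Agent.Lib.MP_9ff0e7_co.Q.C5

/-!
Row C6. The cap on the degrees.

Proof. A = at1 G e, β = card A. If A is empty: trivial. Let J = S.filter (fun q => 0 < D s e.1 e.2 q), Bs = A.image (g.2.1),
Cs = A.image (g.2.2). By Conf.uniq the maps g ↦ g.2.1 and g ↦ g.2.2 are injective on A, so card Bs = card Cs = β.
Bs, Cs ⊆ J by p1, p2 and are contained in W. J is an island: In_pos for the functional D s e.1 e.2 ·.
(*) For g in A, q in J, q ≠ g.2.1, q ≠ g.2.2 : D s g.2.1 g.2.2 q < 0: emp for g (q ≠ e.1, e.2 since D s e.1 e.2 q > 0 and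
D_aba, D_abb) and D_ne' (g.2.1 ≠ g.2.2 by colours).
(**) no point of Bs ∪ Cs is strictly inside a triangle of points a, b, d of J: let q = g.2.1 or g.2.2 with In a b d q. With the functional
φ = D (-s) g.2.1 g.2.2 · (= -D s ..): φ >= 0 on J by (*) (0 at g.2.1 and g.2.2), φ(q) = 0. a, b, d are pairwise different (the triangle is
nondegenerate, In gives D 1 a b d ≠ 0) and different from q (q = a would give D 1 a b q = 0), so at most one of them is in
{g.2.1, g.2.2} minus {q}, hence at least one of φ(a), φ(b), φ(d) is positive; In_pos gives φ(q) > 0, contradiction.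
For u = g.2.1 in Bs : hull_star with c = g.2.2, sign s, Cs : colours: f u = l, points of Cs have colour !l.
 card J_l + β <= card J_{!l} + ee u + 2, J_l = J.filter (f q = l).
For u = g.2.2 in Cs : hull_star with c = g.2.1, sign -s (D (-s) g.2.2 g.2.1 q = D s g.2.1 g.2.2 q), Bs:
 card J_{!l} + β <= card J_l + ee u + 2.
Sum over u in Bs and u in Cs (disjoint by colour, contained in W):
 β card J_l + β^2 + β card J_{!l} + β^2 <= β card J_{!l} + β card J_l + sum_{u in W} ee u + 4 β. Cancel.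
-/

set_option autoImplicit false
open scoped Classical

namespace Pool.Agent.Lib.MP_9ff0e7_co

variable {s : ℝ} {S V W : Finset Pt} {f : Pt → Bool} {k l : Bool} {G : Finset (Seg × Seg)}

theorem Conf.caps (h : Conf s S V W f k l G) (e : Seg) :
    2 * (at1 G e).card ^ 2 ≤ ∑ u ∈ W, ee S f u + 4 * (at1 G e).card := by
  have memA : ∀ g ∈ at1 G e, g ∈ G ∧ g.1 = e := fun g hg => Finset.mem_filter.1 hg
  have cB : ((at1 G e).image (fun g => g.2.1)).card = (at1 G e).card :=
    Finset.card_image_of_injOn fun g hg g' hg' heq =>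
      h.uniq (memA g hg).1 (memA g' hg').1 (by rw [(memA g hg).2, (memA g' hg').2]) (Or.inl heq)
  have cC : ((at1 G e).image (fun g => g.2.2)).card = (at1 G e).card :=
    Finset.card_image_of_injOn fun g hg g' hg' heq =>
      h.uniq (memA g hg).1 (memA g' hg').1 (by rw [(memA g hg).2, (memA g' hg').2]) (Or.inr heq)
  have memJ : ∀ q, q ∈ S.filter (fun q => 0 < D s e.1 e.2 q) ↔ q ∈ S ∧ 0 < D s e.1 e.2 q :=
    fun q => Finset.mem_filter
  have BJ : ∀ g ∈ at1 G e, g.2.1 ∈ S.filter (fun q => 0 < D s e.1 e.2 q) := by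
    intro g hg
    obtain ⟨h1, h2⟩ := memA g hg
    rw [memJ, ← h2]
    exact ⟨h.WS (h.m21 g h1), h.p1 g h1⟩
  have CJ : ∀ g ∈ at1 G e, g.2.2 ∈ S.filter (fun q => 0 < D s e.1 e.2 q) := by
    intro g hg
    obtain ⟨h1, h2⟩ := memA g hg
    rw [memJ, ← h2]
    exact ⟨h.WS (h.m22 g h1), h.p2 g h1⟩
  have hisl : ∀ a ∈ S.filter (fun q => 0 < D s e.1 e.2 q),
      ∀ b ∈ S.filter (fun q => 0 < D s e.1 e.2 q), ∀ d ∈ S.filter (fun q => 0 < D s e.1 e.2 q),
      ∀ q ∈ S, In a b d q → q ∈ S.filter (fun q => 0 < D s e.1 e.2 q) := by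
    intro a ha b hb d hd q hq hin
    rw [memJ] at ha hb hd ⊢
    exact ⟨hq, In_pos hin ha.2.le hb.2.le hd.2.le (Or.inl ha.2)⟩
  have hcol : ∀ g ∈ at1 G e, g.2.1 ≠ g.2.2 := by
    intro g hg heq
    obtain ⟨h1, _⟩ := memA g hg
    have k1 := h.c21 g h1
    have k2 := h.c22 g h1
    rw [heq, k2] at k1
    cases l <;> simp at k1
  have star1 : ∀ g ∈ at1 G e, ∀ q ∈ S.filter (fun q => 0 < D s e.1 e.2 q), q ≠ g.2.1 → q ≠ g.2.2 →
      D s g.2.1 g.2.2 q < 0 := by
    intro g hg q hq n1 n2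
    obtain ⟨h1, h2⟩ := memA g hg
    rw [memJ] at hq
    have e1 : q ≠ g.1.1 := by
      intro heq
      have := hq.2
      rw [← h2, heq, D_aba] at this
      exact lt_irrefl _ this
    have e2 : q ≠ g.1.2 := by
      intro heq
      have := hq.2
      rw [← h2, heq, D_abb] at this
      exact lt_irrefl _ this
    have k := h.emp g h1 q hq.1 e1 e2 n1 n2
    rcases D_ne' h.gp h.s0 (h.WS (h.m21 g h1)) (h.WS (h.m22 g h1)) hq.1 (hcol g hg) n1.symm
      n2.symm with h3 | h3
    · exact h3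
    · exact absurd ⟨by rw [h2]; exact hq.2, h3⟩ k
  have hext : ∀ g ∈ at1 G e, ∀ q, (q = g.2.1 ∨ q = g.2.2) →
      ∀ a ∈ S.filter (fun q => 0 < D s e.1 e.2 q), ∀ b ∈ S.filter (fun q => 0 < D s e.1 e.2 q),
      ∀ d ∈ S.filter (fun q => 0 < D s e.1 e.2 q), ¬ In a b d q := by
    intro g hg q hq a ha b hb d hd hin
    have nn : ∀ x ∈ S.filter (fun q => 0 < D s e.1 e.2 q),
        0 < D (-s) g.2.1 g.2.2 x ∨ x = g.2.1 ∨ x = g.2.2 := by
      intro x hx
      by_cases x1 : x = g.2.1
      · exact Or.inr (Or.inl x1)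
      by_cases x2 : x = g.2.2
      · exact Or.inr (Or.inr x2)
      left
      rw [D_neg]
      have := star1 g hg x hx x1 x2
      linarith
    have z1 : D (-s) g.2.1 g.2.2 g.2.1 = 0 := D_aba _ _ _
    have z2 : D (-s) g.2.1 g.2.2 g.2.2 = 0 := D_abb _ _ _
    have nn0 : ∀ x ∈ S.filter (fun q => 0 < D s e.1 e.2 q), 0 ≤ D (-s) g.2.1 g.2.2 x := by
      intro x hx
      rcases nn x hx with h1 | h1 | h1
      · exact h1.le
      · rw [h1, z1]
      · rw [h1, z2]
    have q0 : D (-s) g.2.1 g.2.2 q = 0 := by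
      rcases hq with h1 | h1
      · rw [h1, z1]
      · rw [h1, z2]
    have hor : 0 < D (-s) g.2.1 g.2.2 a ∨ 0 < D (-s) g.2.1 g.2.2 b ∨ 0 < D (-s) g.2.1 g.2.2 d := by
      by_contra hno
      push Not at hno
      obtain ⟨u1, u2, u3⟩ := hno
      have v1 := (nn a ha).resolve_left (not_lt.mpr u1)
      have v2 := (nn b hb).resolve_left (not_lt.mpr u2)
      have v3 := (nn d hd).resolve_left (not_lt.mpr u3)
      have w : a = b ∨ b = d ∨ a = d := by
        rcases v1 with v1 | v1 <;> rcases v2 with v2 | v2 <;> rcases v3 with v3 | v3 <;>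
          simp [v1, v2, v3]
      have hD : D 1 a b d = 0 := by
        rcases w with w | w | w
        · rw [w, D_aac]
        · rw [w, D_abb]
        · rw [w, D_aba]
      have k1 := hin.1
      rw [hD, zero_mul] at k1
      exact lt_irrefl _ k1
    have := In_pos hin (nn0 a ha) (nn0 b hb) (nn0 d hd) hor
    rw [q0] at this
    exact lt_irrefl _ this
  -- colours
  have nl : ∀ x : Bool, (x ≠ l) ↔ x = !l := by
    intro x
    cases x <;> cases l <;> simp
  have nl2 : ∀ x : Bool, (x ≠ !l) ↔ x = l := by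
    intro x
    cases x <;> cases l <;> simp
  have CJ' : (at1 G e).image (fun g => g.2.2) ⊆ S.filter (fun q => 0 < D s e.1 e.2 q) := by
    intro q hq
    obtain ⟨g, hg, rfl⟩ := Finset.mem_image.1 hq
    exact CJ g hg
  have BJ' : (at1 G e).image (fun g => g.2.1) ⊆ S.filter (fun q => 0 < D s e.1 e.2 q) := by
    intro q hq
    obtain ⟨g, hg, rfl⟩ := Finset.mem_image.1 hq
    exact BJ g hg
  have extC : ∀ q ∈ (at1 G e).image (fun g => g.2.2),
      ∀ a ∈ S.filter (fun q => 0 < D s e.1 e.2 q), ∀ b ∈ S.filter (fun q => 0 < D s e.1 e.2 q),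
      ∀ d ∈ S.filter (fun q => 0 < D s e.1 e.2 q), ¬ In a b d q := by
    intro q hq
    obtain ⟨g, hg, rfl⟩ := Finset.mem_image.1 hq
    exact hext g hg _ (Or.inr rfl)
  have extB : ∀ q ∈ (at1 G e).image (fun g => g.2.1),
      ∀ a ∈ S.filter (fun q => 0 < D s e.1 e.2 q), ∀ b ∈ S.filter (fun q => 0 < D s e.1 e.2 q),
      ∀ d ∈ S.filter (fun q => 0 < D s e.1 e.2 q), ¬ In a b d q := by
    intro q hq
    obtain ⟨g, hg, rfl⟩ := Finset.mem_image.1 hq
    exact hext g hg _ (Or.inl rfl)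
  have fB : ∀ q ∈ (at1 G e).image (fun g => g.2.1), f q = l := by
    intro q hq
    obtain ⟨g, hg, rfl⟩ := Finset.mem_image.1 hq
    exact h.c21 g (memA g hg).1
  have fC : ∀ q ∈ (at1 G e).image (fun g => g.2.2), f q = !l := by
    intro q hq
    obtain ⟨g, hg, rfl⟩ := Finset.mem_image.1 hq
    exact h.c22 g (memA g hg).1
  have sB : ∀ u ∈ (at1 G e).image (fun g => g.2.1),
      ((S.filter (fun q => 0 < D s e.1 e.2 q)).filter (fun q => f q = l)).card + (at1 G e).card ≤
        ((S.filter (fun q => 0 < D s e.1 e.2 q)).filter (fun q => f q = !l)).card + ee S f u + 2 := by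
    intro u hu
    have fu := fB u hu
    obtain ⟨g, hg, rfl⟩ := Finset.mem_image.1 hu
    have key := hull_star h.gp f h.s0 _ (Finset.filter_subset _ _) hisl (BJ g hg) (hcol g hg)
      (star1 g hg) _ CJ' (Finset.mem_image_of_mem _ hg)
      (fun q hq => by rw [fC q hq, fu]; cases l <;> simp) extC
    rw [fu, cC] at key
    rw [Finset.filter_congr (fun q _ => nl (f q))] at key
    exact key
  have sC : ∀ u ∈ (at1 G e).image (fun g => g.2.2),
      ((S.filter (fun q => 0 < D s e.1 e.2 q)).filter (fun q => f q = !l)).card + (at1 G e).card ≤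
        ((S.filter (fun q => 0 < D s e.1 e.2 q)).filter (fun q => f q = l)).card + ee S f u + 2 := by
    intro u hu
    have fu := fC u hu
    obtain ⟨g, hg, rfl⟩ := Finset.mem_image.1 hu
    have key := hull_star h.gp f (neg_ne_zero.2 h.s0) _ (Finset.filter_subset _ _) hisl (CJ g hg)
      (hcol g hg).symm
      (fun q hq n1 n2 => by
        rw [D_neg, D_swap, neg_neg]
        exact star1 g hg q hq n2 n1) _ BJ' (Finset.mem_image_of_mem _ hg)
      (fun q hq => by rw [fB q hq, fu]; cases l <;> simp) extB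
    rw [fu, cB] at key
    rw [Finset.filter_congr (fun q _ => nl2 (f q))] at key
    exact key
  have SB := Finset.sum_le_sum sB
  have SC := Finset.sum_le_sum sC
  rw [Finset.sum_const, cB, smul_eq_mul, Finset.sum_add_distrib, Finset.sum_add_distrib,
    Finset.sum_const, Finset.sum_const, cB, smul_eq_mul, smul_eq_mul] at SB
  rw [Finset.sum_const, cC, smul_eq_mul, Finset.sum_add_distrib, Finset.sum_add_distrib,
    Finset.sum_const, Finset.sum_const, cC, smul_eq_mul, smul_eq_mul] at SC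
  have hdis : Disjoint ((at1 G e).image (fun g => g.2.1)) ((at1 G e).image (fun g => g.2.2)) := by
    rw [Finset.disjoint_left]
    intro q h1 h2
    have k1 := fB q h1
    rw [fC q h2] at k1
    cases l <;> simp at k1
  have hsub : (at1 G e).image (fun g => g.2.1) ∪ (at1 G e).image (fun g => g.2.2) ⊆ W := by
    intro q hq
    rcases Finset.mem_union.1 hq with h1 | h1
    · obtain ⟨g, hg, rfl⟩ := Finset.mem_image.1 h1
      exact h.m21 g (memA g hg).1
    · obtain ⟨g, hg, rfl⟩ := Finset.mem_image.1 h1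
      exact h.m22 g (memA g hg).1
  have hW : ∑ u ∈ (at1 G e).image (fun g => g.2.1), ee S f u +
      ∑ u ∈ (at1 G e).image (fun g => g.2.2), ee S f u ≤ ∑ u ∈ W, ee S f u := by
    rw [← Finset.sum_union hdis]
    exact Finset.sum_le_sum_of_subset hsub
  nlinarith

end Pool.Agent.Lib.MP_9ff0e7_co
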