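import Pool.Agent.Lib.MP_9ff0e7_co.Avg

/-!
Definitions for the quadratic lower bound on the number of monochromatic empty triangles.
-/

set_option autoImplicit false
open scoped Classical

namespace Pool.Agent.Lib.MP_9ff0e7_co

abbrev Pt := ℝ × ℝ
abbrev Seg := Pt × Pt

/-- the three term relation at `p`. -/
theorem gp4 (s : ℝ) (p a b c d : Pt) :
    D s p a b * D s p c d - D s p a c * D s p b d + D s p a d * D s p b c = 0 := by
  unfold D; ring

/-- the affine relation between four points. -/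
theorem aff4 (s t : ℝ) (u v a b c d : Pt) :
    D t u v a * D s b c d - D t u v b * D s a c d + D t u v c * D s a b d
      - D t u v d * D s a b c = 0 := by
  unfold D; ring

/-- `D` is affine in its last argument. -/
theorem D_aff (s l : ℝ) (u v a b : Pt) :
    D s u v ((1 - l) • a + l • b) = (1 - l) * D s u v a + l * D s u v b := by
  unfold D
  simp only [Prod.fst_add, Prod.snd_add, Prod.smul_fst, Prod.smul_snd, smul_eq_mul]
  ring

/-- the standing assumptions: `Z` is a block of consecutive heights with lower end `h0`. -/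
structure Cx (s ε h0 : ℝ) (S Z : Finset Pt) : Prop where
  gp : GP S
  s0 : s ≠ 0
  inj : Set.InjOn (Ht ε) S
  sub : Z ⊆ S
  hi : ∀ z ∈ Z, h0 ≤ Ht ε z
  cov : ∀ x ∈ Z, ∀ p ∈ S, h0 ≤ Ht ε p → Ht ε p < Ht ε x → p ∈ Z

/-- the apexes in `Z` for which `z` is the parent of `p`. -/
noncomputable def Xs (s ε : ℝ) (S Z : Finset Pt) (z p : Pt) : Finset Pt :=
  Z.filter (fun x => Par s ε S x p z)

/-- the light good points of `x`. -/
noncomputable def LG (s ε h0 : ℝ) (f : Pt → Bool) (S Z : Finset Pt) (L : ℕ) (x : Pt) :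
    Finset Pt :=
  (Low ε S h0).filter (fun c => f c = f x ∧
    ∃ z ∈ Z, f z ≠ f x ∧ Par s ε S x c z ∧ (Xs s ε S Z z c).card < L)

/-- a square: `x`, `z` in the block, `b`, `c` below it, `b` and `c` are consecutive children
of `z` as seen from `x`. -/
structure Sq (s ε h0 : ℝ) (f : Pt → Bool) (S Z : Finset Pt) (L : ℕ) (x z b c : Pt) : Prop where
  hx : x ∈ Z
  hz : z ∈ Z
  hb : b ∈ Low ε S h0
  hc : c ∈ Low ε S h0
  fc : f c = f x
  fz : f z ≠ f x
  fb : f b ≠ f x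
  adj : Adj s ε x (Ch s ε S x z) b c
  light : (Xs s ε S Z z c).card < L

/-- the set of all squares `((z, x), (b, c))`. -/
noncomputable def SQ (s ε h0 : ℝ) (f : Pt → Bool) (S Z : Finset Pt) (L : ℕ) :
    Finset (Seg × Seg) :=
  ((Z ×ˢ Z) ×ˢ (Low ε S h0 ×ˢ Low ε S h0)).filter
    (fun g => Sq s ε h0 f S Z L g.1.2 g.1.1 g.2.1 g.2.2)

/-- a square is bad if the wedge region between the lines `x z` and `b c` contains a point. -/
def Bad (s : ℝ) (S : Finset Pt) (x z b c : Pt) : Prop :=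
  ∃ q ∈ S, q ≠ x ∧ q ≠ z ∧ q ≠ b ∧ q ≠ c ∧ 0 < D s x q z ∧ 0 < D s b c q

/-- left witness of badness. -/
structure LWit (s ε : ℝ) (S : Finset Pt) (x z b c a : Pt) : Prop where
  ha : a ∈ S
  h1 : D s x b a < 0
  h2 : 0 < D s x a z
  h3 : 0 < D s b c a
  emp : ∀ q ∈ S, ¬ In x b a q
  cond : (¬ ∃ y, Par (-s) ε S x b y) ∨ Par (-s) ε S x b a ∨
    ∃ y, Par (-s) ε S x b y ∧ D s b c y < 0

/-- right witness of badness. -/
structure RWit (s : ℝ) (S : Finset Pt) (x z b c a : Pt) : Prop where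
  ha : a ∈ S
  h1 : D s c z a < 0
  h2 : 0 < D s x a z
  h3 : 0 < D s b c a
  emp : ∀ q ∈ S, ¬ In c z a q

/-- the geometric data of a square. -/
structure Geo (s ε : ℝ) (S : Finset Pt) (x z b c : Pt) : Prop where
  xS : x ∈ S
  zS : z ∈ S
  bS : b ∈ S
  cS : c ∈ S
  zx : Ht ε z < Ht ε x
  bz : Ht ε b < Ht ε z
  cz : Ht ε c < Ht ε z
  dxbc : 0 < D s x b c
  dxcz : 0 < D s x c z
  dxbz : 0 < D s x b z
  dbcz : 0 < D s b c z
  pb : Par s ε S x b z
  pc : Par s ε S x c z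
  e1 : ∀ q ∈ S, ¬ In x b c q
  e2 : ∀ q ∈ S, ¬ In x c z q
  e3 : ∀ q ∈ S, ¬ In z b c q

/-- two segments cross. -/
def Crs (f g : Seg) : Prop :=
  ∃ l m : ℝ, 0 < l ∧ l < 1 ∧ 0 < m ∧ m < 1 ∧
    (1 - l) • f.1 + l • f.2 = (1 - m) • g.1 + m • g.2

/-- abstract configuration of pairs of segments such that the wedge between the two lines
contains no further point of `S`. -/
structure Conf (s : ℝ) (S V W : Finset Pt) (f : Pt → Bool) (k l : Bool)
    (G : Finset (Seg × Seg)) : Prop where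
  gp : GP S
  s0 : s ≠ 0
  VS : V ⊆ S
  WS : W ⊆ S
  dis : Disjoint V W
  m11 : ∀ g ∈ G, g.1.1 ∈ V
  m12 : ∀ g ∈ G, g.1.2 ∈ V
  m21 : ∀ g ∈ G, g.2.1 ∈ W
  m22 : ∀ g ∈ G, g.2.2 ∈ W
  c11 : ∀ g ∈ G, f g.1.1 = k
  c12 : ∀ g ∈ G, f g.1.2 = !k
  c21 : ∀ g ∈ G, f g.2.1 = l
  c22 : ∀ g ∈ G, f g.2.2 = !l
  p1 : ∀ g ∈ G, 0 < D s g.1.1 g.1.2 g.2.1
  p2 : ∀ g ∈ G, 0 < D s g.1.1 g.1.2 g.2.2
  p3 : ∀ g ∈ G, 0 < D s g.2.1 g.2.2 g.1.1
  p4 : ∀ g ∈ G, 0 < D s g.2.1 g.2.2 g.1.2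
  emp : ∀ g ∈ G, ∀ q ∈ S, q ≠ g.1.1 → q ≠ g.1.2 → q ≠ g.2.1 → q ≠ g.2.2 →
    ¬ (0 < D s g.1.1 g.1.2 q ∧ 0 < D s g.2.1 g.2.2 q)

/-- the pairs with first segment `e`. -/
noncomputable def at1 (G : Finset (Seg × Seg)) (e : Seg) : Finset (Seg × Seg) :=
  G.filter (fun g => g.1 = e)

/-- the pairs with second segment `h`. -/
noncomputable def at2 (G : Finset (Seg × Seg)) (h : Seg) : Finset (Seg × Seg) :=
  G.filter (fun g => g.2 = h)

/-- the pairs of crossing segments of `F`. -/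
noncomputable def XP (F : Finset Seg) : Finset (Seg × Seg) :=
  (F ×ˢ F).filter (fun q => q.1 ≠ q.2 ∧ Crs q.1 q.2)

/-- barycentric relation for an affine functional. -/
theorem baryD (s t : ℝ) (u v a b c q : Pt) :
    D s a b c * D t u v q = D s q b c * D t u v a + D s a q c * D t u v b
      + D s a b q * D t u v c := by
  unfold D; ring

/-- an affine functional which is nonnegative on the vertices and positive on one of them is
positive strictly inside the triangle. -/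
theorem In_pos {t : ℝ} {u v a b c q : Pt} (h : In a b c q) (ha : 0 ≤ D t u v a)
    (hb : 0 ≤ D t u v b) (hc : 0 ≤ D t u v c)
    (h1 : 0 < D t u v a ∨ 0 < D t u v b ∨ 0 < D t u v c) : 0 < D t u v q := by
  obtain ⟨k1, k2, k3⟩ := h
  have e := baryD 1 t u v a b c q
  have f1 : D 1 q b c = D 1 b c q := D_cyc _ _ _ _
  have f2 : D 1 a q c = D 1 c a q := (D_cyc _ _ _ _).symm
  rw [f1, f2] at e
  have hne : 0 < D 1 a b c ^ 2 := by
    apply lt_of_le_of_ne (sq_nonneg _)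
    intro h6
    have : D 1 a b c = 0 := pow_eq_zero_iff (two_ne_zero) |>.1 h6.symm
    rw [this] at k1; simp at k1
  have k : D 1 a b c ^ 2 * D t u v q = (D 1 a b c * D 1 b c q) * D t u v a
      + (D 1 a b c * D 1 c a q) * D t u v b + (D 1 a b c * D 1 a b q) * D t u v c := by
    linear_combination (D 1 a b c) * e
  have k4 : 0 < D 1 a b c ^ 2 * D t u v q := by
    rw [k]
    have m1 := mul_nonneg k2.le ha
    have m2 := mul_nonneg k3.le hb
    have m3 := mul_nonneg k1.le hc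
    rcases h1 with h1 | h1 | h1
    · have := mul_pos k2 h1; linarith
    · have := mul_pos k3 h1; linarith
    · have := mul_pos k1 h1; linarith
  exact (mul_pos_iff_of_pos_left hne).1 k4

/-- strict interior from the three signs. -/
theorem In_of {s : ℝ} {a b c q : Pt} (h0 : 0 < D s a b c) (h1 : 0 < D s a b q)
    (h2 : 0 < D s b c q) (h3 : 0 < D s c a q) : In a b c q := by
  have hs : s ≠ 0 := by rintro rfl; simp [D] at h0
  have hs2 : 0 < s ^ 2 := by positivity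
  rw [D_one] at h0 h1 h2 h3
  refine ⟨?_, ?_, ?_⟩
  · have := mul_pos h0 h1
    have e : s * D 1 a b c * (s * D 1 a b q) = s ^ 2 * (D 1 a b c * D 1 a b q) := by ring
    rw [e] at this; exact (mul_pos_iff_of_pos_left hs2).1 this
  · have := mul_pos h0 h2
    have e : s * D 1 a b c * (s * D 1 b c q) = s ^ 2 * (D 1 a b c * D 1 b c q) := by ring
    rw [e] at this; exact (mul_pos_iff_of_pos_left hs2).1 this
  · have := mul_pos h0 h3
    have e : s * D 1 a b c * (s * D 1 c a q) = s ^ 2 * (D 1 a b c * D 1 c a q) := by ring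
    rw [e] at this; exact (mul_pos_iff_of_pos_left hs2).1 this

/-- transitivity of the order around `x` below `x`. -/
theorem low_trans {s ε : ℝ} {S : Finset Pt} {x a b c : Pt} (ha : a ∈ Low ε S (Ht ε x))
    (hb : b ∈ Low ε S (Ht ε x)) (hc : c ∈ Low ε S (Ht ε x)) (h1 : 0 < D s x a b)
    (h2 : 0 < D s x b c) : 0 < D s x a c :=
  (ord_lt_below ha hc).1 (((ord_lt_below ha hb).2 h1).trans ((ord_lt_below hb hc).2 h2))

/-- `z` is not a point of the other sign. -/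
theorem D_ne' {s : ℝ} {S : Finset Pt} (hS : GP S) (hs : s ≠ 0) {a b c : Pt} (ha : a ∈ S)
    (hb : b ∈ S) (hc : c ∈ S) (h1 : a ≠ b) (h2 : a ≠ c) (h3 : b ≠ c) :
    D s a b c < 0 ∨ 0 < D s a b c := lt_or_gt_of_ne (hS.ne hs ha hb hc h1 h2 h3)

/-- the standing assumptions for the mirror image. -/
theorem Cx.neg {s ε h0 : ℝ} {S Z : Finset Pt} (C : Cx s ε h0 S Z) : Cx (-s) ε h0 S Z :=
  ⟨C.gp, neg_ne_zero.2 C.s0, C.inj, C.sub, C.hi, C.cov⟩

/-- points below the block are below every apex. -/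
theorem Cx.low {s ε h0 : ℝ} {S Z : Finset Pt} (C : Cx s ε h0 S Z) {x p : Pt} (hx : x ∈ Z)
    (hp : p ∈ Low ε S h0) : p ∈ Low ε S (Ht ε x) :=
  mem_Low.2 ⟨(mem_Low.1 hp).1, lt_of_lt_of_le (mem_Low.1 hp).2 (C.hi x hx)⟩

/-- a point below an apex is in the block or below the block. -/
theorem Cx.cases {s ε h0 : ℝ} {S Z : Finset Pt} (C : Cx s ε h0 S Z) {x p : Pt} (hx : x ∈ Z)
    (hp : p ∈ Low ε S (Ht ε x)) : p ∈ Z ∨ p ∈ Low ε S h0 := by
  obtain ⟨h1, h2⟩ := mem_Low.1 hp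
  rcases lt_or_ge (Ht ε p) h0 with h | h
  · exact Or.inr (mem_Low.2 ⟨h1, h⟩)
  · exact Or.inl (C.cov x hx p h1 h h2)

end Pool.Agent.Lib.MP_9ff0e7_co
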