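import Pool.Agent.Lib.MP_9ff0e7_co.Q.B14
import Pool.Agent.Lib.MP_9ff0e7_co.Q.C1

/-!
Row F1. The good squares of one colour form a configuration.

Proof. For g = ((z,x),(b,c)) in SQ with Sq.geo C. V = Z, W = Low ε S h0: VS = C.sub, WS: Low is a filter of S, disjoint: heights (C.hi, mem_Low).
Colours: f x = κ, f z ≠ f x so f z = !κ ; f b ≠ f x so f b = !κ; f c = f x = κ = !!κ. p1 : D s z x b = D s x b z > 0 (D_cyc), p2 : D s z x c =
D s x c z > 0, p3 : D s b c z > 0, p4 : D s b c x = D s x b c > 0. emp : from ¬ Bad, D s z x q = D s x q z.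
`good_card`: the map g ↦ (x, c) = (g.1.2, g.2.2) is injective on SQ (Sq.det1) with values in Z ×ˢ Low ε S h0.
-/

set_option autoImplicit false
open scoped Classical

namespace Pool.Agent.Lib.MP_9ff0e7_co

variable {s ε h0 : ℝ} {S Z : Finset Pt}

/-- the good squares with `f x = κ`. -/
noncomputable def GS (s ε h0 : ℝ) (f : Pt → Bool) (S Z : Finset Pt) (L : ℕ) (κ : Bool) :
    Finset (Seg × Seg) :=
  (SQ s ε h0 f S Z L).filter (fun g => ¬ Bad s S g.1.2 g.1.1 g.2.1 g.2.2 ∧ f g.1.2 = κ)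

theorem f1_mem {f : Pt → Bool} {L : ℕ} {κ : Bool} {g : Seg × Seg}
    (hg : g ∈ GS s ε h0 f S Z L κ) : Sq s ε h0 f S Z L g.1.2 g.1.1 g.2.1 g.2.2 ∧
      ¬ Bad s S g.1.2 g.1.1 g.2.1 g.2.2 ∧ f g.1.2 = κ := by
  obtain ⟨h1, h2, h3⟩ := Finset.mem_filter.1 hg
  exact ⟨(Finset.mem_filter.1 h1).2, h2, h3⟩

theorem f1_ne {a b : Bool} (h : a ≠ b) : a = !b := by
  cases a <;> cases b <;> simp_all

theorem good_conf (C : Cx s ε h0 S Z) (f : Pt → Bool) (L : ℕ) (κ : Bool) :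
    Conf s S Z (Low ε S h0) f (!κ) (!κ) (GS s ε h0 f S Z L κ) where
  gp := C.gp
  s0 := C.s0
  VS := C.sub
  WS := fun q hq => (mem_Low.1 hq).1
  dis := by
    refine Finset.disjoint_left.2 fun q hq hq' => ?_
    have h1 := C.hi q hq
    have h2 := (mem_Low.1 hq').2
    linarith
  m11 := fun g hg => (f1_mem hg).1.hz
  m12 := fun g hg => (f1_mem hg).1.hx
  m21 := fun g hg => (f1_mem hg).1.hb
  m22 := fun g hg => (f1_mem hg).1.hc
  c11 := fun g hg => by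
    obtain ⟨h1, h2, h3⟩ := f1_mem hg
    rw [← h3]; exact f1_ne h1.fz
  c12 := fun g hg => by
    obtain ⟨h1, h2, h3⟩ := f1_mem hg
    rw [h3, Bool.not_not]
  c21 := fun g hg => by
    obtain ⟨h1, h2, h3⟩ := f1_mem hg
    rw [← h3]; exact f1_ne h1.fb
  c22 := fun g hg => by
    obtain ⟨h1, h2, h3⟩ := f1_mem hg
    rw [h1.fc, h3, Bool.not_not]
  p1 := fun g hg => by
    have h := (Sq.geo C (f1_mem hg).1).dxbz
    have e : D s g.1.1 g.1.2 g.2.1 = D s g.1.2 g.2.1 g.1.1 := D_cyc _ _ _ _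
    rw [e]; exact h
  p2 := fun g hg => by
    have h := (Sq.geo C (f1_mem hg).1).dxcz
    have e : D s g.1.1 g.1.2 g.2.2 = D s g.1.2 g.2.2 g.1.1 := D_cyc _ _ _ _
    rw [e]; exact h
  p3 := fun g hg => (Sq.geo C (f1_mem hg).1).dbcz
  p4 := fun g hg => by
    have h := (Sq.geo C (f1_mem hg).1).dxbc
    have e : D s g.1.2 g.2.1 g.2.2 = D s g.2.1 g.2.2 g.1.2 := D_cyc _ _ _ _
    rw [← e]; exact h
  emp := fun g hg q hq h1 h2 h3 h4 h5 => by
    obtain ⟨-, hbad, -⟩ := f1_mem hg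
    apply hbad
    have e : D s g.1.1 g.1.2 q = D s g.1.2 q g.1.1 := D_cyc _ _ _ _
    exact ⟨q, hq, h2, h1, h3, h4, by rw [← e]; exact h5.1, h5.2⟩

theorem good_card (C : Cx s ε h0 S Z) (f : Pt → Bool) (L : ℕ) (κ : Bool) :
    (GS s ε h0 f S Z L κ).card ≤ (Low ε S h0).card * Z.card := by
  rw [mul_comm, ← Finset.card_product]
  apply Finset.card_le_card_of_injOn (fun g => (g.1.2, g.2.2))
  · intro g hg
    have h := (f1_mem (Finset.mem_coe.1 hg)).1
    exact Finset.mem_coe.2 (Finset.mem_product.2 ⟨h.hx, h.hc⟩)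
  · rintro ⟨⟨z, x⟩, ⟨b, c⟩⟩ hg ⟨⟨z', x'⟩, ⟨b', c'⟩⟩ hg' heq
    have h := (f1_mem (Finset.mem_coe.1 hg)).1
    have h' := (f1_mem (Finset.mem_coe.1 hg')).1
    simp only [Prod.mk.injEq] at heq
    obtain ⟨rfl, rfl⟩ := heq
    obtain ⟨rfl, rfl⟩ := Sq.det1 C h h'
    rfl

theorem good_split (C : Cx s ε h0 S Z) (f : Pt → Bool) (L : ℕ) :
    (SQ s ε h0 f S Z L).card ≤ (GS s ε h0 f S Z L true).card + (GS s ε h0 f S Z L false).card
      + (6 + 2 * L) * ∑ z ∈ Z, ee S f z := by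
  have hb := bad_count C f L
  have hsub : SQ s ε h0 f S Z L ⊆ (GS s ε h0 f S Z L true ∪ GS s ε h0 f S Z L false) ∪
      (SQ s ε h0 f S Z L).filter (fun g => Bad s S g.1.2 g.1.1 g.2.1 g.2.2) := by
    intro g hg
    by_cases h : Bad s S g.1.2 g.1.1 g.2.1 g.2.2
    · exact Finset.mem_union_right _ (Finset.mem_filter.2 ⟨hg, h⟩)
    · apply Finset.mem_union_left
      cases hf : f g.1.2
      · exact Finset.mem_union_right _ (Finset.mem_filter.2 ⟨hg, h, hf⟩)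
      · exact Finset.mem_union_left _ (Finset.mem_filter.2 ⟨hg, h, hf⟩)
  have h1 := Finset.card_le_card hsub
  have h2 := Finset.card_union_le (GS s ε h0 f S Z L true ∪ GS s ε h0 f S Z L false)
    ((SQ s ε h0 f S Z L).filter (fun g => Bad s S g.1.2 g.1.1 g.2.1 g.2.2))
  have h3 := Finset.card_union_le (GS s ε h0 f S Z L true) (GS s ε h0 f S Z L false)
  omega

end Pool.Agent.Lib.MP_9ff0e7_co
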