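import Pool.Agent.Lib.MP_9ff0e7_co.Q.P10

/-!
Row S2. Degrees of a configuration: few segments of large degree, small degrees, large degrees.

dg1 G g = card (at1 G g.1), dg2 G g = card (at2 G g.2), as real numbers.
`few1`. H ⊆ G, t <= dg1 G g on H: card (H.image fst) * t <= sum_{e in H.image fst} card (at1 G e) <= card G (the sets at1 G e are disjoint:
Finset.card_eq_sum_card_fiberwise or card_biUnion; sum over a subset of G.image fst).
`few2`. The same for the second segments.
`T1`. H = G.filter (dg1 < t): card H = sum_{e in H.image fst} card (at1 H e) <= card (G.image fst) * t and G.image fst ⊆ V ×ˢ V (m11, m12).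
`T2`. H = G.filter (t <= dg1), Conf.mono, ineqA with p = 1 and the cap A for H (at2 H q ⊆ at2 G q), card (H.image fst) <= card G / t by few1.
-/

set_option autoImplicit false
open scoped Classical

namespace Pool.Agent.Lib.MP_9ff0e7_co

variable {s : ℝ} {S V W : Finset Pt} {f : Pt → Bool} {k l : Bool} {G : Finset (Seg × Seg)}

/-- degree of the first segment. -/
noncomputable def dg1 (G : Finset (Seg × Seg)) (g : Seg × Seg) : ℝ := ((at1 G g.1).card : ℝ)

/-- degree of the second segment. -/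
noncomputable def dg2 (G : Finset (Seg × Seg)) (g : Seg × Seg) : ℝ := ((at2 G g.2).card : ℝ)

theorem few1 {H : Finset (Seg × Seg)} (hH : H ⊆ G) {t : ℝ} (ht : ∀ g ∈ H, t ≤ dg1 G g) :
    ((H.image Prod.fst).card : ℝ) * t ≤ G.card := by
  have h1 : ((H.image Prod.fst).card : ℝ) * t ≤ ∑ e ∈ H.image Prod.fst, ((at1 G e).card : ℝ) := by
    rw [← nsmul_eq_mul]
    apply Finset.card_nsmul_le_sum
    intro e he
    obtain ⟨g, hg, rfl⟩ := Finset.mem_image.1 he
    exact ht g hg
  have h2 : ((H.image Prod.fst).biUnion (fun e => at1 G e)).card =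
      ∑ e ∈ H.image Prod.fst, (at1 G e).card := by
    apply Finset.card_biUnion
    intro a _ b _ hab
    refine Finset.disjoint_left.2 ?_
    intro q hq hq'
    exact hab ((Finset.mem_filter.1 hq).2.symm.trans (Finset.mem_filter.1 hq').2)
  have h3 : ((H.image Prod.fst).biUnion (fun e => at1 G e)).card ≤ G.card := by
    apply Finset.card_le_card
    intro q hq
    obtain ⟨e, _, hq⟩ := Finset.mem_biUnion.1 hq
    exact (Finset.mem_filter.1 hq).1
  rw [h2] at h3
  have h4 : ∑ e ∈ H.image Prod.fst, ((at1 G e).card : ℝ) ≤ G.card := by exact_mod_cast h3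
  linarith

theorem few2 {H : Finset (Seg × Seg)} (hH : H ⊆ G) {t : ℝ} (ht : ∀ g ∈ H, t ≤ dg2 G g) :
    ((H.image Prod.snd).card : ℝ) * t ≤ G.card := by
  have h1 : ((H.image Prod.snd).card : ℝ) * t ≤ ∑ e ∈ H.image Prod.snd, ((at2 G e).card : ℝ) := by
    rw [← nsmul_eq_mul]
    apply Finset.card_nsmul_le_sum
    intro e he
    obtain ⟨g, hg, rfl⟩ := Finset.mem_image.1 he
    exact ht g hg
  have h2 : ((H.image Prod.snd).biUnion (fun e => at2 G e)).card =
      ∑ e ∈ H.image Prod.snd, (at2 G e).card := by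
    apply Finset.card_biUnion
    intro a _ b _ hab
    refine Finset.disjoint_left.2 ?_
    intro q hq hq'
    exact hab ((Finset.mem_filter.1 hq).2.symm.trans (Finset.mem_filter.1 hq').2)
  have h3 : ((H.image Prod.snd).biUnion (fun e => at2 G e)).card ≤ G.card := by
    apply Finset.card_le_card
    intro q hq
    obtain ⟨e, _, hq⟩ := Finset.mem_biUnion.1 hq
    exact (Finset.mem_filter.1 hq).1
  rw [h2] at h3
  have h4 : ∑ e ∈ H.image Prod.snd, ((at2 G e).card : ℝ) ≤ G.card := by exact_mod_cast h3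
  linarith

theorem Conf.T1 (h : Conf s S V W f k l G) {t : ℝ} (ht : 0 ≤ t) :
    ((G.filter (fun g => dg1 G g < t)).card : ℝ) ≤ (V.card : ℝ) ^ 2 * t := by
  set H := G.filter (fun g => dg1 G g < t) with hHd
  have h1 : H.card = ∑ e ∈ H.image Prod.fst, (H.filter (fun g => g.1 = e)).card :=
    Finset.card_eq_sum_card_fiberwise fun g hg => Finset.mem_image_of_mem Prod.fst hg
  have h2 : (H.card : ℝ) ≤ (H.image Prod.fst).card * t := by
    rw [h1]
    push_cast
    rw [← nsmul_eq_mul]
    apply Finset.sum_le_card_nsmul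
    intro e he
    obtain ⟨g, hg, rfl⟩ := Finset.mem_image.1 he
    have h3 := (Finset.mem_filter.1 hg).2
    have h4 : (H.filter (fun q => q.1 = g.1)).card ≤ (at1 G g.1).card := by
      apply Finset.card_le_card
      intro q hq
      obtain ⟨q1, q2⟩ := Finset.mem_filter.1 hq
      exact Finset.mem_filter.2 ⟨(Finset.mem_filter.1 q1).1, q2⟩
    have h5 : ((H.filter (fun q => q.1 = g.1)).card : ℝ) ≤ dg1 G g := by
      unfold dg1; exact_mod_cast h4
    linarith
  have h3 : (H.image Prod.fst).card ≤ V.card ^ 2 := by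
    have : (H.image Prod.fst) ⊆ V ×ˢ V := by
      intro e he
      obtain ⟨g, hg, rfl⟩ := Finset.mem_image.1 he
      have hgG := (Finset.mem_filter.1 hg).1
      exact Finset.mem_product.2 ⟨h.m11 g hgG, h.m12 g hgG⟩
    have h4 := Finset.card_le_card this
    rw [Finset.card_product] at h4
    rw [pow_two]; exact h4
  have h4 : ((H.image Prod.fst).card : ℝ) ≤ (V.card : ℝ) ^ 2 := by exact_mod_cast h3
  exact h2.trans (mul_le_mul_of_nonneg_right h4 ht)

theorem Conf.T2 (h : Conf s S V W f k l G) {ε : ℝ} (hH : Set.InjOn (Ht ε) S) {A t : ℝ}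
    (hA : 0 < A) (ht : 0 < t) (hcap : ∀ q, ((at2 G q).card : ℝ) ≤ A) :
    ((G.filter (fun g => t ≤ dg1 G g)).card : ℝ) ≤
      4 * W.card * A + 2 * ((G.card : ℝ) / t) ^ 2 / A := by
  set H := G.filter (fun g => t ≤ dg1 G g) with hHd
  have hsub : H ⊆ G := Finset.filter_subset _ _
  have hc := h.mono hsub
  have h1 := hc.ineqA hH hA (fun q => by
    have h4 : (at2 H q).card ≤ (at2 G q).card := by
      apply Finset.card_le_card
      intro r hr
      obtain ⟨q1, q2⟩ := Finset.mem_filter.1 hr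
      exact Finset.mem_filter.2 ⟨hsub q1, q2⟩
    have h5 : ((at2 H q).card : ℝ) ≤ (at2 G q).card := by exact_mod_cast h4
    exact h5.trans (hcap q)) one_pos le_rfl
  have h2 := few1 hsub (t := t) (fun g hg => (Finset.mem_filter.1 hg).2)
  have h3 : ((H.image Prod.fst).card : ℝ) ≤ (G.card : ℝ) / t := by
    rw [le_div_iff₀ ht]; exact h2
  have h4 : ((H.image Prod.fst).card : ℝ) ^ 2 ≤ ((G.card : ℝ) / t) ^ 2 :=
    pow_le_pow_left₀ (by positivity) h3 2
  have h5 : 2 * ((H.image Prod.fst).card : ℝ) ^ 2 / A ≤ 2 * ((G.card : ℝ) / t) ^ 2 / A := by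
    apply div_le_div_of_nonneg_right _ hA.le
    linarith
  have h6 : 4 * (W.card : ℝ) * A / 1 + 2 * 1 ^ 2 * ((H.image Prod.fst).card : ℝ) ^ 2 / A =
      4 * W.card * A + 2 * ((H.image Prod.fst).card : ℝ) ^ 2 / A := by ring
  rw [h6] at h1
  linarith

end Pool.Agent.Lib.MP_9ff0e7_co
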