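import Pool.Agent.Lib.MP_9ff0e7_co.Q.S1
import Pool.Agent.Lib.MP_9ff0e7_co.Q.S2

/-!
Row S4. The pairs with large degree of the second segment.

Proof. H = the filter set, w = dg2 G, a0 = κ b0. `octave` with b0 := a0, b1 := a1, M = K, θ = 1/κ, Q. hw0: a0 = κ b0 <= κ dg1 < dg2. hw1: dg2 <= a1 by hcap.
hcl: H_j = H.filter (8^j a0 <= w ∧ w < 8^(j+1) a0) ⊆ G. The swapped configuration (H_j).image Prod.swap is a Conf with V and W exchanged
(Conf.mono, Conf.swap); ineqA for it with A = (1/κ) * (8^(j+1) a0): cap: at2 ((H_j).image swap) e = (at1 H_j e).image swap, its card is card (at1 H_j e); if it is not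
empty take g in at1 H_j e: card (at1 H_j e) <= dg1 G g < dg2 G g / κ <= 8^(j+1) a0/κ. The image of fst of the swapped set is H_j.image snd, of card
<= Q/(8^j a0) by few2; card ((H_j).image swap) = card H_j (injective). card V <= K.
The result of octave is 37 K (1/κ) a1 + 64 K (1/κ) a0/p0 + p0^2 Q^2/(2 (1/κ) a0^3); rewrite as stated (field_simp).
-/

set_option autoImplicit false
open scoped Classical

namespace Pool.Agent.Lib.MP_9ff0e7_co

variable {s : ℝ} {S V W : Finset Pt} {f : Pt → Bool} {k l : Bool} {G : Finset (Seg × Seg)}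

theorem s4_card_swap (H : Finset (Seg × Seg)) : (H.image Prod.swap).card = H.card :=
  Finset.card_image_of_injective _ Prod.swap_injective

theorem s4_at2_swap (H : Finset (Seg × Seg)) (e : Seg) :
    at2 (H.image Prod.swap) e = (at1 H e).image Prod.swap := by
  unfold at1 at2
  ext g
  simp only [Finset.mem_filter, Finset.mem_image]
  constructor
  · rintro ⟨⟨a, h1, rfl⟩, h2⟩
    exact ⟨a, ⟨h1, h2⟩, rfl⟩
  · rintro ⟨a, ⟨h1, h2⟩, rfl⟩
    exact ⟨⟨a, h1, rfl⟩, h2⟩

theorem s4_fst_swap (H : Finset (Seg × Seg)) :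
    (H.image Prod.swap).image Prod.fst = H.image Prod.snd := by
  rw [Finset.image_image]
  rfl

/-- the inequality for the exchanged configuration of a subset. -/
theorem s4_part (h : Conf s S V W f k l G) {ε : ℝ} (hH : Set.InjOn (Ht ε) S)
    {K κ Q x y p : ℝ} (hκ : 0 < κ) (hx : 0 < x) (hy : 0 < y)
    (hV : (V.card : ℝ) ≤ K) (hG : (G.card : ℝ) ≤ Q) {H : Finset (Seg × Seg)} (hHG : H ⊆ G)
    (h1 : ∀ g ∈ H, κ * dg1 G g < dg2 G g) (h2 : ∀ g ∈ H, x ≤ dg2 G g)
    (h3 : ∀ g ∈ H, dg2 G g < y) (hp : 0 < p) (hp1 : p ≤ 1) :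
    (H.card : ℝ) ≤ 4 * K * (1 / κ * y) / p + 2 * p ^ 2 * (Q / x) ^ 2 / (1 / κ * y) := by
  have hA : 0 < 1 / κ * y := by positivity
  have hc := ((h.mono hHG).swap).ineqA hH hA (p := p) (fun e => by
    rw [s4_at2_swap, s4_card_swap]
    rcases (at1 H e).eq_empty_or_nonempty with he | ⟨g, hg⟩
    · rw [he]; simpa using hA.le
    · have hg' : g ∈ H ∧ g.1 = e := by
        unfold at1 at hg
        exact Finset.mem_filter.1 hg
      have h4 : ((at1 H e).card : ℝ) ≤ dg1 G g := by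
        unfold dg1
        rw [hg'.2]
        have h5 : (at1 H e) ⊆ at1 G e := by
          unfold at1
          exact Finset.filter_subset_filter _ hHG
        exact_mod_cast Finset.card_le_card h5
      have h5 := h1 g hg'.1
      have h6 := h3 g hg'.1
      have h7 : dg1 G g ≤ 1 / κ * y := by
        rw [one_div, inv_mul_eq_div, le_div_iff₀ hκ]
        linarith [mul_comm κ (dg1 G g)]
      exact h4.trans h7) hp hp1
  rw [s4_card_swap, s4_fst_swap] at hc
  have h8 := few2 hHG h2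
  have h9 : ((H.image Prod.snd).card : ℝ) ≤ Q / x := by
    rw [le_div_iff₀ hx]
    exact h8.trans hG
  have h10 : ((H.image Prod.snd).card : ℝ) ^ 2 ≤ (Q / x) ^ 2 :=
    pow_le_pow_left₀ (Nat.cast_nonneg _) h9 2
  refine hc.trans (add_le_add ?_ ?_)
  · apply div_le_div_of_nonneg_right _ hp.le
    apply mul_le_mul_of_nonneg_right _ hA.le
    linarith
  · apply div_le_div_of_nonneg_right _ hA.le
    apply mul_le_mul_of_nonneg_left h10
    positivity

theorem Conf.T4 (h : Conf s S V W f k l G) {ε : ℝ} (hH : Set.InjOn (Ht ε) S)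
    {b0 a1 K κ Q p0 : ℝ} (hb0 : 0 < b0) (ha1 : 0 ≤ a1) (hK : 0 < K) (hκ : 0 < κ) (hQ : 0 < Q)
    (hp0 : 0 < p0) (hV : (V.card : ℝ) ≤ K) (hG : (G.card : ℝ) ≤ Q)
    (hcap : ∀ q, ((at2 G q).card : ℝ) ≤ a1) :
    ((G.filter (fun g => b0 ≤ dg1 G g ∧ κ * dg1 G g < dg2 G g)).card : ℝ) ≤
      37 * K * a1 / κ + 64 * K * b0 / p0 + p0 ^ 2 * Q ^ 2 / (2 * κ ^ 2 * b0 ^ 3) := by
  have hκ' : 0 < 1 / κ := by positivity
  have ha0 : 0 < κ * b0 := by positivity
  have key := octave (H := G.filter (fun g => b0 ≤ dg1 G g ∧ κ * dg1 G g < dg2 G g))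
    (w := dg2 G) (b0 := κ * b0) (b1 := a1) (M := K) (θ := 1 / κ) (Q := Q) (p0 := p0)
    ha0 ha1 hK hκ' hQ hp0
    (fun g hg => by
      have h1 := (Finset.mem_filter.1 hg).2
      have h2 := mul_le_mul_of_nonneg_left h1.1 hκ.le
      linarith [h1.2])
    (fun g _ => hcap g.2)
    (fun j p hp hp1 => by
      refine s4_part h hH hκ ?_ ?_ hV hG ?_ ?_ ?_ ?_ hp hp1
      · positivity
      · positivity
      · exact (Finset.filter_subset _ _).trans (Finset.filter_subset _ _)
      · intro g hg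
        exact (Finset.mem_filter.1 (Finset.mem_filter.1 hg).1).2.2
      · intro g hg
        exact (Finset.mem_filter.1 hg).2.1
      · intro g hg
        exact (Finset.mem_filter.1 hg).2.2)
  refine key.trans (le_of_eq ?_)
  field_simp

end Pool.Agent.Lib.MP_9ff0e7_co
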