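import Pool.Agent.Lib.MP_9ff0e7_co.Q.S3
import Pool.Agent.Lib.MP_9ff0e7_co.Q.S4

/-!
Row S5. The bound for a configuration.

Proof. Let m = n/K >= 10^24, κ = 10^-16, b0 = m/1000, A = K/10^5, b1 = A/κ = 10^11 K. Q = n K.
G is the union of G.filter (dg1 < b0), G.filter (b1 <= dg1), G.filter (b0 <= dg1 <= b1, dg2 <= κ dg1), G.filter (b0 <= dg1, κ dg1 < dg2).
T1: <= K^2 m/1000 = nK/1000.
T2 (t = b1, A): <= 4 n K/10^5 + 2 (nK/b1)^2/A = 4nK/10^5 + 2 (n/10^11)^2 10^5/K = 4nK/10^5 + 2 n^2/(10^17 K) and n <= K^2 gives n^2/K <= nK. (use hK)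
T3 with p0 = 64 κ b0/(K/1000) = 64 κ m/K (then 64 n κ b0/p0 = n K/1000): 37 n κ b1 = 37 nK/10^5; third term: p0^2 Q^2/(2κ b0^3) =
  64^2 κ^2 m^2/K^2 * n^2K^2 * 10^9/(2 κ m^3) = 2048 * 10^9 κ n^2/m = 2048 * 10^9 * 10^-16 nK = 0.0002048 nK (n^2/m = nK).
T4 with p0 = 64/K * ... : choose p0 = 64 b0 * 1000/n = 64/K (since b0 = n/(1000K)), then 64 K b0/p0 = nK/1000; first: 37 K (K/10^5) 10^16 = 37 * 10^11 K^2 <=
  37 * 10^11 nK/10^24; third: (64/K)^2 n^2K^2/(2 κ^2 b0^3) = 2048 * 10^9 n^2/(κ^2 m^3) = 2048 * 10^9 * 10^32 nK/m^2 <= 2048 * 10^41/10^48 nK.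
Sum < nK/20. (nK > 0.) It is convenient to substitute n = m K and to work with K, m > 0: n K = m K^2.
-/

set_option autoImplicit false
open scoped Classical

namespace Pool.Agent.Lib.MP_9ff0e7_co

variable {s : ℝ} {S V W : Finset Pt} {f : Pt → Bool} {k l : Bool} {G : Finset (Seg × Seg)}

theorem s5_num {m K t1 t2 t3 t4 g : ℝ} (hm : 10 ^ 24 ≤ m) (hmK : m ≤ K)
    (h1 : t1 ≤ K ^ 2 * (m / 1000))
    (h2 : t2 ≤ 4 * (m * K) * (K / 10 ^ 5) + 2 * (m * K * K / (10 ^ 11 * K)) ^ 2 / (K / 10 ^ 5))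
    (h3 : t3 ≤ 37 * (m * K) * (1 / 10 ^ 16) * (10 ^ 11 * K)
      + 64 * (m * K) * (1 / 10 ^ 16) * (m / 1000) / (64 * (1 / 10 ^ 16) * m / K)
      + (64 * (1 / 10 ^ 16) * m / K) ^ 2 * (m * K * K) ^ 2 / (2 * (1 / 10 ^ 16) * (m / 1000) ^ 3))
    (h4 : t4 ≤ 37 * K * (K / 10 ^ 5) / (1 / 10 ^ 16) + 64 * K * (m / 1000) / (64 / K)
      + (64 / K) ^ 2 * (m * K * K) ^ 2 / (2 * (1 / 10 ^ 16) ^ 2 * (m / 1000) ^ 3))
    (hg : g ≤ t1 + t2 + t3 + t4) : g < m * K * K / 20 := by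
  have hm0 : (0 : ℝ) < m := lt_of_lt_of_le (by norm_num) hm
  have hK0 : (0 : ℝ) < K := lt_of_lt_of_le hm0 hmK
  have hX : 0 < m * K * K := by positivity
  have e2 : 2 * (m * K * K / (10 ^ 11 * K)) ^ 2 / (K / 10 ^ 5) = 2 / 10 ^ 17 * (m * K * m) := by
    field_simp
  have e3 : 64 * (m * K) * (1 / 10 ^ 16) * (m / 1000) / (64 * (1 / 10 ^ 16) * m / K)
      = m * K * K / 1000 := by
    field_simp
  have e3' : (64 * (1 / 10 ^ 16) * m / K) ^ 2 * (m * K * K) ^ 2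
      / (2 * (1 / 10 ^ 16) * (m / 1000) ^ 3) = 2048 / 10 ^ 7 * (m * K * K) := by
    field_simp
    norm_num
  have e4 : 64 * K * (m / 1000) / (64 / K) = m * K * K / 1000 := by
    field_simp
  have e4' : (64 / K) ^ 2 * (m * K * K) ^ 2 / (2 * (1 / 10 ^ 16) ^ 2 * (m / 1000) ^ 3)
      = 2048 * 10 ^ 41 * (K * K / m) := by
    field_simp
    norm_num
  have i1 : m * K * m ≤ m * K * K := mul_le_mul_of_nonneg_left hmK (by positivity)
  have i2 : K * K ≤ m * K * K / 10 ^ 24 := by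
    rw [le_div_iff₀ (by norm_num)]
    nlinarith [mul_pos hK0 hK0]
  have i3 : K * K / m ≤ m * K * K / 10 ^ 48 := by
    rw [div_le_div_iff₀ hm0 (by norm_num)]
    have : (10 : ℝ) ^ 48 ≤ m * m := by
      have := mul_le_mul hm hm (by norm_num) hm0.le
      calc (10 : ℝ) ^ 48 = 10 ^ 24 * 10 ^ 24 := by norm_num
        _ ≤ m * m := this
    nlinarith [mul_pos hK0 hK0, mul_le_mul_of_nonneg_left this (mul_pos hK0 hK0).le]
  rw [e2] at h2
  rw [e3, e3'] at h3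
  rw [e4, e4'] at h4
  have f1 : K ^ 2 * (m / 1000) = m * K * K / 1000 := by ring
  have f2 : 4 * (m * K) * (K / 10 ^ 5) = 4 / 10 ^ 5 * (m * K * K) := by ring
  have f3 : 37 * (m * K) * (1 / 10 ^ 16) * (10 ^ 11 * K) = 37 / 10 ^ 5 * (m * K * K) := by
    field_simp
  have f4 : 37 * K * (K / 10 ^ 5) / (1 / 10 ^ 16) = 37 * 10 ^ 11 * (K * K) := by
    field_simp
  rw [f1] at h1
  rw [f2] at h2
  rw [f3] at h3
  rw [f4] at h4
  generalize m * K * K = X at *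
  generalize K * K / m = Y at *
  generalize K * K = Z at *
  generalize m * K * m = U at *
  norm_num at *
  linarith

theorem Conf.bound (h : Conf s S V W f k l G) {ε : ℝ} (hH : Set.InjOn (Ht ε) S) {K n : ℝ}
    (hV : (V.card : ℝ) ≤ K) (hW : (W.card : ℝ) ≤ n) (hK0 : 1 ≤ K) (hm : 10 ^ 24 * K ≤ n)
    (hK : n ≤ K ^ 2) (hcap : ∀ q, ((at2 G q).card : ℝ) ≤ K / 10 ^ 5)
    (hG : (G.card : ℝ) ≤ n * K) : (G.card : ℝ) < n * K / 20 := by
  have hK1 : (0 : ℝ) < K := lt_of_lt_of_le one_pos hK0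
  obtain ⟨m, rfl⟩ : ∃ m, n = m * K := ⟨n / K, by field_simp⟩
  have hm1 : (10 : ℝ) ^ 24 ≤ m := le_of_mul_le_mul_right hm hK1
  have hm0 : (0 : ℝ) < m := lt_of_lt_of_le (by norm_num) hm1
  have hmK : m ≤ K := by
    rw [sq] at hK
    exact le_of_mul_le_mul_right hK hK1
  have t1 := h.T1 (t := m / 1000) (by positivity)
  have t2 := h.T2 hH (A := K / 10 ^ 5) (t := 10 ^ 11 * K) (by positivity) (by positivity) hcap
  have t3 := h.T3 hH (b0 := m / 1000) (b1 := 10 ^ 11 * K) (n := m * K) (κ := 1 / 10 ^ 16)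
    (Q := m * K * K) (p0 := 64 * (1 / 10 ^ 16) * m / K) (by positivity) (by positivity)
    (by positivity) (by positivity) (by positivity) (by positivity) hW hG
  have t4 := h.T4 hH (b0 := m / 1000) (a1 := K / 10 ^ 5) (K := K) (κ := 1 / 10 ^ 16)
    (Q := m * K * K) (p0 := 64 / K) (by positivity) (by positivity)
    (by positivity) (by positivity) (by positivity) (by positivity) hV hG hcap
  refine s5_num hm1 hmK (t1.trans ?_) (t2.trans ?_) t3 t4 ?_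
  · exact mul_le_mul_of_nonneg_right (pow_le_pow_left₀ (Nat.cast_nonneg _) hV 2) (by positivity)
  · gcongr
  · have hsub : G ⊆ ((G.filter (fun g => dg1 G g < m / 1000))
        ∪ (G.filter (fun g => 10 ^ 11 * K ≤ dg1 G g)))
        ∪ ((G.filter (fun g => m / 1000 ≤ dg1 G g ∧ dg1 G g ≤ 10 ^ 11 * K ∧
          dg2 G g ≤ 1 / 10 ^ 16 * dg1 G g))
        ∪ (G.filter (fun g => m / 1000 ≤ dg1 G g ∧ 1 / 10 ^ 16 * dg1 G g < dg2 G g))) := by
      intro g hg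
      simp only [Finset.mem_union, Finset.mem_filter]
      rcases lt_or_ge (dg1 G g) (m / 1000) with c1 | c1
      · exact Or.inl (Or.inl ⟨hg, c1⟩)
      · rcases le_or_gt (10 ^ 11 * K) (dg1 G g) with c2 | c2
        · exact Or.inl (Or.inr ⟨hg, c2⟩)
        · rcases le_or_gt (dg2 G g) (1 / 10 ^ 16 * dg1 G g) with c3 | c3
          · exact Or.inr (Or.inl ⟨hg, c1, c2.le, c3⟩)
          · exact Or.inr (Or.inr ⟨hg, c1, c3⟩)
    have hc := (Finset.card_le_card hsub).trans ((Finset.card_union_le _ _).trans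
      (Nat.add_le_add (Finset.card_union_le _ _) (Finset.card_union_le _ _)))
    have hc' : (G.card : ℝ) ≤ ((_ : ℕ) : ℝ) := Nat.cast_le.2 hc
    push_cast at hc'
    linarith

end Pool.Agent.Lib.MP_9ff0e7_co
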