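import Pool.Agent.Lib.MP_9ff0e7_co.Q.A3
import Pool.Agent.Lib.MP_9ff0e7_co.Q.A5
import Pool.Agent.Lib.MP_9ff0e7_co.Q.F1
import Pool.Agent.Lib.MP_9ff0e7_co.Q.C6
import Pool.Agent.Lib.MP_9ff0e7_co.Q.S5

/-!
Row F2. One block gives the contradiction: combination of everything.

Proof. E = sum_{z in Z} ee z. K = card Z. L = 1000.
(1) sum_good (Avg.lean): K ((|I| - (3+24τ))/2) <= sum |Gd| + 2K + 2E + (n(6+24τ) + 6τn), I = Low h0, n = card S, |I| >= n/2.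
(2) light_sum with L = 1000 (cast to reals and divide by 1000): sum |Gd| <= sum |LG 1| + sum |LG (-1)| + 2 |I| K/1000.
(3) sq_sum for s = 1 and s = -1: sum |LG s| <= |SQ s| + 2K^2 + E.
(4) good_split: |SQ s| <= |GS s true| + |GS s false| + 2006 E.
(5) Each of the four GS: Conf.bound with V = Z, W = I, K, n gives |GS| < nK/20 : hcap from Conf.caps applied to the swapped configuration:
   card (at1 (G.image swap) e) = card (at2 G e) =: α, 2 α^2 <= E + 4 α, where E <= 12 K τ (hE). If α > K/10^5 then, dividing by α,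
   2 α <= E/α + 4 <= 12 K τ 10^5/K + 4 = 12 * 10^5 τ + 4, but α > K/10^5 >= (10^11 τ)/10^5 = 10^6 τ and α > K/10^5 >= 10^5: sum up:
   2α > ... contradiction (2α = (6/5) α + (4/5) α > 12*10^5 τ + 4 since (6/5) 10^6 τ = 12 * 10^5 τ and (4/5) 10^5 > 4).
   hG from good_card with |I| <= n.
(6) Sum: K(n/2 - 3 - 24 τ)/2 <= 4 nK/20 + small, where small = 2*2006 E + 4K^2 + 2E + 2nK/1000 + 2K + 2E + n(6 + 30τ). With
   τ <= n/10^36, K >= 10^11 τ, 10^24 K <= n, 10^10 <= K, E <= 12Kτ: every term of small is tiny against nK: E <= 12 K n/10^36;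
   K^2 <= nK/10^24; K <= nK/10^10..; n <= nK/10^10; nτ <= nK/10^11; K τ <= K n/10^36. So nK/4 - tiny <= nK/5 + nK/500 + tiny: false.
-/

set_option autoImplicit false
open scoped Classical

namespace Pool.Agent.Lib.MP_9ff0e7_co

variable {ε h0 : ℝ} {S Z : Finset Pt}

theorem f2_at {G : Finset (Seg × Seg)} (q : Seg) :
    (at1 (G.image Prod.swap) q).card = (at2 G q).card := by
  have h : at1 (G.image Prod.swap) q = (at2 G q).image Prod.swap := by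
    ext g
    unfold at1 at2
    simp only [Finset.mem_filter, Finset.mem_image]
    constructor
    · rintro ⟨⟨g0, h0, rfl⟩, h1⟩
      exact ⟨g0, ⟨h0, h1⟩, rfl⟩
    · rintro ⟨g0, ⟨h0, h1⟩, rfl⟩
      exact ⟨⟨g0, h0, rfl⟩, h1⟩
  rw [h, Finset.card_image_of_injective _ Prod.swap_injective]

theorem f2_cap {s : ℝ} {W : Finset Pt} {f : Pt → Bool} {k l : Bool} {G : Finset (Seg × Seg)}
    (h : Conf s S Z W f k l G) {τ : ℝ} (hτ : 0 ≤ τ)
    (hE : ∑ z ∈ Z, (ee S f z : ℝ) ≤ 12 * Z.card * τ) (hK1 : (10 : ℝ) ^ 10 ≤ Z.card)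
    (hK4 : 10 ^ 11 * τ ≤ Z.card) (q : Seg) : ((at2 G q).card : ℝ) ≤ (Z.card : ℝ) / 10 ^ 5 := by
  have h1 := h.swap.caps q
  rw [f2_at] at h1
  have h2 : 2 * ((at2 G q).card : ℝ) ^ 2 ≤ ∑ u ∈ Z, (ee S f u : ℝ) + 4 * ((at2 G q).card : ℝ) := by
    exact_mod_cast h1
  obtain ⟨α, hα⟩ : ∃ α : ℝ, α = ((at2 G q).card : ℝ) := ⟨_, rfl⟩
  obtain ⟨K, hK⟩ : ∃ K : ℝ, K = (Z.card : ℝ) := ⟨_, rfl⟩
  rw [← hα] at h2 ⊢
  rw [← hK] at hE hK1 hK4 ⊢
  by_contra hc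
  rw [not_le, div_lt_iff₀ (by norm_num)] at hc
  have h3 : 0 < α := by
    by_contra h4
    have : α * 10 ^ 5 ≤ 0 := mul_nonpos_of_nonpos_of_nonneg (not_lt.1 h4) (by norm_num)
    have h5 : (0 : ℝ) < 10 ^ 10 := by norm_num
    linarith
  have h5 : (10 : ℝ) ^ 5 < α := by
    have h6 : (10 : ℝ) ^ 10 = 10 ^ 5 * 10 ^ 5 := by norm_num
    rw [h6] at hK1
    have h7 : (10 : ℝ) ^ 5 * 10 ^ 5 < α * 10 ^ 5 := lt_of_le_of_lt hK1 hc
    exact lt_of_mul_lt_mul_right h7 (by norm_num)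
  have h6 : τ * 10 ^ 6 ≤ α := by
    have h7 : τ * 10 ^ 6 * 10 ^ 5 ≤ α * 10 ^ 5 := by
      have e : τ * 10 ^ 6 * 10 ^ 5 = 10 ^ 11 * τ := by ring
      rw [e]
      exact hK4.trans hc.le
    exact le_of_mul_le_mul_right h7 (by norm_num)
  have h7 : K * τ * 10 ≤ α * α := by
    have a1 : K * (τ * 10 ^ 6) ≤ α * 10 ^ 5 * α :=
      mul_le_mul hc.le h6 (by positivity) (by positivity)
    have e1 : K * (τ * 10 ^ 6) = K * τ * 10 * 10 ^ 5 := by ring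
    have e2 : α * 10 ^ 5 * α = α * α * 10 ^ 5 := by ring
    rw [e1, e2] at a1
    exact le_of_mul_le_mul_right a1 (by norm_num)
  have h8 : (10 : ℝ) ^ 5 * α < α * α := mul_lt_mul_of_pos_right h5 h3
  have e3 : α ^ 2 = α * α := sq α
  have e4 : 12 * K * τ = 12 * (K * τ) := by ring
  rw [e3] at h2
  rw [e4] at hE
  have h9 : (10 : ℝ) ^ 5 * α = 100000 * α := by norm_num
  linarith

theorem f2_gs {s : ℝ} (C : Cx s ε h0 S Z) (hH : Set.InjOn (Ht ε) S) (f : Pt → Bool) (τ : ℝ)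
    (hτ : 0 ≤ τ)
    (hE : ∑ z ∈ Z, (ee S f z : ℝ) ≤ 12 * Z.card * τ) (hK1 : (10 : ℝ) ^ 10 ≤ Z.card)
    (hK2 : (10 : ℝ) ^ 24 * Z.card ≤ S.card) (hK3 : (S.card : ℝ) ≤ (Z.card : ℝ) ^ 2)
    (hK4 : 10 ^ 11 * τ ≤ Z.card) (κ : Bool) :
    ((GS s ε h0 f S Z 1000 κ).card : ℝ) < S.card * Z.card / 20 := by
  have hc := good_conf C f 1000 κ
  have hI : ((Low ε S h0).card : ℝ) ≤ S.card := by
    have : (Low ε S h0).card ≤ S.card := Finset.card_le_card (Finset.filter_subset _ _)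
    exact_mod_cast this
  refine hc.bound hH le_rfl hI (le_trans (by norm_num) hK1) hK2 hK3
    (f2_cap hc hτ hE hK1 hK4) ?_
  have h1 := good_card C f 1000 κ
  have h2 : ((GS s ε h0 f S Z 1000 κ).card : ℝ) ≤ (Low ε S h0).card * Z.card := by
    exact_mod_cast h1
  exact h2.trans (mul_le_mul_of_nonneg_right hI (Nat.cast_nonneg _))

theorem f2_sum {s : ℝ} (C : Cx s ε h0 S Z) (hH : Set.InjOn (Ht ε) S) (f : Pt → Bool) (τ : ℝ)
    (hτ : 0 ≤ τ)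
    (hE : ∑ z ∈ Z, (ee S f z : ℝ) ≤ 12 * Z.card * τ) (hK1 : (10 : ℝ) ^ 10 ≤ Z.card)
    (hK2 : (10 : ℝ) ^ 24 * Z.card ≤ S.card) (hK3 : (S.card : ℝ) ≤ (Z.card : ℝ) ^ 2)
    (hK4 : 10 ^ 11 * τ ≤ Z.card) :
    ∑ x ∈ Z, ((LG s ε h0 f S Z 1000 x).card : ℝ) ≤
      S.card * Z.card / 10 + 2 * (Z.card : ℝ) ^ 2 + 2007 * ∑ z ∈ Z, (ee S f z : ℝ) := by
  have h1 := sq_sum C f 1000
  have h2 := good_split C f 1000
  have h1' : ∑ x ∈ Z, ((LG s ε h0 f S Z 1000 x).card : ℝ) ≤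
      (SQ s ε h0 f S Z 1000).card + 2 * (Z.card : ℝ) ^ 2 + ∑ x ∈ Z, (ee S f x : ℝ) := by
    exact_mod_cast h1
  have h2' : ((SQ s ε h0 f S Z 1000).card : ℝ) ≤ (GS s ε h0 f S Z 1000 true).card +
      (GS s ε h0 f S Z 1000 false).card + 2006 * ∑ z ∈ Z, (ee S f z : ℝ) := by
    have h3 : (SQ s ε h0 f S Z 1000).card ≤ (GS s ε h0 f S Z 1000 true).card +
      (GS s ε h0 f S Z 1000 false).card + 2006 * ∑ z ∈ Z, ee S f z := h2
    exact_mod_cast h3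
  have h4 := f2_gs C hH f τ hτ hE hK1 hK2 hK3 hK4 true
  have h5 := f2_gs C hH f τ hτ hE hK1 hK2 hK3 hK4 false
  linarith

theorem f2_num {n K I E τ SG A B : ℝ} (hI1 : n ≤ 2 * I) (hI2 : I ≤ n) (hτ : 0 ≤ τ)
    (hE : E ≤ 12 * K * τ) (hK1 : (10 : ℝ) ^ 10 ≤ K)
    (hK2 : (10 : ℝ) ^ 24 * K ≤ n) (hK4 : 10 ^ 11 * τ ≤ K) (hτ2 : τ ≤ n / 10 ^ 36)
    (h1 : K * ((I - (3 + 24 * τ)) / 2) ≤ SG + 2 * K + 2 * E + (n * (6 + 24 * τ) + 6 * (τ * n)))
    (h2 : 1000 * SG ≤ 1000 * A + 1000 * B + 2 * (I * K))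
    (hA : A ≤ n * K / 10 + 2 * K ^ 2 + 2007 * E) (hB : B ≤ n * K / 10 + 2 * K ^ 2 + 2007 * E) :
    False := by
  have k0 : 0 < K := lt_of_lt_of_le (by norm_num) hK1
  have n0 : 0 < n := lt_of_lt_of_le (mul_pos (by norm_num) k0) hK2
  have P0 : 0 < n * K := mul_pos n0 k0
  have a1 : n * K ≤ 2 * (I * K) := by
    have := mul_le_mul_of_nonneg_right hI1 k0.le
    linarith
  have a2 : I * K ≤ n * K := mul_le_mul_of_nonneg_right hI2 k0.le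
  have a3 : (10 : ℝ) ^ 36 * (K * τ) ≤ n * K := by
    rw [le_div_iff₀ (by norm_num)] at hτ2
    have := mul_le_mul_of_nonneg_right hτ2 k0.le
    linarith
  have a4 : (10 : ℝ) ^ 24 * K ^ 2 ≤ n * K := by
    have := mul_le_mul_of_nonneg_right hK2 k0.le
    have e : (10 : ℝ) ^ 24 * K ^ 2 = 10 ^ 24 * K * K := by ring
    rw [e]
    exact this
  have a5 : (10 : ℝ) ^ 10 * n ≤ n * K := by
    have := mul_le_mul_of_nonneg_left hK1 n0.le
    linarith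
  have a6 : (10 : ℝ) ^ 11 * (τ * n) ≤ n * K := by
    have := mul_le_mul_of_nonneg_left hK4 n0.le
    linarith
  have a7 : K ≤ n := by
    have h3 : (1 : ℝ) * K ≤ 10 ^ 24 * K := mul_le_mul_of_nonneg_right (by norm_num) k0.le
    linarith
  have e1 : K * ((I - (3 + 24 * τ)) / 2) = I * K / 2 - 3 / 2 * K - 12 * (K * τ) := by ring
  have e2 : n * (6 + 24 * τ) = 6 * n + 24 * (τ * n) := by ring
  have e3 : 12 * K * τ = 12 * (K * τ) := by ring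
  rw [e1, e2] at h1
  rw [e3] at hE
  have b3 : 1000000000 * (K * τ) ≤ n * K := by
    have : (1000000000 : ℝ) * (K * τ) ≤ 10 ^ 36 * (K * τ) :=
      mul_le_mul_of_nonneg_right (by norm_num) (by positivity)
    linarith
  have b4 : 1000000000 * K ^ 2 ≤ n * K := by
    have : (1000000000 : ℝ) * K ^ 2 ≤ 10 ^ 24 * K ^ 2 :=
      mul_le_mul_of_nonneg_right (by norm_num) (by positivity)
    linarith
  have b5 : 1000000000 * n ≤ n * K := by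
    have : (1000000000 : ℝ) * n ≤ 10 ^ 10 * n :=
      mul_le_mul_of_nonneg_right (by norm_num) n0.le
    linarith
  have b6 : 1000000000 * (τ * n) ≤ n * K := by
    have : (1000000000 : ℝ) * (τ * n) ≤ 10 ^ 11 * (τ * n) :=
      mul_le_mul_of_nonneg_right (by norm_num) (by positivity)
    linarith
  linarith

theorem block_false (C : Cx 1 ε h0 S Z) (f : Pt → Bool) (τ : ℝ) (hτ : 0 ≤ τ)
    (hT : ((Tri S f).card : ℝ) ≤ τ * S.card) (hL : (S.card : ℝ) ≤ 2 * (Low ε S h0).card)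
    (hE : ∑ z ∈ Z, (ee S f z : ℝ) ≤ 12 * Z.card * τ) (hK1 : (10 : ℝ) ^ 10 ≤ Z.card)
    (hK2 : (10 : ℝ) ^ 24 * Z.card ≤ S.card) (hK3 : (S.card : ℝ) ≤ (Z.card : ℝ) ^ 2)
    (hK4 : 10 ^ 11 * τ ≤ Z.card) (hτ2 : τ ≤ S.card / 10 ^ 36) : False := by
  have hH := C.inj
  have h1 := sum_good C.gp f hH τ hτ hT h0 hL Z C.sub C.hi C.cov
  have h2 := light_sum C f 1000
  have h2' : 1000 * ∑ x ∈ Z, ((Gd ε h0 f S Z x).card : ℝ) ≤
      1000 * ∑ x ∈ Z, ((LG 1 ε h0 f S Z 1000 x).card : ℝ) +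
        1000 * ∑ x ∈ Z, ((LG (-1) ε h0 f S Z 1000 x).card : ℝ) +
        2 * (((Low ε S h0).card : ℝ) * Z.card) := by
    exact_mod_cast h2
  have hA := f2_sum C hH f τ hτ hE hK1 hK2 hK3 hK4
  have hB := f2_sum C.neg hH f τ hτ hE hK1 hK2 hK3 hK4
  have hI : ((Low ε S h0).card : ℝ) ≤ S.card := by
    have : (Low ε S h0).card ≤ S.card := Finset.card_le_card (Finset.filter_subset _ _)
    exact_mod_cast this
  exact f2_num hL hI hτ hE hK1 hK2 hK4 hτ2 h1 h2' hA hB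

end Pool.Agent.Lib.MP_9ff0e7_co
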