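import Pool.Agent.Lib.MP_9ff0e7_co.Q.F2
import Pool.Agent.Lib.MP_9ff0e7_co.Block

/-!
Row F3. The quadratic lower bound.

Proof. By contradiction: T < n^2/10^36 with n = card S >= 10^60 (n a real number below). Let K = ⌈n/10^25⌉₊, so n/10^25 <= K <= n/10^25 + 1 <= 10^-24 n and
K >= 10^35. 8 K <= n. exists_block (Block.lean) gives Z, h0 with card Z = K, heights >= h0, the covering property,
n <= 2 card (Low h0) and n * sum ee <= 12 K T. τ := n/10^36: T <= τ n. n * sum ee <= 12 K T <= 12 K τ n, so sum ee <= 12 K τ. Cx 1 ε h0 S Z from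
the data. block_false: 10^10 <= K, 10^24 K <= n, n <= K^2 (K^2 >= n^2/10^50 >= n as n >= 10^50), 10^11 τ = n/10^25 <= K,
τ <= n/10^36.
-/

set_option autoImplicit false
open scoped Classical

namespace Pool.Agent.Lib.MP_9ff0e7_co

theorem main_quad (S : Finset Pt) (hS : GP S) (ε : ℝ) (hH : Set.InjOn (Ht ε) S)
    (f : Pt → Bool) (hn : 10 ^ 60 ≤ S.card) :
    (S.card : ℝ) ^ 2 / 10 ^ 36 ≤ (Tri S f).card := by
  by_contra hcon
  push Not at hcon
  set n := S.card with hnn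
  have hn' : (10 : ℝ) ^ 60 ≤ n := by exact_mod_cast hn
  have hn0 : (0 : ℝ) < n := lt_of_lt_of_le (by positivity) hn'
  set K := ⌈(n : ℝ) / 10 ^ 25⌉₊ with hK
  have hK1 : (n : ℝ) / 10 ^ 25 ≤ K := Nat.le_ceil _
  have hK2 : (K : ℝ) ≤ n / 10 ^ 25 + 1 := (Nat.ceil_lt_add_one (by positivity)).le
  have hK35 : (10 : ℝ) ^ 35 ≤ K := by
    refine le_trans ?_ hK1
    rw [le_div_iff₀ (by positivity)]
    refine le_trans (le_of_eq ?_) hn'
    norm_num
  have hKpos : 0 < K := by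
    have : (0 : ℝ) < K := lt_of_lt_of_le (by positivity) hK35
    exact_mod_cast this
  have hK24 : (10 : ℝ) ^ 24 * K ≤ n := by
    have h1 : (10 : ℝ) ^ 24 * K ≤ 10 ^ 24 * (n / 10 ^ 25 + 1) :=
      mul_le_mul_of_nonneg_left hK2 (by positivity)
    have h2 : (10 : ℝ) ^ 24 * (n / 10 ^ 25 + 1) = n / 10 + 10 ^ 24 := by ring
    have h3 : (10 : ℝ) ^ 24 ≤ n / 10 := by
      rw [le_div_iff₀ (by norm_num)]
      refine le_trans ?_ hn'
      norm_num
    linarith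
  have h8 : 8 * K ≤ S.card := by
    have : (8 * K : ℝ) ≤ n := by
      have h0 : (0 : ℝ) ≤ K := Nat.cast_nonneg K
      have h1 : (8 : ℝ) * K ≤ 10 ^ 24 * K := mul_le_mul_of_nonneg_right (by norm_num) h0
      linarith
    exact_mod_cast this
  obtain ⟨Z, h0, hZS, hZc, hZ0, hcov, hL, hE⟩ := exists_block hH f hKpos h8
  set τ : ℝ := (n : ℝ) / 10 ^ 36 with hτd
  have hτ : 0 ≤ τ := by positivity
  have hT : ((Tri S f).card : ℝ) ≤ τ * n := by
    have : τ * n = (n : ℝ) ^ 2 / 10 ^ 36 := by rw [hτd]; ring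
    rw [this]; exact hcon.le
  have hE' : (n : ℝ) * ∑ z ∈ Z, (ee S f z : ℝ) ≤ 12 * K * (Tri S f).card := by exact_mod_cast hE
  have hEb : ∑ z ∈ Z, (ee S f z : ℝ) ≤ 12 * Z.card * τ := by
    rw [hZc]
    have h1 : (n : ℝ) * ∑ z ∈ Z, (ee S f z : ℝ) ≤ n * (12 * K * τ) := by
      have : 12 * (K : ℝ) * (Tri S f).card ≤ 12 * K * (τ * n) :=
        mul_le_mul_of_nonneg_left hT (by positivity)
      calc _ ≤ _ := hE'
        _ ≤ _ := this
        _ = _ := by ring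
    exact le_of_mul_le_mul_left h1 hn0
  have C : Cx 1 ε h0 S Z := ⟨hS, one_ne_zero, hH, hZS, hZ0, hcov⟩
  refine block_false C f τ hτ hT (by exact_mod_cast hL) hEb ?_ ?_ ?_ ?_ le_rfl
  · rw [hZc]
    refine le_trans ?_ hK35
    norm_num
  · rw [hZc]; exact hK24
  · rw [hZc]
    have h1 : ((n : ℝ) / 10 ^ 25) ^ 2 ≤ (K : ℝ) ^ 2 := pow_le_pow_left₀ (by positivity) hK1 2
    refine le_trans ?_ h1
    have h2 : ((n : ℝ) / 10 ^ 25) ^ 2 = n * (n / 10 ^ 50) := by ring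
    rw [h2]
    have h3 : (1 : ℝ) ≤ n / 10 ^ 50 := by
      rw [le_div_iff₀ (by positivity), one_mul]
      refine le_trans ?_ hn'
      norm_num
    have h4 := mul_le_mul_of_nonneg_left h3 hn0.le
    linarith
  · rw [hZc]
    refine le_trans (le_of_eq ?_) hK1
    rw [hτd]; ring

end Pool.Agent.Lib.MP_9ff0e7_co
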