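import Pool.Agent.Lib.MP_9ff0e7_co.Q.F3

/-!
The quadratic lower bound for sets of points without three collinear ones, with explicit
constants.
-/

set_option autoImplicit false
open scoped Classical

namespace Pool.Agent.Lib.MP_9ff0e7_co

theorem fin_collinear_of_D {a b c : ℝ × ℝ} (hab : a ≠ b) (h : D 1 a b c = 0) :
    Collinear ℝ ({a, b, c} : Set (ℝ × ℝ)) := by
  rw [collinear_iff_of_mem (p₀ := a) (by simp)]
  refine ⟨b - a, ?_⟩
  intro p hp
  simp only [Set.mem_insert_iff, Set.mem_singleton_iff] at hp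
  rcases hp with rfl | rfl | rfl
  · exact ⟨0, by simp⟩
  · exact ⟨1, by simp⟩
  · unfold D at h
    by_cases h1 : b.1 - a.1 = 0
    · have h2 : b.2 - a.2 ≠ 0 := by
        intro h2
        apply hab
        exact Prod.ext (by linarith) (by linarith)
      refine ⟨(p.2 - a.2) / (b.2 - a.2), ?_⟩
      rw [h1] at h
      have h3 : p.1 - a.1 = 0 := by
        have : (b.2 - a.2) * (p.1 - a.1) = 0 := by linarith
        exact (mul_eq_zero.1 this).resolve_left h2
      apply Prod.ext
      · simp [h1]; linarith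
      · simp; field_simp; ring
    · refine ⟨(p.1 - a.1) / (b.1 - a.1), ?_⟩
      apply Prod.ext
      · simp; field_simp; ring
      · simp; field_simp; linarith

theorem fin_exists_height (S : Finset (ℝ × ℝ)) : ∃ ε : ℝ, Set.InjOn (Ht ε) S := by
  obtain ⟨ε, hε⟩ := Infinite.exists_notMem_finset
    ((S ×ˢ S).image (fun q => (q.2.2 - q.1.2) / (q.1.1 - q.2.1)))
  refine ⟨ε, ?_⟩
  intro a ha b hb hab
  by_contra hne
  unfold Ht at hab
  by_cases h1 : a.1 = b.1
  · apply hne
    rw [h1] at hab
    exact Prod.ext h1 (by linarith)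
  · apply hε
    rw [Finset.mem_image]
    refine ⟨(a, b), Finset.mem_product.2 ⟨ha, hb⟩, ?_⟩
    have h2 : a.1 - b.1 ≠ 0 := sub_ne_zero.2 h1
    simp only
    rw [div_eq_iff h2]
    linarith

/-- The quadratic lower bound with explicit constants. -/
theorem quad_final (X : Finset (ℝ × ℝ)) (hN : 10 ^ 60 ≤ X.card)
    (hX : ∀ T : Finset (ℝ × ℝ), T ⊆ X → T.card = 3 →
        ¬ Collinear ℝ ((↑T : Set (ℝ × ℝ)))) (f : ℝ × ℝ → Bool) :
    1 / 10 ^ 36 * ((X.card : ℝ) ^ 2) ≤
          (((X.powersetCard 3).filter (fun T : Finset (ℝ × ℝ) =>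
              (∃ b : Bool, ∀ x ∈ T, f x = b) ∧
              Disjoint (convexHull ℝ ((↑T : Set (ℝ × ℝ))))
                ((↑(X \ T) : Set (ℝ × ℝ))))).card : ℝ) := by
  have hGP : GP X := by
    intro a ha b hb c hc hab hac hbc h0
    have hcol := fin_collinear_of_D hab h0
    apply hX {a, b, c}
    · intro y hy
      simp only [Finset.mem_insert, Finset.mem_singleton] at hy
      rcases hy with rfl | rfl | rfl <;> assumption
    · rw [Finset.card_insert_of_notMem, Finset.card_insert_of_notMem, Finset.card_singleton]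
      · simpa using hbc
      · simp [hab, hac]
    · simpa using hcol
  obtain ⟨ε, hH⟩ := fin_exists_height X
  have h := main_quad X hGP ε hH f hN
  calc 1 / 10 ^ 36 * ((X.card : ℝ) ^ 2) = (X.card : ℝ) ^ 2 / 10 ^ 36 := by ring
    _ ≤ ((Tri X f).card : ℝ) := h
    _ = _ := by unfold Tri; rfl

end Pool.Agent.Lib.MP_9ff0e7_co
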