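import Pool.Agent.Lib.MP_9ff0e7_co.Q.Defs

/-!
Row P1. The crossing lemma: comparing two downward segments at two heights.

Proof. H = Ht ε. H w <= H t < H v < H v', H w' <= H t. Let θ = (H v - H t)/(H v - H w) in (0, 1], P0 = (1-θ) v + θ w, so
H P0 = H t (Ht is affine). Let r = P0 - t; its height component is 0: r.2 + ε r.1 = 0, so r = (r1, -ε r1).
(a) s * r1 >= 0: D s v t P0 = θ D s v t w >= 0 (D_aff, D_abb..., D s v t v = 0) and also
    D s v t P0 = D s v t P0 - D s v t t = s * ((t-v).1 * r.2 - (t-v).2 * r.1) = - s r1 (H t - H v) = s r1 (H v - H t).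
(b) D s v' w' P0 = D s v' w' t + s r1 (H v' - H w') >= 0, since D s v' w' P0 - D s v' w' t =
    s * ((w'-v').1 * r.2 - (w'-v').2 * r.1) = - s r1 (H w' - H v'). It is > 0: otherwise D s v' w' t = 0 and s r1 = 0; the
    first gives t = w' (general position; t ≠ v' by height, v' ≠ w'), the second D s v t w = 0 (θ > 0), so t = w (general
    position, v ≠ w, v ≠ t), against hne.
(c) ψ(q) = D s v' w' q, ψ(v) = D s v' w' v = - D s v' v w' < 0 < ψ(P0). On the segment: ψ((1-λ) v + λ w) is affine in λ, negative at 0,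
    positive at θ. Let λ = the zero: with ψ(w) defined by ψ(P0) = (1-θ) ψ(v) + θ ψ(w) > 0 and ψ(v) < 0 we have ψ(w) > 0 and
    λ = -ψ(v)/(ψ(w) - ψ(v)) satisfies 0 < λ < θ <= 1 (λ < θ iff 0 < (1-θ)ψ(v) + θψ(w)). M = (1-λ) v + λ w, ψ(M) = 0.
(d) H t < H M < H v since 0 < λ < θ. Let μ = (H v' - H M)/(H v' - H w'), 0 < μ < 1 since H w' <= H t < H M < H v < H v'. Then
    M = (1-μ) v' + μ w': the difference M - ((1-μ) v' + μ w') has height component 0 and D s v' w' of it vanishes; as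
    H v' ≠ H w' both coordinates vanish (s ≠ 0).
So Crs (v, w) (v', w') with l = λ, m = μ.
-/

set_option autoImplicit false
open scoped Classical

namespace Pool.Agent.Lib.MP_9ff0e7_co

/-- the purely algebraic part. -/
theorem p1_alg {s ε v1 v2 w1 w2 a1 a2 b1 b2 t1 t2 : ℝ} (hs : s ≠ 0)
    (hwt : w2 + ε * w1 ≤ t2 + ε * t1) (hwt' : b2 + ε * b1 ≤ t2 + ε * t1)
    (htv : t2 + ε * t1 < v2 + ε * v1) (hvv : v2 + ε * v1 < a2 + ε * a1)
    (h1 : 0 < s * ((v1 - a1) * (b2 - a2) - (v2 - a2) * (b1 - a1)))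
    (h2 : 0 ≤ s * ((b1 - a1) * (t2 - a2) - (b2 - a2) * (t1 - a1)))
    (h3 : 0 ≤ s * ((t1 - v1) * (w2 - v2) - (t2 - v2) * (w1 - v1)))
    (hz : s * ((b1 - a1) * (t2 - a2) - (b2 - a2) * (t1 - a1)) = 0 →
      s * ((t1 - v1) * (w2 - v2) - (t2 - v2) * (w1 - v1)) = 0 → False) :
    ∃ l m : ℝ, 0 < l ∧ l < 1 ∧ 0 < m ∧ m < 1 ∧
      (1 - l) * v1 + l * w1 = (1 - m) * a1 + m * b1 ∧
      (1 - l) * v2 + l * w2 = (1 - m) * a2 + m * b2 := by
  set hv := v2 + ε * v1 with ehv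
  set hw := w2 + ε * w1 with ehw
  set ha := a2 + ε * a1 with eha
  set hb := b2 + ε * b1 with ehb
  set ht := t2 + ε * t1 with eht
  have k1 : 0 < hv - hw := by linarith
  have k2 : 0 < ha - hb := by linarith
  obtain ⟨θ, eθ⟩ : ∃ θ, θ = (hv - ht) / (hv - hw) := ⟨_, rfl⟩
  have θ0 : 0 < θ := by rw [eθ]; exact div_pos (by linarith) k1
  have θ1 : θ ≤ 1 := by rw [eθ, div_le_one k1]; linarith
  have eθ' : θ * (hv - hw) = hv - ht := by rw [eθ]; exact div_mul_cancel₀ _ k1.ne'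
  obtain ⟨r, er⟩ : ∃ r, r = (1 - θ) * v1 + θ * w1 - t1 := ⟨_, rfl⟩
  have er2 : (1 - θ) * v2 + θ * w2 - t2 = -ε * r := by
    rw [er]
    have : θ * (v2 + ε * v1 - (w2 + ε * w1)) = v2 + ε * v1 - (t2 + ε * t1) := eθ'
    linarith
  -- (a)
  have a1' : θ * (s * ((t1 - v1) * (w2 - v2) - (t2 - v2) * (w1 - v1))) =
      s * r * (hv - ht) := by
    have e : θ * (s * ((t1 - v1) * (w2 - v2) - (t2 - v2) * (w1 - v1))) =
        s * ((t1 - v1) * (((1 - θ) * v2 + θ * w2 - t2) + (t2 - v2)) -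
          (t2 - v2) * (((1 - θ) * v1 + θ * w1 - t1) + (t1 - v1))) := by ring
    rw [e, er2, ← er, ehv, eht]
    ring
  have sr : 0 ≤ s * r := by
    have h4 : 0 ≤ s * r * (hv - ht) := by rw [← a1']; exact mul_nonneg θ0.le h3
    exact nonneg_of_mul_nonneg_left h4 (by linarith)
  -- (b)
  obtain ⟨pv, epv⟩ : ∃ x, x = s * ((b1 - a1) * (v2 - a2) - (b2 - a2) * (v1 - a1)) := ⟨_, rfl⟩
  obtain ⟨pw, epw⟩ : ∃ x, x = s * ((b1 - a1) * (w2 - a2) - (b2 - a2) * (w1 - a1)) := ⟨_, rfl⟩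
  have pv0 : pv < 0 := by rw [epv]; linarith
  have b1' : (1 - θ) * pv + θ * pw =
      s * ((b1 - a1) * (t2 - a2) - (b2 - a2) * (t1 - a1)) + s * r * (ha - hb) := by
    have e : (1 - θ) * pv + θ * pw =
        s * ((b1 - a1) * (((1 - θ) * v2 + θ * w2 - t2) + (t2 - a2)) -
          (b2 - a2) * (((1 - θ) * v1 + θ * w1 - t1) + (t1 - a1))) := by
      rw [epv, epw]; ring
    rw [e, er2, ← er, eha, ehb]
    ring
  have b0 : 0 < (1 - θ) * pv + θ * pw := by
    have h5 : 0 ≤ s * r * (ha - hb) := mul_nonneg sr k2.le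
    rcases eq_or_lt_of_le h2 with h6 | h6
    · rcases eq_or_lt_of_le h5 with h7 | h7
      · exfalso
        have h8 : s * r = 0 := by
          rcases mul_eq_zero.1 h7.symm with h8 | h8
          · exact h8
          · exact absurd h8 k2.ne'
        apply hz h6.symm
        rw [h8, zero_mul] at a1'
        rcases mul_eq_zero.1 a1' with h9 | h9
        · exact absurd h9 θ0.ne'
        · exact h9
      · rw [b1']; linarith
    · rw [b1']; linarith
  -- (c)
  have pw0 : 0 < pw := by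
    have h6 : 0 < θ * pw := by
      have : (1 - θ) * pv ≤ 0 := mul_nonpos_of_nonneg_of_nonpos (by linarith) pv0.le
      linarith
    exact (mul_pos_iff_of_pos_left θ0).1 h6
  have k3 : 0 < pw - pv := by linarith
  obtain ⟨l, el⟩ : ∃ l, l = -pv / (pw - pv) := ⟨_, rfl⟩
  have l0 : 0 < l := by rw [el]; exact div_pos (by linarith) k3
  have lθ : l < θ := by
    rw [el, div_lt_iff₀ k3]
    linarith
  have el' : l * (pw - pv) = -pv := by rw [el]; exact div_mul_cancel₀ _ k3.ne'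
  obtain ⟨hM, ehM⟩ : ∃ x, x = (1 - l) * hv + l * hw := ⟨_, rfl⟩
  have m1 : ht < hM := by
    have e : hM - ht = (θ - l) * (hv - hw) := by rw [ehM]; linarith
    have : 0 < (θ - l) * (hv - hw) := mul_pos (by linarith) k1
    linarith
  have m2 : hM < hv := by
    have e : hv - hM = l * (hv - hw) := by rw [ehM]; ring
    have : 0 < l * (hv - hw) := mul_pos l0 k1
    linarith
  obtain ⟨m, em⟩ : ∃ m, m = (ha - hM) / (ha - hb) := ⟨_, rfl⟩
  have m0 : 0 < m := by rw [em]; exact div_pos (by linarith) k2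
  have m3 : m < 1 := by rw [em, div_lt_one k2]; linarith
  have em' : m * (ha - hb) = ha - hM := by rw [em]; exact div_mul_cancel₀ _ k2.ne'
  obtain ⟨d, ed⟩ : ∃ d, d = (1 - l) * v1 + l * w1 - ((1 - m) * a1 + m * b1) := ⟨_, rfl⟩
  have ed2 : (1 - l) * v2 + l * w2 - ((1 - m) * a2 + m * b2) = -ε * d := by
    rw [ed]
    have h6 : m * (a2 + ε * a1 - (b2 + ε * b1)) =
        a2 + ε * a1 - ((1 - l) * (v2 + ε * v1) + l * (w2 + ε * w1)) := by
      rw [ehM] at em'; exact em'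
    linarith
  have hd : s * d * (ha - hb) = 0 := by
    have e : (1 - l) * pv + l * pw =
        s * ((b1 - a1) * (((1 - l) * v2 + l * w2 - ((1 - m) * a2 + m * b2)) + m * (b2 - a2)) -
          (b2 - a2) * (((1 - l) * v1 + l * w1 - ((1 - m) * a1 + m * b1)) + m * (b1 - a1))) := by
      rw [epv, epw]; ring
    rw [ed2, ← ed] at e
    have e0 : (1 - l) * pv + l * pw = 0 := by linarith
    rw [e0] at e
    rw [eha, ehb]
    linarith
  have d0 : d = 0 := by
    rcases mul_eq_zero.1 hd with h6 | h6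
    · rcases mul_eq_zero.1 h6 with h7 | h7
      · exact absurd h7 hs
      · exact h7
    · exact absurd h6 k2.ne'
  refine ⟨l, m, l0, by linarith, m0, m3, ?_, ?_⟩
  · rw [d0] at ed; linarith
  · rw [d0] at ed2; linarith

theorem cross_of {V : Finset Pt} (hV : GP V) {s ε : ℝ} (hs : s ≠ 0) {v w v' w' t : Pt}
    (mv : v ∈ V) (mw : w ∈ V) (mv' : v' ∈ V) (mw' : w' ∈ V) (mt : t ∈ V)
    (hwt : Ht ε w ≤ Ht ε t) (hwt' : Ht ε w' ≤ Ht ε t) (htv : Ht ε t < Ht ε v)
    (hvv : Ht ε v < Ht ε v') (h1 : 0 < D s v' v w') (h2 : 0 ≤ D s v' w' t)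
    (h3 : 0 ≤ D s v t w) (hne : ¬ (t = w ∧ t = w')) : Crs (v, w) (v', w') := by
  have hvt : v ≠ t := by rintro rfl; exact lt_irrefl _ htv
  have hvw : v ≠ w := by rintro rfl; exact absurd hwt (not_le.2 htv)
  have hvt' : v' ≠ t := by rintro rfl; exact absurd (htv.trans hvv) (lt_irrefl _)
  have hvw' : v' ≠ w' := by rintro rfl; exact absurd (htv.trans hvv) (not_lt.2 hwt')
  have key := p1_alg (s := s) (ε := ε) (v1 := v.1) (v2 := v.2) (w1 := w.1) (w2 := w.2)
    (a1 := v'.1) (a2 := v'.2) (b1 := w'.1) (b2 := w'.2) (t1 := t.1) (t2 := t.2) hs hwt hwt' htv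
    hvv h1 h2 h3 (by
      intro e1 e2
      apply hne
      constructor
      · by_contra hc
        exact hV.ne hs mv mt mw hvt hvw hc e2
      · by_contra hc
        exact hV.ne hs mv' mw' mt hvw' hvt' (fun h => hc h.symm) e1)
  obtain ⟨l, m, l0, l1, m0, m1, e1, e2⟩ := key
  refine ⟨l, m, l0, l1, m0, m1, ?_⟩
  ext
  · simpa using e1
  · simpa using e2

end Pool.Agent.Lib.MP_9ff0e7_co
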