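import Pool.Agent.Lib.MP_9ff0e7_co.Q.P6

/-!
Row P8. Sampling the vertices.

Proof. For T ⊆ W let m T = (∏_{i in T} p)(∏_{i in W \ T} (1 - p)) >= 0. By `prob` with the constant function u = p:
sum_{T ⊇ A} m T = p ^ card A for A ⊆ W (Finset.prod_const). Multiply h T by m T and sum over T in W.powerset:
left: 2 sum_f u f (sum_{T ∋ f.1, f.2} m T) = 2 p^2 sum u f (A = {f.1, f.2}, f.1 ≠ f.2, card 2);
right: 8 sum_T m T card T = 8 p card W (A = {i}), and sum_{q in R} w q p^4 (A = {q.1.1, q.1.2, q.2.1, q.2.2}, 4 different points: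
hF for q.1, q.2 and hR). Rewrite sums over filters as sums of ite (Finset.sum_filter) and exchange (Finset.sum_comm).
Helper lemma: T.card = sum_{i in W} if i ∈ T then 1 else 0 for T ⊆ W.
-/

set_option autoImplicit false
open scoped Classical

namespace Pool.Agent.Lib.MP_9ff0e7_co

theorem sampling {α : Type*} (W : Finset α) (F : Finset (α × α))
    (hF : ∀ e ∈ F, e.1 ∈ W ∧ e.2 ∈ W ∧ e.1 ≠ e.2) (u : α × α → ℝ)
    (R : Finset ((α × α) × (α × α)))
    (hR : ∀ q ∈ R, q.1 ∈ F ∧ q.2 ∈ F ∧ q.1.1 ≠ q.2.1 ∧ q.1.1 ≠ q.2.2 ∧ q.1.2 ≠ q.2.1 ∧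
      q.1.2 ≠ q.2.2) (w : (α × α) × (α × α) → ℝ)
    (h : ∀ T ⊆ W, 2 * ∑ e ∈ F.filter (fun e => e.1 ∈ T ∧ e.2 ∈ T), u e ≤
      8 * (T.card : ℝ) + ∑ q ∈ R.filter (fun q => q.1.1 ∈ T ∧ q.1.2 ∈ T ∧ q.2.1 ∈ T ∧
        q.2.2 ∈ T), w q) (p : ℝ) (hp0 : 0 ≤ p) (hp1 : p ≤ 1) :
    2 * (p ^ 2 * ∑ e ∈ F, u e) ≤ 8 * (p * W.card) + p ^ 4 * ∑ q ∈ R, w q := by
  set m : Finset α → ℝ := fun T => (∏ _i ∈ T, p) * ∏ _i ∈ W \ T, (1 - p) with hm
  have hm0 : ∀ T ∈ W.powerset, 0 ≤ m T := by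
    intro T _
    apply mul_nonneg
    · exact Finset.prod_nonneg fun i _ => hp0
    · exact Finset.prod_nonneg fun i _ => sub_nonneg.2 hp1
  have pr : ∀ A ⊆ W, (∑ T ∈ W.powerset, if A ⊆ T then m T else 0) = p ^ A.card := by
    intro A hA
    have := prob W (fun _ => p) A hA
    rw [Finset.prod_const] at this
    exact this
  have p1 : ∀ i ∈ W, (∑ T ∈ W.powerset, if i ∈ T then m T else 0) = p := by
    intro i hi
    have := pr {i} (Finset.singleton_subset_iff.2 hi)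
    simpa using this
  have p2 : ∀ e ∈ F, (∑ T ∈ W.powerset, if e.1 ∈ T ∧ e.2 ∈ T then m T else 0) = p ^ 2 := by
    intro e he
    obtain ⟨h1, h2, h3⟩ := hF e he
    have hsub : ({e.1, e.2} : Finset α) ⊆ W := by
      intro y hy
      simp only [Finset.mem_insert, Finset.mem_singleton] at hy
      rcases hy with rfl | rfl <;> assumption
    have := pr {e.1, e.2} hsub
    rw [Finset.card_pair h3] at this
    rw [← this]
    apply Finset.sum_congr rfl
    intro T _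
    have : (e.1 ∈ T ∧ e.2 ∈ T) ↔ ({e.1, e.2} : Finset α) ⊆ T := by
      rw [Finset.insert_subset_iff, Finset.singleton_subset_iff]
    simp only [this]
  have p4 : ∀ q ∈ R, (∑ T ∈ W.powerset, if q.1.1 ∈ T ∧ q.1.2 ∈ T ∧ q.2.1 ∈ T ∧ q.2.2 ∈ T
      then m T else 0) = p ^ 4 := by
    intro q hq
    obtain ⟨h1, h2, h3, h4, h5, h6⟩ := hR q hq
    obtain ⟨a1, a2, a3⟩ := hF _ h1
    obtain ⟨b1, b2, b3⟩ := hF _ h2
    have hsub : ({q.1.1, q.1.2, q.2.1, q.2.2} : Finset α) ⊆ W := by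
      intro y hy
      simp only [Finset.mem_insert, Finset.mem_singleton] at hy
      rcases hy with rfl | rfl | rfl | rfl <;> assumption
    have hc : ({q.1.1, q.1.2, q.2.1, q.2.2} : Finset α).card = 4 := by
      rw [Finset.card_insert_of_notMem, Finset.card_insert_of_notMem, Finset.card_pair b3]
      · simp only [Finset.mem_insert, Finset.mem_singleton]
        push Not
        exact ⟨h5, h6⟩
      · simp only [Finset.mem_insert, Finset.mem_singleton]
        push Not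
        exact ⟨a3, h3, h4⟩
    have := pr _ hsub
    rw [hc] at this
    rw [← this]
    apply Finset.sum_congr rfl
    intro T _
    have : (q.1.1 ∈ T ∧ q.1.2 ∈ T ∧ q.2.1 ∈ T ∧ q.2.2 ∈ T) ↔
        ({q.1.1, q.1.2, q.2.1, q.2.2} : Finset α) ⊆ T := by
      rw [Finset.insert_subset_iff, Finset.insert_subset_iff, Finset.insert_subset_iff,
        Finset.singleton_subset_iff]
    simp only [this]
  have s1 : ∑ T ∈ W.powerset, m T * (2 * ∑ e ∈ F.filter (fun e => e.1 ∈ T ∧ e.2 ∈ T), u e) =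
      2 * (p ^ 2 * ∑ e ∈ F, u e) := by
    have : ∀ T ∈ W.powerset, m T * (2 * ∑ e ∈ F.filter (fun e => e.1 ∈ T ∧ e.2 ∈ T), u e) =
        ∑ e ∈ F, (2 * u e) * (if e.1 ∈ T ∧ e.2 ∈ T then m T else 0) := by
      intro T _
      rw [Finset.sum_filter, Finset.mul_sum, Finset.mul_sum]
      apply Finset.sum_congr rfl
      intro e _
      split_ifs <;> ring
    rw [Finset.sum_congr rfl this, Finset.sum_comm, Finset.mul_sum, Finset.mul_sum]
    apply Finset.sum_congr rfl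
    intro e he
    rw [← Finset.mul_sum, p2 e he]; ring
  have s2 : ∑ T ∈ W.powerset, m T * (8 * (T.card : ℝ)) = 8 * (p * W.card) := by
    have : ∀ T ∈ W.powerset, m T * (8 * (T.card : ℝ)) =
        ∑ i ∈ W, 8 * (if i ∈ T then m T else 0) := by
      intro T hT
      rw [← Finset.mul_sum, ← Finset.sum_filter, Finset.sum_const]
      have h2 : W.filter (fun i => i ∈ T) = T := by
        ext y
        rw [Finset.mem_filter]
        exact ⟨fun h => h.2, fun h => ⟨Finset.mem_powerset.1 hT h, h⟩⟩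
      rw [h2, nsmul_eq_mul]; ring
    rw [Finset.sum_congr rfl this, Finset.sum_comm]
    have h3 : ∀ i ∈ W, (∑ T ∈ W.powerset, 8 * (if i ∈ T then m T else 0)) = 8 * p := by
      intro i hi
      rw [← Finset.mul_sum, p1 i hi]
    rw [Finset.sum_congr rfl h3, Finset.sum_const, nsmul_eq_mul]; ring
  have s3 : ∑ T ∈ W.powerset, m T * (∑ q ∈ R.filter (fun q => q.1.1 ∈ T ∧ q.1.2 ∈ T ∧
        q.2.1 ∈ T ∧ q.2.2 ∈ T), w q) = p ^ 4 * ∑ q ∈ R, w q := by
    have : ∀ T ∈ W.powerset, m T * (∑ q ∈ R.filter (fun q => q.1.1 ∈ T ∧ q.1.2 ∈ T ∧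
        q.2.1 ∈ T ∧ q.2.2 ∈ T), w q) = ∑ q ∈ R, w q * (if q.1.1 ∈ T ∧ q.1.2 ∈ T ∧
        q.2.1 ∈ T ∧ q.2.2 ∈ T then m T else 0) := by
      intro T _
      rw [Finset.sum_filter, Finset.mul_sum]
      apply Finset.sum_congr rfl
      intro e _
      split_ifs <;> ring
    rw [Finset.sum_congr rfl this, Finset.sum_comm, Finset.mul_sum]
    apply Finset.sum_congr rfl
    intro q hq
    rw [← Finset.mul_sum, p4 q hq]; ring
  rw [← s1, ← s2, ← s3, ← Finset.sum_add_distrib]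
  apply Finset.sum_le_sum
  intro T hT
  have := mul_le_mul_of_nonneg_left (h T (Finset.mem_powerset.1 hT)) (hm0 T hT)
  rw [mul_add] at this
  exact this

end Pool.Agent.Lib.MP_9ff0e7_co
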