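import Pool.Agent.Lib.MP_9ff0e7_co.Q.P4
import Pool.Agent.Lib.MP_9ff0e7_co.Q.P8

/-!
Row P9. The weighted crossing inequality.

Proof. Step 1: for every T ⊆ W, with F_T = F.filter (e.1 ∈ T ∧ e.2 ∈ T): multiaffine on F_T with the weights u, N = 8 card T and
R = XP F_T : the hypothesis for F' ⊆ F_T is cross_le (V := T, GP and injectivity for subsets) with
(XP F_T).filter (q.1 ∈ F' ∧ q.2 ∈ F') = XP F' (unfold XP). hanti: colours (f e.1 = l, f e.2 = !l, so e.swap is not in F); e.1 ≠ e.2 by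
colours. So 2 sum_{F_T} u <= 8 card T + sum_{q in XP F_T} u q.1 u q.2, and XP F_T = (XP F).filter (all four endpoints in T).
Step 2: sampling with R = XP F, w q = u q.1 u q.2. hR: for (e, g) in XP F, e ≠ g, Crs e g with parameters a, b in (0,1),
M = (1-a) e.1 + a e.2 = (1-b) g.1 + b g.2. e.1 ≠ g.2 and e.2 ≠ g.1 by colours. If e.1 = g.1: then e.2 ≠ g.2;
D 1 e.1 e.2 M = 0 (D_aff), so (1-b) D 1 e.1 e.2 g.1 + b D 1 e.1 e.2 g.2 = 0, D 1 e.1 e.2 g.1 = 0, so D 1 e.1 e.2 g.2 = 0, contradiction with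
general position (e.1, e.2, g.2 different). If e.2 = g.2 the same.
Step 3: divide by 2 p^2: 2 p^2 sum u <= 8 p card W + p^4 sum => sum u <= 4 card W / p + p^2/2 sum.
-/

set_option autoImplicit false
open scoped Classical

namespace Pool.Agent.Lib.MP_9ff0e7_co

theorem p9_four {S : Finset Pt} (hS : GP S) {f : Pt → Bool} {l : Bool} {e g : Seg}
    (e1 : e.1 ∈ S) (e2 : e.2 ∈ S) (g1 : g.1 ∈ S) (g2 : g.2 ∈ S)
    (ce : f e.1 = l ∧ f e.2 = !l) (cg : f g.1 = l ∧ f g.2 = !l) (hne : e ≠ g)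
    (h : Crs e g) :
    e.1 ≠ g.1 ∧ e.1 ≠ g.2 ∧ e.2 ≠ g.1 ∧ e.2 ≠ g.2 := by
  have hl : l ≠ !l := by cases l <;> simp
  have c12 : e.1 ≠ g.2 := fun k => hl (ce.1.symm.trans ((congrArg f k).trans cg.2))
  have c21 : e.2 ≠ g.1 := fun k => hl (cg.1.symm.trans ((congrArg f k).symm.trans ce.2))
  have cee : e.1 ≠ e.2 := fun k => hl (ce.1.symm.trans ((congrArg f k).trans ce.2))
  obtain ⟨a, b, ha0, ha1, hb0, hb1, hM⟩ := h
  have hz : D 1 e.1 e.2 ((1 - a) • e.1 + a • e.2) = 0 := by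
    rw [D_aff, D_aba, D_abb]; ring
  rw [hM, D_aff] at hz
  refine ⟨?_, c12, c21, ?_⟩
  · intro k
    have k2 : e.2 ≠ g.2 := fun k' => hne (Prod.ext k k')
    rw [← k, D_aba] at hz
    have : D 1 e.1 e.2 g.2 ≠ 0 := hS e.1 e1 e.2 e2 g.2 g2 cee c12 k2
    apply this
    have hb : b * D 1 e.1 e.2 g.2 = 0 := by linarith
    rcases mul_eq_zero.1 hb with hb | hb
    · exact absurd hb hb0.ne'
    · exact hb
  · intro k
    have k2 : e.1 ≠ g.1 := fun k' => hne (Prod.ext k' k)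
    rw [← k, D_abb] at hz
    have : D 1 e.1 e.2 g.1 ≠ 0 := hS e.1 e1 e.2 e2 g.1 g1 cee k2 c21
    apply this
    have hb : (1 - b) * D 1 e.1 e.2 g.1 = 0 := by linarith
    rcases mul_eq_zero.1 hb with hb | hb
    · exact absurd hb (by linarith)
    · exact hb

theorem weighted {S : Finset Pt} (hS : GP S) {ε : ℝ} (hH : Set.InjOn (Ht ε) S)
    {W : Finset Pt} (hW : W ⊆ S) (F : Finset Seg) (hF : ∀ e ∈ F, e.1 ∈ W ∧ e.2 ∈ W)
    (f : Pt → Bool) (l : Bool) (hc : ∀ e ∈ F, f e.1 = l ∧ f e.2 = !l) (u : Seg → ℝ)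
    (hu0 : ∀ e ∈ F, 0 ≤ u e) (hu1 : ∀ e ∈ F, u e ≤ 1) (p : ℝ) (hp0 : 0 < p) (hp1 : p ≤ 1) :
    ∑ e ∈ F, u e ≤ 4 * W.card / p + p ^ 2 / 2 * ∑ q ∈ XP F, u q.1 * u q.2 := by
  have hl : l ≠ !l := by cases l <;> simp
  have hcol : ∀ e ∈ F, e.1 ≠ e.2 := by
    intro e he k
    obtain ⟨h1, h2⟩ := hc e he
    exact hl (h1.symm.trans ((congrArg f k).trans h2))
  have hanti : ∀ e ∈ F, e.swap ∉ F := by
    intro e he h
    obtain ⟨h1, h2⟩ := hc e he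
    obtain ⟨h3, h4⟩ := hc _ h
    simp only [Prod.fst_swap, Prod.snd_swap] at h3 h4
    exact hl (h1.symm.trans h4)
  have hfour : ∀ q ∈ XP F, q.1 ∈ F ∧ q.2 ∈ F ∧ q.1.1 ≠ q.2.1 ∧ q.1.1 ≠ q.2.2 ∧
      q.1.2 ≠ q.2.1 ∧ q.1.2 ≠ q.2.2 := by
    intro q hq
    unfold XP at hq
    rw [Finset.mem_filter, Finset.mem_product] at hq
    obtain ⟨⟨q1, q2⟩, q3, q4⟩ := hq
    exact ⟨q1, q2, p9_four hS (hW (hF _ q1).1) (hW (hF _ q1).2) (hW (hF _ q2).1)
      (hW (hF _ q2).2) (hc _ q1) (hc _ q2) q3 q4⟩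
  have step1 : ∀ T ⊆ W, 2 * ∑ e ∈ F.filter (fun e => e.1 ∈ T ∧ e.2 ∈ T), u e ≤
      8 * (T.card : ℝ) + ∑ q ∈ (XP F).filter (fun q => q.1.1 ∈ T ∧ q.1.2 ∈ T ∧ q.2.1 ∈ T ∧
        q.2.2 ∈ T), u q.1 * u q.2 := by
    intro T hT
    have hXT : (XP F).filter (fun q => q.1.1 ∈ T ∧ q.1.2 ∈ T ∧ q.2.1 ∈ T ∧ q.2.2 ∈ T) =
        XP (F.filter (fun e => e.1 ∈ T ∧ e.2 ∈ T)) := by
      ext q
      unfold XP
      simp only [Finset.mem_filter, Finset.mem_product]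
      constructor
      · rintro ⟨⟨⟨a1, a2⟩, a3, a4⟩, a5, a6, a7, a8⟩
        exact ⟨⟨⟨a1, a5, a6⟩, a2, a7, a8⟩, a3, a4⟩
      · rintro ⟨⟨⟨a1, a5, a6⟩, a2, a7, a8⟩, a3, a4⟩
        exact ⟨⟨⟨a1, a2⟩, a3, a4⟩, a5, a6, a7, a8⟩
    rw [hXT]
    refine multiaffine (F.filter (fun e => e.1 ∈ T ∧ e.2 ∈ T)) u
      (fun e he => hu0 e (Finset.mem_of_mem_filter e he))
      (fun e he => hu1 e (Finset.mem_of_mem_filter e he)) _ ?_ (8 * (T.card : ℝ)) ?_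
    · intro q hq
      unfold XP at hq
      rw [Finset.mem_filter, Finset.mem_product] at hq
      exact ⟨hq.1.1, hq.1.2, hq.2.1⟩
    · intro F' hF'
      have hx : (XP (F.filter (fun e => e.1 ∈ T ∧ e.2 ∈ T))).filter
          (fun q => q.1 ∈ F' ∧ q.2 ∈ F') = XP F' := by
        ext q
        unfold XP
        simp only [Finset.mem_filter, Finset.mem_product]
        constructor
        · rintro ⟨⟨_, a3⟩, a4⟩
          exact ⟨a4, a3⟩
        · rintro ⟨a4, a3⟩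
          have b1 := Finset.mem_filter.1 (hF' a4.1)
          have b2 := Finset.mem_filter.1 (hF' a4.2)
          exact ⟨⟨⟨b1, b2⟩, a3⟩, a4⟩
      have hTS : T ⊆ S := hT.trans hW
      have hGT : GP T := fun a ha b hb c hc' => hS a (hTS ha) b (hTS hb) c (hTS hc')
      have key := cross_le (V := T) hGT (ε := ε) (hH.mono (by exact_mod_cast hTS)) F'
        (by
          intro e he
          have b1 := Finset.mem_filter.1 (hF' he)
          exact ⟨b1.2.1, b1.2.2, hcol e b1.1⟩)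
        (by
          intro e he h
          exact hanti e (Finset.mem_filter.1 (hF' he)).1 (Finset.mem_filter.1 (hF' h)).1)
      have key' : 2 * (F'.card : ℝ) ≤ 8 * (T.card : ℝ) + ((XP F').card : ℝ) := by
        exact_mod_cast key
      rw [← hx] at key'
      convert key'
  have step2 := sampling W F (fun e he => ⟨(hF e he).1, (hF e he).2, hcol e he⟩) u (XP F)
    hfour (fun q => u q.1 * u q.2) (fun T hT => by convert step1 T hT) p hp0.le hp1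
  have hp2 : (0 : ℝ) < 2 * p ^ 2 := by positivity
  have e1 : 4 * (W.card : ℝ) / p + p ^ 2 / 2 * ∑ q ∈ XP F, u q.1 * u q.2 =
      (8 * (p * W.card) + p ^ 4 * ∑ q ∈ XP F, u q.1 * u q.2) / (2 * p ^ 2) := by
    have hp3 : p ≠ 0 := hp0.ne'
    field_simp
    ring
  rw [e1, le_div_iff₀ hp2]
  calc (∑ e ∈ F, u e) * (2 * p ^ 2) = 2 * (p ^ 2 * ∑ e ∈ F, u e) := by ring
    _ ≤ _ := step2

end Pool.Agent.Lib.MP_9ff0e7_co
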