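import Pool.Agent.Lib.MP_9ff0e7_co.Q.C4
import Pool.Agent.Lib.MP_9ff0e7_co.Q.P9

/-!
Row P10. The incidence inequality for a configuration.

Proof. F = G.image Prod.snd, u q = card (at2 G q) / A in [0,1] by hcap. weighted with F, W, colour l (fields m21, m22, c21, c22).
(1) sum_{q in F} card (at2 G q) = card G (Finset.card_eq_sum_card_image or card_eq_sum_card_fiberwise).
(2) sum_{(q,q') in XP F} card (at2 G q) * card (at2 G q') = card ((G ×ˢ G).filter (q.1.2 ≠ q.2.2 ∧ Crs q.1.2 q.2.2)): the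
    filter set is the disjoint union over (q,q') in XP F of (at2 G q) ×ˢ (at2 G q') (card_eq_sum_card_fiberwise for the map
    r ↦ (r.1.2, r.2.2) into XP F; the fibre over (q,q') is (at2 G q) ×ˢ (at2 G q')). By Conf.crosscount it is
    <= 4 * card (G.image Prod.fst) ^ 2.
(3) So card G / A <= 4 card W / p + p^2/2 * (4 card E^2 / A^2); multiply by A.
-/

set_option autoImplicit false
open scoped Classical

namespace Pool.Agent.Lib.MP_9ff0e7_co

variable {s : ℝ} {S V W : Finset Pt} {f : Pt → Bool} {k l : Bool} {G : Finset (Seg × Seg)}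

theorem p10_sum1 (G : Finset (Seg × Seg)) :
    ∑ e ∈ G.image Prod.snd, ((at2 G e).card : ℝ) = G.card := by
  have h1 : G.card = ∑ e ∈ G.image Prod.snd, (G.filter (fun g => g.2 = e)).card :=
    Finset.card_eq_sum_card_fiberwise fun g hg => Finset.mem_image_of_mem Prod.snd hg
  rw [h1]
  push_cast
  rfl

theorem p10_sum2 (h : Conf s S V W f k l G) :
    ∑ q ∈ XP (G.image Prod.snd), ((at2 G q.1).card : ℝ) * (at2 G q.2).card ≤
      4 * ((G.image Prod.fst).card : ℝ) ^ 2 := by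
  have h1 := h.crosscount
  set Q := (G ×ˢ G).filter (fun q => q.1.2 ≠ q.2.2 ∧ Crs q.1.2 q.2.2) with hQ
  have hmaps : Set.MapsTo (fun r : (Seg × Seg) × (Seg × Seg) => (r.1.2, r.2.2)) (Q : Set _)
      (XP (G.image Prod.snd) : Set _) := by
    intro r hr
    obtain ⟨hr1, hr2⟩ := Finset.mem_filter.1 (Finset.mem_coe.1 hr)
    obtain ⟨hr3, hr4⟩ := Finset.mem_product.1 hr1
    have k1 : r.1.2 ∈ G.image Prod.snd := Finset.mem_image_of_mem Prod.snd hr3
    have k2 : r.2.2 ∈ G.image Prod.snd := Finset.mem_image_of_mem Prod.snd hr4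
    exact Finset.mem_coe.2 (Finset.mem_filter.2 ⟨Finset.mem_product.2 ⟨k1, k2⟩, hr2⟩)
  have h2 := Finset.card_eq_sum_card_fiberwise hmaps
  have h3 : ∑ q ∈ XP (G.image Prod.snd), (at2 G q.1).card * (at2 G q.2).card ≤ Q.card := by
    rw [h2]
    refine Finset.sum_le_sum fun q hq => ?_
    rw [← Finset.card_product]
    refine Finset.card_le_card fun r hr => ?_
    obtain ⟨hr1, hr2⟩ := Finset.mem_product.1 hr
    unfold at2 at hr1 hr2
    obtain ⟨a1, a2⟩ := Finset.mem_filter.1 hr1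
    obtain ⟨b1, b2⟩ := Finset.mem_filter.1 hr2
    obtain ⟨c1, c2⟩ := Finset.mem_filter.1 hq
    refine Finset.mem_filter.2 ⟨Finset.mem_filter.2 ⟨Finset.mem_product.2 ⟨a1, b1⟩, ?_⟩, ?_⟩
    · rw [a2, b2]
      exact c2
    · rw [a2, b2]
  have h4 := h3.trans h1
  exact_mod_cast h4

theorem Conf.ineqA (h : Conf s S V W f k l G) {ε : ℝ} (hH : Set.InjOn (Ht ε) S) {A : ℝ}
    (hA : 0 < A) (hcap : ∀ q, ((at2 G q).card : ℝ) ≤ A) {p : ℝ} (hp0 : 0 < p) (hp1 : p ≤ 1) :
    (G.card : ℝ) ≤ 4 * W.card * A / p + 2 * p ^ 2 * ((G.image Prod.fst).card : ℝ) ^ 2 / A := by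
  set F := G.image Prod.snd with hF
  have hmem : ∀ e ∈ F, ∃ g ∈ G, g.2 = e := fun e he => Finset.mem_image.1 he
  have hw := weighted h.gp hH h.WS F
    (fun e he => by
      obtain ⟨g, hg, rfl⟩ := hmem e he
      exact ⟨h.m21 g hg, h.m22 g hg⟩) f l
    (fun e he => by
      obtain ⟨g, hg, rfl⟩ := hmem e he
      exact ⟨h.c21 g hg, h.c22 g hg⟩) (fun q => ((at2 G q).card : ℝ) / A)
    (fun e _ => by positivity)
    (fun e _ => by rw [div_le_one hA]; exact hcap e) p hp0 hp1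
  have e1 : ∑ e ∈ F, ((at2 G e).card : ℝ) / A = G.card / A := by
    rw [← Finset.sum_div, hF, p10_sum1]
  have e2 : ∑ q ∈ XP F, ((at2 G q.1).card : ℝ) / A * (((at2 G q.2).card : ℝ) / A) =
      (∑ q ∈ XP F, ((at2 G q.1).card : ℝ) * (at2 G q.2).card) / A ^ 2 := by
    rw [Finset.sum_div]
    refine Finset.sum_congr rfl fun q _ => ?_
    field_simp
  have e3 := p10_sum2 h
  rw [e1, e2] at hw
  rw [← hF] at e3
  set Sx := ∑ q ∈ XP F, ((at2 G q.1).card : ℝ) * (at2 G q.2).card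
  set E := ((G.image Prod.fst).card : ℝ)
  have h5 : (G.card : ℝ) / A ≤ 4 * W.card / p + p ^ 2 / 2 * (4 * E ^ 2 / A ^ 2) := by
    refine hw.trans ?_
    have h6 : Sx / A ^ 2 ≤ 4 * E ^ 2 / A ^ 2 := by
      apply div_le_div_of_nonneg_right e3 (by positivity)
    have h7 := mul_le_mul_of_nonneg_left h6 (show 0 ≤ p ^ 2 / 2 by positivity)
    linarith
  rw [div_le_iff₀ hA] at h5
  calc (G.card : ℝ) ≤ (4 * W.card / p + p ^ 2 / 2 * (4 * E ^ 2 / A ^ 2)) * A := h5
    _ = 4 * W.card * A / p + 2 * p ^ 2 * E ^ 2 / A := by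
      field_simp
      ring

end Pool.Agent.Lib.MP_9ff0e7_co
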