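import Pool.Agent.Lib.MP_9ff0e7_co.Q.Defs

/-!
Row P2. Consecutive downward segments and the top of the wedge.

`Dn ε V F` : all segments of F go down and have their endpoints in V. `Tr F V` : the triples (v, w, w') such that (v,w), (v,w') are
consecutive in F in the order around v.
`tr_count`. For v in V let N v = V.filter (fun w => (v,w) ∈ F); all its points are below v. Call (v,w) in F last if no w' has
(v,w') in F and 0 < D 1 v w w'. Two last segments with the same v are equal (D 1 v w w' ≠ 0 for w ≠ w', general position; one of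
D 1 v w w', D 1 v w' w is positive). So the number of last ones is at most card V (map (v,w) ↦ v). For (v,w) not last
choose w' with (v,w') in F, 0 < D 1 v w w', and ord 1 ε v w' minimal among these (Finset.exists_min_image); then (v,w,w') is in Tr
(if 0 < D 1 v w w'' and 0 < D 1 v w'' w' then ord v w'' < ord v w' by ord_lt, contradiction). The map (v,w) ↦ (v,w,w') is
injective. ord_lt (Geo.lean) is applicable: both heights are below v, so the product is positive.
`wedge_top`. The set V.filter (q ≠ v ∧ 0 <= D 1 v w q ∧ 0 <= D 1 v q w') contains w and w' (D_abb, D_aab...). Take t in it with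
Ht t maximal. Remaining: Ht t < Ht v. Plucker: the lemma `plucker 1 ε w t w' v` :
 D 1 v w t (Ht w' - Ht v) + D 1 v t w' (Ht w - Ht v) = D 1 v w w' (Ht t - Ht v) (check the form in Geo.lean, plucker s ε a b c p). The left side
 is <= 0, so Ht t <= Ht v; and it is not 0: if Ht t = Ht v then t = v by injectivity, against t ≠ v.
-/

set_option autoImplicit false
open scoped Classical

namespace Pool.Agent.Lib.MP_9ff0e7_co

/-- all segments of `F` go down and have their endpoints in `V`. -/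
def Dn (ε : ℝ) (V : Finset Pt) (F : Finset Seg) : Prop :=
  ∀ e ∈ F, e.1 ∈ V ∧ e.2 ∈ V ∧ Ht ε e.2 < Ht ε e.1

/-- consecutive pairs of segments with the same upper endpoint. -/
noncomputable def Tr (F : Finset Seg) (V : Finset Pt) : Finset (Pt × Pt × Pt) :=
  (V ×ˢ V ×ˢ V).filter (fun q => (q.1, q.2.1) ∈ F ∧ (q.1, q.2.2) ∈ F ∧
    0 < D 1 q.1 q.2.1 q.2.2 ∧
    ∀ w, (q.1, w) ∈ F → ¬ (0 < D 1 q.1 q.2.1 w ∧ 0 < D 1 q.1 w q.2.2))

theorem tr_count {V : Finset Pt} (hV : GP V) {ε : ℝ} {F : Finset Seg} (hF : Dn ε V F) :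
    F.card ≤ V.card + (Tr F V).card := by
  have hne : ∀ e ∈ F, e.1 ≠ e.2 := by
    intro e he h
    have h1 := (hF e he).2.2
    rw [h] at h1
    exact lt_irrefl _ h1
  rw [← Finset.card_filter_add_card_filter_not (s := F)
    (fun e : Seg => ∃ w', (e.1, w') ∈ F ∧ 0 < D 1 e.1 e.2 w'), add_comm V.card]
  apply Nat.add_le_add
  · have h : ∀ e ∈ F.filter (fun e : Seg => ∃ w', (e.1, w') ∈ F ∧ 0 < D 1 e.1 e.2 w'),
        ∃ w', (e.1, e.2, w') ∈ Tr F V := by
      intro e he
      rw [Finset.mem_filter] at he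
      obtain ⟨heF, w0, hw0, hD0⟩ := he
      have hN : (V.filter (fun w' => (e.1, w') ∈ F ∧ 0 < D 1 e.1 e.2 w')).Nonempty :=
        ⟨w0, Finset.mem_filter.2 ⟨(hF _ hw0).2.1, hw0, hD0⟩⟩
      obtain ⟨w', hw', hmin⟩ := Finset.exists_min_image _ (fun w' => ord 1 ε e.1 w') hN
      rw [Finset.mem_filter] at hw'
      obtain ⟨hw'V, hw'F, hw'D⟩ := hw'
      refine ⟨w', ?_⟩
      unfold Tr
      rw [Finset.mem_filter, Finset.mem_product, Finset.mem_product]
      refine ⟨⟨(hF e heF).1, (hF e heF).2.1, hw'V⟩, heF, hw'F, hw'D, ?_⟩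
      rintro w hw ⟨h1, h2⟩
      have h3 := hmin w (Finset.mem_filter.2 ⟨(hF _ hw).2.1, hw, h1⟩)
      have k1 := (hF _ hw).2.2
      have k2 := (hF _ hw'F).2.2
      have h4 := (ord_lt 1 ε e.1 w w' (by
        apply mul_pos_of_neg_of_neg
        · exact sub_neg.2 k1
        · exact sub_neg.2 k2)).2 h2
      exact absurd h3 (not_le.2 h4)
    choose! g hg using h
    apply Finset.card_le_card_of_injOn (fun e : Seg => (e.1, e.2, g e))
    · intro e he
      exact hg e he
    · intro e _ e' _ hee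
      simp only [Prod.mk.injEq] at hee
      exact Prod.ext hee.1 hee.2.1
  · apply Finset.card_le_card_of_injOn (fun e : Seg => e.1)
    · intro e he
      rw [Finset.mem_coe, Finset.mem_filter] at he
      exact (hF e he.1).1
    · intro e he e' he' hee
      rw [Finset.mem_coe, Finset.mem_filter] at he he'
      obtain ⟨heF, hel⟩ := he
      obtain ⟨heF', hel'⟩ := he'
      have hee' : e.1 = e'.1 := hee
      by_contra hcon
      have h2 : e.2 ≠ e'.2 := fun h => hcon (Prod.ext hee' h)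
      have k0 := hne e heF
      have k1 : e.1 ≠ e'.2 := by
        rw [hee']
        exact hne e' heF'
      have hD := hV e.1 (hF e heF).1 e.2 (hF e heF).2.1 e'.2 (hF e' heF').2.1 k0 k1 h2
      rcases lt_or_gt_of_ne hD with h | h
      · apply hel'
        refine ⟨e.2, ?_, ?_⟩
        · rw [← hee']
          exact heF
        · rw [← hee']
          have e1 := D_swap' 1 e.1 e.2 e'.2
          linarith
      · apply hel
        refine ⟨e'.2, ?_, h⟩
        rw [hee']
        exact heF'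

theorem wedge_top {V : Finset Pt} (hV : GP V) {ε : ℝ} (hH : Set.InjOn (Ht ε) V)
    {v w w' : Pt} (mv : v ∈ V) (mw : w ∈ V) (mw' : w' ∈ V) (h1 : Ht ε w < Ht ε v)
    (h2 : Ht ε w' < Ht ε v) (h3 : 0 < D 1 v w w') :
    ∃ t ∈ V, t ≠ v ∧ 0 ≤ D 1 v w t ∧ 0 ≤ D 1 v t w' ∧ Ht ε t < Ht ε v ∧
      Ht ε w ≤ Ht ε t ∧ Ht ε w' ≤ Ht ε t ∧
      ∀ q ∈ V, q ≠ v → 0 ≤ D 1 v w q → 0 ≤ D 1 v q w' → Ht ε q ≤ Ht ε t := by
  have _hV := hV
  have hwv : w ≠ v := by
    rintro rfl
    exact lt_irrefl _ h1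
  have hwv' : w' ≠ v := by
    rintro rfl
    exact lt_irrefl _ h2
  have mwA : w ∈ V.filter (fun q => q ≠ v ∧ 0 ≤ D 1 v w q ∧ 0 ≤ D 1 v q w') :=
    Finset.mem_filter.2 ⟨mw, hwv, (D_abb 1 v w).ge, h3.le⟩
  have mwA' : w' ∈ V.filter (fun q => q ≠ v ∧ 0 ≤ D 1 v w q ∧ 0 ≤ D 1 v q w') :=
    Finset.mem_filter.2 ⟨mw', hwv', h3.le, (D_abb 1 v w').ge⟩
  obtain ⟨t, ht, hmax⟩ := Finset.exists_max_image _ (Ht ε) ⟨w, mwA⟩
  obtain ⟨mt, htv, ht1, ht2⟩ := Finset.mem_filter.1 ht
  refine ⟨t, mt, htv, ht1, ht2, ?_, hmax w mwA, hmax w' mwA',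
    fun q mq hqv hq1 hq2 => hmax q (Finset.mem_filter.2 ⟨mq, hqv, hq1, hq2⟩)⟩
  have hp := plucker 1 ε w t w' v
  have hle : D 1 v w w' * (Ht ε t - Ht ε v) ≤ 0 := by
    rw [← hp]
    have k1 : D 1 v w t * (Ht ε w' - Ht ε v) ≤ 0 :=
      mul_nonpos_of_nonneg_of_nonpos ht1 (by linarith)
    have k2 : D 1 v t w' * (Ht ε w - Ht ε v) ≤ 0 :=
      mul_nonpos_of_nonneg_of_nonpos ht2 (by linarith)
    linarith
  have hle2 : Ht ε t ≤ Ht ε v := by
    by_contra hcon
    have := mul_pos h3 (sub_pos.2 (not_le.1 hcon))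
    linarith
  exact lt_of_le_of_ne hle2 (fun h => htv (hH mt mv h))

end Pool.Agent.Lib.MP_9ff0e7_co
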