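import Pool.Agent.Lib.MP_9ff0e7_co.Q.P1
import Pool.Agent.Lib.MP_9ff0e7_co.Q.P2

/-!
Row P3. The top of the wedge and its type determine the consecutive pair.

`Top ε V v w w' t` collects the conclusion of wedge_top. Claim `top_inj`: two elements (v1,w1,w1'), (v2,w2,w2') of Tr with the same
top t, and of the same type ((t = w1 ↔ t = w2) and (t = w1' ↔ t = w2')), in a non-crossing F, are equal.
Case v1 ≠ v2: heights differ; by symmetry let Ht v1 < Ht v2 (state an auxiliary lemma with this hypothesis and conclusion False).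
 If both 0 <= D 1 v2 w2 v1 and 0 <= D 1 v2 v1 w2' then v1 is in the wedge of v2, so Ht v1 <= Ht t < Ht v1, contradiction.
 (i) D 1 v2 w2 v1 < 0: apply cross_of with s = 1, v = v1, w = w1', v' = v2, w' = w2: h1 : 0 < D 1 v2 v1 w2 = -D 1 v2 w2 v1;
   h2 : 0 <= D 1 v2 w2 t; h3 : 0 <= D 1 v1 t w1'; heights: Ht w1' <= Ht t, Ht w2 <= Ht t, Ht t < Ht v1 < Ht v2;
   hne : if t = w1' and t = w2 then by the types t = w1 (from t = w2), so w1 = w1', but 0 < D 1 v1 w1 w1' (D_abb). This gives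
   Crs (v1,w1') (v2,w2), both in F and different (v1 ≠ v2): contradiction with hnc.
 (ii) D 1 v2 v1 w2' < 0 : apply cross_of with s = -1, v = v1, w = w1, v' = v2, w' = w2': h1 : 0 < D (-1) v2 v1 w2';
   h2 : 0 <= D (-1) v2 w2' t = D 1 v2 t w2' ; h3 : 0 <= D (-1) v1 t w1 = D 1 v1 w1 t. hne: if t = w1 and t = w2' then t = w2 and
   w2 = w2', contradiction. Crs (v1,w1) (v2,w2').
Case v1 = v2 = v. All of w1,w1',w2,w2' are below v, and t too; use the linear order by ord 1 ε v (ord_lt; injective by general position: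
 D 1 v a b ≠ 0 for a ≠ b, both ≠ v).
 If t = w1 (= w2) then w1 = w2; if w1' ≠ w2', one of them is strictly between (order), contradiction with the last
 clause of Tr. If t = w1' (= w2') the same. Otherwise 0 < D 1 v w1 t, 0 < D 1 v t w1', 0 < D 1 v w2 t, 0 < D 1 v t w2' (general position: t ≠ v, w's).
 If w1 ≠ w2, say w1 before w2 (0 < D 1 v w1 w2): w2 before t before w1', so w2 is strictly between w1 and w1': contradiction. So
 w1 = w2 and then w1' = w2' as before.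
`planar_down`: tops: for each triple of Tr choose t by wedge_top. Map triple ↦ (t, type) where type = 0 if t = w, 1 if t = w', 2 otherwise
 (a value in Fin 3 or ℕ < 3). Injective by top_inj. So card Tr <= 3 card V and card F <= 4 card V by tr_count.
-/

set_option autoImplicit false
open scoped Classical

namespace Pool.Agent.Lib.MP_9ff0e7_co

/-- the conclusion of `wedge_top`. -/
def p3_Top (ε : ℝ) (V : Finset Pt) (v w w' t : Pt) : Prop :=
  t ∈ V ∧ t ≠ v ∧ 0 ≤ D 1 v w t ∧ 0 ≤ D 1 v t w' ∧ Ht ε t < Ht ε v ∧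
      Ht ε w ≤ Ht ε t ∧ Ht ε w' ≤ Ht ε t ∧
      ∀ q ∈ V, q ≠ v → 0 ≤ D 1 v w q → 0 ≤ D 1 v q w' → Ht ε q ≤ Ht ε t

theorem p3_diff {V : Finset Pt} (hV : GP V) {ε : ℝ}
    {F : Finset Seg} (hF : Dn ε V F) (hnc : ∀ e ∈ F, ∀ g ∈ F, e ≠ g → ¬ Crs e g)
    {v1 w1 w1' v2 w2 w2' t : Pt} (a1 : (v1, w1) ∈ F) (a2 : (v1, w1') ∈ F)
    (a3 : 0 < D 1 v1 w1 w1') (b1 : (v2, w2) ∈ F) (b2 : (v2, w2') ∈ F)
    (b3 : 0 < D 1 v2 w2 w2') (ta : p3_Top ε V v1 w1 w1' t) (tb : p3_Top ε V v2 w2 w2' t)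
    (ty1 : t = w1 ↔ t = w2) (ty2 : t = w1' ↔ t = w2') (hlt : Ht ε v1 < Ht ε v2) : False := by
  obtain ⟨mt, tv1, ta1, ta2, ta3, ta4, ta5, ta6⟩ := ta
  obtain ⟨-, tv2, tb1, tb2, tb3, tb4, tb5, tb6⟩ := tb
  have hv : v1 ≠ v2 := by rintro rfl; exact lt_irrefl _ hlt
  obtain ⟨mv1, mw1, -⟩ := hF _ a1
  obtain ⟨-, mw1', -⟩ := hF _ a2
  obtain ⟨mv2, mw2, -⟩ := hF _ b1
  obtain ⟨-, mw2', -⟩ := hF _ b2
  simp only at mv1 mw1 mw1' mv2 mw2 mw2'
  by_cases hA : 0 ≤ D 1 v2 w2 v1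
  · by_cases hB : 0 ≤ D 1 v2 v1 w2'
    · exact absurd (tb6 v1 mv1 hv hA hB) (not_le.2 ta3)
    · push Not at hB
      have hc : Crs (v1, w1) (v2, w2') := by
        refine cross_of hV (s := -1) (ε := ε) (t := t) (by norm_num) mv1 mw1 mv2 mw2' mt ta4 tb5
          ta3 hlt ?_ ?_ ?_ ?_
        · rw [D_neg]; linarith
        · rw [D_neg, D_swap']; linarith
        · rw [D_neg, D_swap']; linarith
        · rintro ⟨h1, h2⟩
          have h3 := ty1.1 h1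
          rw [← h3, h2, D_abb] at b3
          exact lt_irrefl _ b3
      exact hnc _ a1 _ b2 (fun h => hv (congrArg Prod.fst h)) hc
  · push Not at hA
    have hc : Crs (v1, w1') (v2, w2) := by
      refine cross_of hV (s := 1) (ε := ε) (t := t) one_ne_zero mv1 mw1' mv2 mw2 mt ta5 tb4
        ta3 hlt ?_ tb1 ta2 ?_
      · rw [D_swap']; linarith
      · rintro ⟨h1, h2⟩
        have h3 := ty1.2 h2
        rw [← h3, h1, D_abb] at a3
        exact lt_irrefl _ a3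
    exact hnc _ a2 _ b1 (fun h => hv (congrArg Prod.fst h)) hc

theorem p3_ordlt {ε : ℝ} {v a b : Pt} (ha : Ht ε a < Ht ε v) (hb : Ht ε b < Ht ε v) :
    ord 1 ε v a < ord 1 ε v b ↔ 0 < D 1 v a b :=
  ord_lt 1 ε v a b (mul_pos_of_neg_of_neg (by linarith) (by linarith))

theorem p3_ordne {V : Finset Pt} (hV : GP V) {ε : ℝ} {v a b : Pt} (mv : v ∈ V) (ma : a ∈ V)
    (mb : b ∈ V) (ha : Ht ε a < Ht ε v) (hb : Ht ε b < Ht ε v)
    (h : ord 1 ε v a = ord 1 ε v b) : a = b := by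
  by_contra hne
  have h1 : v ≠ a := by rintro rfl; exact lt_irrefl _ ha
  have h2 : v ≠ b := by rintro rfl; exact lt_irrefl _ hb
  have h3 := hV v mv a ma b mb h1 h2 hne
  rcases lt_or_gt_of_ne h3 with h4 | h4
  · have h5 : 0 < D 1 v b a := by rw [D_swap']; linarith
    exact absurd ((p3_ordlt hb ha).2 h5) (by rw [h]; exact lt_irrefl _)
  · exact absurd ((p3_ordlt ha hb).2 h4) (by rw [h]; exact lt_irrefl _)

theorem p3_ordle {ε : ℝ} {v a b : Pt} (ha : Ht ε a < Ht ε v) (hb : Ht ε b < Ht ε v)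
    (h : 0 ≤ D 1 v a b) : ord 1 ε v a ≤ ord 1 ε v b := by
  by_contra hlt
  push Not at hlt
  have h1 := (p3_ordlt hb ha).1 hlt
  rw [D_swap'] at h1
  linarith

theorem p3_same {V : Finset Pt} (hV : GP V) {ε : ℝ}
    {F : Finset Seg} (hF : Dn ε V F)
    {v w1 w1' w2 w2' t : Pt} (a1 : (v, w1) ∈ F) (a2 : (v, w1') ∈ F)
    (a4 : ∀ w, (v, w) ∈ F → ¬ (0 < D 1 v w1 w ∧ 0 < D 1 v w w1'))
    (b1 : (v, w2) ∈ F) (b2 : (v, w2') ∈ F)
    (ta : p3_Top ε V v w1 w1' t) (tb : p3_Top ε V v w2 w2' t)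
    (ty1 : t = w1 ↔ t = w2)
    (hlt : ord 1 ε v w1 < ord 1 ε v w2) : False := by
  obtain ⟨mt, tv1, ta1, ta2, ta3, ta4, ta5, ta6⟩ := ta
  obtain ⟨-, tv2, tb1, tb2, tb3, tb4, tb5, tb6⟩ := tb
  obtain ⟨mv, mw1, hw1⟩ := hF _ a1
  obtain ⟨-, mw1', hw1'⟩ := hF _ a2
  obtain ⟨-, mw2, hw2⟩ := hF _ b1
  obtain ⟨-, mw2', hw2'⟩ := hF _ b2
  simp only at mv mw1 mw1' mw2 mw2' hw1 hw1' hw2 hw2'
  have c1 := p3_ordle hw2 ta3 tb1
  have c2 := p3_ordle ta3 hw1' ta2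
  rcases lt_or_eq_of_le (c1.trans c2) with h | h
  · exact a4 w2 b1 ⟨(p3_ordlt hw1 hw2).1 hlt, (p3_ordlt hw2 hw1').1 h⟩
  · have h1 : ord 1 ε v w2 = ord 1 ε v t := le_antisymm c1 (by rw [h]; exact c2)
    have h2 : w2 = t := p3_ordne hV mv mw2 mt hw2 ta3 h1
    have h3 := ty1.2 h2.symm
    rw [← h3, ← h2] at hlt
    exact lt_irrefl _ hlt

theorem p3_inj {V : Finset Pt} (hV : GP V) {ε : ℝ} (hH : Set.InjOn (Ht ε) V)
    {F : Finset Seg} (hF : Dn ε V F) (hnc : ∀ e ∈ F, ∀ g ∈ F, e ≠ g → ¬ Crs e g)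
    {v1 w1 w1' v2 w2 w2' t : Pt} (a1 : (v1, w1) ∈ F) (a2 : (v1, w1') ∈ F)
    (a3 : 0 < D 1 v1 w1 w1')
    (a4 : ∀ w, (v1, w) ∈ F → ¬ (0 < D 1 v1 w1 w ∧ 0 < D 1 v1 w w1'))
    (b1 : (v2, w2) ∈ F) (b2 : (v2, w2') ∈ F)
    (b3 : 0 < D 1 v2 w2 w2')
    (b4 : ∀ w, (v2, w) ∈ F → ¬ (0 < D 1 v2 w2 w ∧ 0 < D 1 v2 w w2'))
    (ta : p3_Top ε V v1 w1 w1' t) (tb : p3_Top ε V v2 w2 w2' t)
    (ty1 : t = w1 ↔ t = w2) (ty2 : t = w1' ↔ t = w2') : v1 = v2 ∧ w1 = w2 ∧ w1' = w2' := by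
  have hv : v1 = v2 := by
    rcases lt_trichotomy (Ht ε v1) (Ht ε v2) with h | h | h
    · exact (p3_diff hV hF hnc a1 a2 a3 b1 b2 b3 ta tb ty1 ty2 h).elim
    · exact hH (hF _ a1).1 (hF _ b1).1 h
    · exact (p3_diff hV hF hnc b1 b2 b3 a1 a2 a3 tb ta ty1.symm ty2.symm h).elim
  subst hv
  obtain ⟨mv, mw1, hw1⟩ := hF _ a1
  obtain ⟨-, mw1', hw1'⟩ := hF _ a2
  obtain ⟨-, mw2, hw2⟩ := hF _ b1
  obtain ⟨-, mw2', hw2'⟩ := hF _ b2
  simp only at mv mw1 mw1' mw2 mw2' hw1 hw1' hw2 hw2'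
  have hw : w1 = w2 := by
    rcases lt_trichotomy (ord 1 ε v1 w1) (ord 1 ε v1 w2) with h | h | h
    · exact (p3_same hV hF a1 a2 a4 b1 b2 ta tb ty1 h).elim
    · exact p3_ordne hV mv mw1 mw2 hw1 hw2 h
    · exact (p3_same hV hF b1 b2 b4 a1 a2 tb ta ty1.symm h).elim
  subst hw
  refine ⟨rfl, rfl, ?_⟩
  rcases lt_trichotomy (ord 1 ε v1 w1') (ord 1 ε v1 w2') with h | h | h
  · exact (b4 w1' a2 ⟨a3, (p3_ordlt hw1' hw2').1 h⟩).elim
  · exact p3_ordne hV mv mw1' mw2' hw1' hw2' h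
  · exact (a4 w2' b2 ⟨b3, (p3_ordlt hw2' hw1').1 h⟩).elim

/-- the chosen top. -/
noncomputable def p3_t (ε : ℝ) (V : Finset Pt) (q : Pt × Pt × Pt) : Pt :=
  if h : ∃ t, p3_Top ε V q.1 q.2.1 q.2.2 t then h.choose else q.1

/-- top and type. -/
noncomputable def p3_f (ε : ℝ) (V : Finset Pt) (q : Pt × Pt × Pt) : Pt × ℕ :=
  (p3_t ε V q, if p3_t ε V q = q.2.1 then 0 else if p3_t ε V q = q.2.2 then 1 else 2)

theorem planar_down {V : Finset Pt} (hV : GP V) {ε : ℝ} (hH : Set.InjOn (Ht ε) V)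
    {F : Finset Seg} (hF : Dn ε V F) (hnc : ∀ e ∈ F, ∀ g ∈ F, e ≠ g → ¬ Crs e g) :
    F.card ≤ 4 * V.card := by
  have h0 := tr_count hV hF
  have htop : ∀ q ∈ Tr F V, p3_Top ε V q.1 q.2.1 q.2.2 (p3_t ε V q) := by
    intro q hq
    unfold Tr at hq
    obtain ⟨-, h1, h2, h3, -⟩ := Finset.mem_filter.1 hq
    obtain ⟨mv, mw, hw⟩ := hF _ h1
    obtain ⟨-, mw', hw'⟩ := hF _ h2
    obtain ⟨t, ht⟩ := wedge_top hV hH mv mw mw' hw hw' h3
    have hex : ∃ t, p3_Top ε V q.1 q.2.1 q.2.2 t := ⟨t, ht⟩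
    unfold p3_t
    rw [dif_pos hex]
    exact hex.choose_spec
  have h1 : (Tr F V).card ≤ (V ×ˢ Finset.range 3).card := by
    apply Finset.card_le_card_of_injOn (p3_f ε V)
    · intro q hq
      have h2 := htop q hq
      simp only [Finset.coe_product, Set.mem_prod, Finset.mem_coe]
      refine ⟨h2.1, ?_⟩
      unfold p3_f
      simp only [Finset.mem_range]
      split_ifs <;> omega
    · rintro ⟨v1, w1, w1'⟩ hq1 ⟨v2, w2, w2'⟩ hq2 heq
      have t1 := htop _ hq1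
      have t2 := htop _ hq2
      rw [Finset.mem_coe] at hq1 hq2
      unfold Tr at hq1 hq2
      obtain ⟨-, a1, a2, a3, a4⟩ := Finset.mem_filter.1 hq1
      obtain ⟨-, b1, b2, b3, b4⟩ := Finset.mem_filter.1 hq2
      unfold p3_f at heq
      obtain ⟨e1, e2⟩ := Prod.ext_iff.1 heq
      simp only at e1 e2 t1 t2 a1 a2 a3 a4 b1 b2 b3 b4
      rw [← e1] at t2 e2
      set t := p3_t ε V (v1, w1, w1') with htdef
      have n1 : w1 ≠ w1' := by
        rintro rfl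
        rw [D_abb] at a3; exact lt_irrefl _ a3
      have n2 : w2 ≠ w2' := by
        rintro rfl
        rw [D_abb] at b3; exact lt_irrefl _ b3
      have ty : (t = w1 ↔ t = w2) ∧ (t = w1' ↔ t = w2') := by
        by_cases c1 : t = w1
        · rw [if_pos c1] at e2
          by_cases c2 : t = w2
          · exact ⟨⟨fun _ => c2, fun _ => c1⟩, ⟨fun h => (n1 (c1.symm.trans h)).elim,
              fun h => (n2 (c2.symm.trans h)).elim⟩⟩
          · rw [if_neg c2] at e2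
            split_ifs at e2
        · rw [if_neg c1] at e2
          by_cases c2 : t = w2
          · rw [if_pos c2] at e2
            split_ifs at e2
          · rw [if_neg c2] at e2
            refine ⟨⟨fun h => (c1 h).elim, fun h => (c2 h).elim⟩, ?_⟩
            by_cases c3 : t = w1'
            · by_cases c4 : t = w2'
              · exact ⟨fun _ => c4, fun _ => c3⟩
              · rw [if_pos c3, if_neg c4] at e2
                omega
            · by_cases c4 : t = w2'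
              · rw [if_neg c3, if_pos c4] at e2
                omega
              · exact ⟨fun h => (c3 h).elim, fun h => (c4 h).elim⟩
      obtain ⟨r1, r2, r3⟩ := p3_inj hV hH hF hnc a1 a2 a3 a4 b1 b2 b3 b4 t1 t2 ty.1 ty.2
      rw [r1, r2, r3]
  rw [Finset.card_product, Finset.card_range] at h1
  omega

end Pool.Agent.Lib.MP_9ff0e7_co
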