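import Pool.Agent.Lib.MP_9ff0e7_co.Q.P3

/-!
Row P4. Planar bound for unoriented segments, and the crossing inequality.

`planar`. Let φ e = if Ht e.2 < Ht e.1 then e else e.swap, F' = F.image φ. φ is injective on F : if φ e = φ e' with e ≠ e' then e' = e.swap,
against hanti. F' is Dn (heights of e.1 ≠ e.2 differ by hH). Non-crossing is preserved: Crs is invariant under swapping e or g
(replace l by 1 - l, m by 1 - m). So planar_down applies.
`cross_le`. Strong induction on card F. If XP F is empty then F is non-crossing, so card F <= 4 card V. Otherwise take (e,g) in XP F, e ≠ g,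
Crs e g. F1 = F.erase e has card F - 1; the hypotheses pass to F1; XP F1 ⊆ XP F minus {(e,g),(g,e)} (both are in XP F, as Crs is
symmetric, and they are different), so card (XP F1) + 2 <= card (XP F). Induction: 2 card F1 <= 8 card V + card (XP F1).
-/

set_option autoImplicit false
open scoped Classical

namespace Pool.Agent.Lib.MP_9ff0e7_co

theorem p4_symm {e g : Seg} (h : Crs e g) : Crs g e := by
  obtain ⟨l, m, h1, h2, h3, h4, h5⟩ := h
  exact ⟨m, l, h3, h4, h1, h2, h5.symm⟩

theorem p4_swap {e g : Seg} (h : Crs e.swap g) : Crs e g := by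
  obtain ⟨l, m, h1, h2, h3, h4, h5⟩ := h
  refine ⟨1 - l, m, by linarith, by linarith, h3, h4, ?_⟩
  rw [← h5, sub_sub_cancel, add_comm]
  rfl

/-- orient the segment downwards. -/
noncomputable def p4_phi (ε : ℝ) (e : Seg) : Seg := if Ht ε e.2 < Ht ε e.1 then e else e.swap

theorem p4_phi_cases (ε : ℝ) (e : Seg) : p4_phi ε e = e ∨ p4_phi ε e = e.swap := by
  unfold p4_phi
  split_ifs
  · exact Or.inl rfl
  · exact Or.inr rfl

theorem p4_phi_crs {ε : ℝ} {e g : Seg} (h : Crs (p4_phi ε e) (p4_phi ε g)) : Crs e g := by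
  have h1 : Crs e (p4_phi ε g) := by
    rcases p4_phi_cases ε e with h2 | h2
    · rwa [h2] at h
    · rw [h2] at h; exact p4_swap h
  rcases p4_phi_cases ε g with h2 | h2
  · rwa [h2] at h1
  · rw [h2] at h1; exact p4_symm (p4_swap (p4_symm h1))

theorem planar {V : Finset Pt} (hV : GP V) {ε : ℝ} (hH : Set.InjOn (Ht ε) V)
    (F : Finset Seg) (hF : ∀ e ∈ F, e.1 ∈ V ∧ e.2 ∈ V ∧ e.1 ≠ e.2)
    (hanti : ∀ e ∈ F, e.swap ∉ F) (hnc : ∀ e ∈ F, ∀ g ∈ F, e ≠ g → ¬ Crs e g) :
    F.card ≤ 4 * V.card := by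
  have hinj : Set.InjOn (p4_phi ε) F := by
    intro e he g hg heg
    by_contra hne
    rcases p4_phi_cases ε e with h1 | h1 <;> rcases p4_phi_cases ε g with h2 | h2
    · rw [h1, h2] at heg; exact hne heg
    · rw [h1, h2] at heg
      exact hanti g hg (heg ▸ he)
    · rw [h1, h2] at heg
      exact hanti e he (heg.symm ▸ hg)
    · rw [h1, h2] at heg; exact hne (Prod.swap_injective heg)
  rw [← Finset.card_image_of_injOn hinj]
  apply planar_down hV hH
  · intro e he
    obtain ⟨g, hg, rfl⟩ := Finset.mem_image.1 he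
    obtain ⟨h1, h2, h3⟩ := hF g hg
    by_cases hlt : Ht ε g.2 < Ht ε g.1
    · rw [p4_phi, if_pos hlt]
      exact ⟨h1, h2, hlt⟩
    · rw [p4_phi, if_neg hlt]
      refine ⟨h2, h1, ?_⟩
      have h4 : Ht ε g.1 ≠ Ht ε g.2 := fun h5 => h3 (hH h1 h2 h5)
      exact lt_of_le_of_ne (not_lt.1 hlt) h4
  · intro e he g hg hne hc
    obtain ⟨e', he', rfl⟩ := Finset.mem_image.1 he
    obtain ⟨g', hg', rfl⟩ := Finset.mem_image.1 hg
    exact hnc e' he' g' hg' (fun h => hne (by rw [h])) (p4_phi_crs hc)

theorem cross_le {V : Finset Pt} (hV : GP V) {ε : ℝ} (hH : Set.InjOn (Ht ε) V)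
    (F : Finset Seg) (hF : ∀ e ∈ F, e.1 ∈ V ∧ e.2 ∈ V ∧ e.1 ≠ e.2)
    (hanti : ∀ e ∈ F, e.swap ∉ F) : 2 * F.card ≤ 8 * V.card + (XP F).card := by
  induction hn : F.card generalizing F with
  | zero => omega
  | succ n ih =>
    rcases (XP F).eq_empty_or_nonempty with h0 | ⟨⟨e, g⟩, h0⟩
    · have h1 := planar hV hH F hF hanti (fun e he g hg hne hc => by
        have : (e, g) ∈ XP F := by
          unfold XP
          exact Finset.mem_filter.2 ⟨Finset.mem_product.2 ⟨he, hg⟩, hne, hc⟩
        rw [h0] at this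
        exact absurd this (Finset.notMem_empty _))
      omega
    · have h0' := h0
      unfold XP at h0
      obtain ⟨h1, h2, h3⟩ := Finset.mem_filter.1 h0
      obtain ⟨he, hg⟩ := Finset.mem_product.1 h1
      simp only at he hg h2 h3
      have hge : (g, e) ∈ XP F := by
        unfold XP
        exact Finset.mem_filter.2 ⟨Finset.mem_product.2 ⟨hg, he⟩, fun h => h2 h.symm, p4_symm h3⟩
      have hc1 : (F.erase e).card = n := by rw [Finset.card_erase_of_mem he, hn]; rfl
      have ih1 := ih (F.erase e) (fun x hx => hF x (Finset.mem_of_mem_erase hx))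
        (fun x hx h => hanti x (Finset.mem_of_mem_erase hx) (Finset.mem_of_mem_erase h)) hc1
      have hsub : XP (F.erase e) ⊆ ((XP F).erase (e, g)).erase (g, e) := by
        intro x hx
        unfold XP at hx
        obtain ⟨k1, k2, k3⟩ := Finset.mem_filter.1 hx
        obtain ⟨k4, k5⟩ := Finset.mem_product.1 k1
        rw [Finset.mem_erase, Finset.mem_erase]
        refine ⟨?_, ?_, ?_⟩
        · rintro rfl; exact (Finset.mem_erase.1 k5).1 rfl
        · rintro rfl; exact (Finset.mem_erase.1 k4).1 rfl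
        · unfold XP
          exact Finset.mem_filter.2 ⟨Finset.mem_product.2
            ⟨Finset.mem_of_mem_erase k4, Finset.mem_of_mem_erase k5⟩, k2, k3⟩
      have hc2 := Finset.card_le_card hsub
      have hmem : (g, e) ∈ (XP F).erase (e, g) :=
        Finset.mem_erase.2 ⟨fun h => h2 (Prod.ext_iff.1 h).2, hge⟩
      rw [Finset.card_erase_of_mem hmem, Finset.card_erase_of_mem h0'] at hc2
      have hpos : 0 < ((XP F).erase (e, g)).card := Finset.card_pos.2 ⟨_, hmem⟩
      rw [Finset.card_erase_of_mem h0'] at hpos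
      omega

end Pool.Agent.Lib.MP_9ff0e7_co
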