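import Pool.Agent.Lib.MP_9ff0e7_co.Q.Defs

/-!
Row P6. Product measure on the subsets of a finite set.

`prob`. Apply Finset.prod_add (∏ (a i + b i) over F = sum over T in F.powerset of (∏_{T} a)(∏_{F \ T} b)) with a i = u i and
b i = if i ∈ W then 0 else 1 - u i. For i in W : a i + b i = u i; for i not in W : a i + b i = 1. So the left side is ∏_{i ∈ W} u i
(split F into W and F \ W, or Finset.prod_subset). On the right side, if W ⊆ T then F \ T contains no element of W, so the second product is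
∏_{F \ T} (1 - u i); if W is not contained in T some i in W is in F \ T and the product is 0.
`multiaffine`. For T ⊆ F let m T = (∏_{T} u)(∏_{F \ T} (1 - u)) >= 0. sum_T m T = 1 (prob with W = ∅), sum_T m T card T =
sum_{i in F} sum_{T ∋ i} m T = sum u i (prob with W = {i}), sum_T m T card (R.filter ..) = sum_{q in R} u q.1 u q.2 (prob with W = {q.1, q.2},
q.1 ≠ q.2, Finset.prod_pair). Multiply the hypothesis h T by m T and sum over T (Finset.sum_comm).
-/

set_option autoImplicit false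
open scoped Classical

namespace Pool.Agent.Lib.MP_9ff0e7_co

theorem prob {ι : Type*} (F : Finset ι) (u : ι → ℝ) (W : Finset ι) (hW : W ⊆ F) :
    (∑ T ∈ F.powerset, if W ⊆ T then (∏ i ∈ T, u i) * ∏ i ∈ F \ T, (1 - u i) else 0) =
      ∏ i ∈ W, u i := by
  have h1 := Finset.prod_add u (fun i => if i ∈ W then 0 else 1 - u i) F
  have h2 : ∏ i ∈ F, (u i + if i ∈ W then 0 else 1 - u i) = ∏ i ∈ W, u i := by
    rw [← Finset.prod_subset hW]
    · apply Finset.prod_congr rfl
      intro i hi; simp [hi]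
    · intro i _ hi; simp [hi]
  rw [h2] at h1
  rw [h1]
  apply Finset.sum_congr rfl
  intro T hT
  have hTF := Finset.mem_powerset.1 hT
  by_cases hWT : W ⊆ T
  · rw [if_pos hWT]
    congr 1
    apply Finset.prod_congr rfl
    intro i hi
    have hi2 := Finset.mem_sdiff.1 hi
    rw [if_neg (fun h => hi2.2 (hWT h))]
  · rw [if_neg hWT]
    obtain ⟨i, hiW, hiT⟩ := Finset.not_subset.1 hWT
    have : ∏ i ∈ F \ T, (if i ∈ W then 0 else 1 - u i) = 0 :=
      Finset.prod_eq_zero (Finset.mem_sdiff.2 ⟨hW hiW, hiT⟩) (if_pos hiW)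
    rw [this, mul_zero]

theorem multiaffine {ι : Type*} (F : Finset ι) (u : ι → ℝ) (hu0 : ∀ i ∈ F, 0 ≤ u i)
    (hu1 : ∀ i ∈ F, u i ≤ 1) (R : Finset (ι × ι))
    (hR : ∀ q ∈ R, q.1 ∈ F ∧ q.2 ∈ F ∧ q.1 ≠ q.2) (N : ℝ)
    (h : ∀ T ⊆ F, 2 * (T.card : ℝ) ≤ N +
      ((R.filter (fun q => q.1 ∈ T ∧ q.2 ∈ T)).card : ℝ)) :
    2 * ∑ i ∈ F, u i ≤ N + ∑ q ∈ R, u q.1 * u q.2 := by
  set m : Finset ι → ℝ := fun T => (∏ i ∈ T, u i) * ∏ i ∈ F \ T, (1 - u i) with hm
  have hm0 : ∀ T ∈ F.powerset, 0 ≤ m T := by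
    intro T hT
    apply mul_nonneg
    · exact Finset.prod_nonneg fun i hi => hu0 i (Finset.mem_powerset.1 hT hi)
    · exact Finset.prod_nonneg fun i hi => sub_nonneg.2 (hu1 i (Finset.mem_sdiff.1 hi).1)
  have p0 : ∑ T ∈ F.powerset, m T = 1 := by
    have := prob F u ∅ (Finset.empty_subset _)
    simpa using this
  have p1 : ∀ i ∈ F, (∑ T ∈ F.powerset, if i ∈ T then m T else 0) = u i := by
    intro i hi
    have := prob F u {i} (Finset.singleton_subset_iff.2 hi)
    simpa using this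
  have p2 : ∀ q ∈ R, (∑ T ∈ F.powerset, if q.1 ∈ T ∧ q.2 ∈ T then m T else 0)
      = u q.1 * u q.2 := by
    intro q hq
    obtain ⟨h1, h2, h3⟩ := hR q hq
    have hsub : ({q.1, q.2} : Finset ι) ⊆ F := by
      intro y hy
      simp only [Finset.mem_insert, Finset.mem_singleton] at hy
      rcases hy with rfl | rfl <;> assumption
    have := prob F u {q.1, q.2} hsub
    rw [Finset.prod_pair h3] at this
    rw [← this]
    apply Finset.sum_congr rfl
    intro T _
    have : (q.1 ∈ T ∧ q.2 ∈ T) ↔ ({q.1, q.2} : Finset ι) ⊆ T := by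
      rw [Finset.insert_subset_iff, Finset.singleton_subset_iff]
    simp only [this, hm]
  have s1 : ∑ T ∈ F.powerset, m T * (2 * (T.card : ℝ)) = 2 * ∑ i ∈ F, u i := by
    have : ∀ T ∈ F.powerset, m T * (2 * (T.card : ℝ)) =
        ∑ i ∈ F, 2 * (if i ∈ T then m T else 0) := by
      intro T hT
      rw [← Finset.mul_sum, ← Finset.sum_filter, Finset.sum_const]
      have h2 : F.filter (fun i => i ∈ T) = T := by
        ext y
        rw [Finset.mem_filter]
        exact ⟨fun h => h.2, fun h => ⟨Finset.mem_powerset.1 hT h, h⟩⟩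
      rw [h2, nsmul_eq_mul]; ring
    rw [Finset.sum_congr rfl this, Finset.sum_comm, Finset.mul_sum]
    apply Finset.sum_congr rfl
    intro i hi
    rw [← Finset.mul_sum, p1 i hi]
  have s2 : ∑ T ∈ F.powerset, m T * (N +
      ((R.filter (fun q => q.1 ∈ T ∧ q.2 ∈ T)).card : ℝ)) = N + ∑ q ∈ R, u q.1 * u q.2 := by
    have : ∀ T ∈ F.powerset, m T * (N + ((R.filter (fun q => q.1 ∈ T ∧ q.2 ∈ T)).card : ℝ)) =
        m T * N + ∑ q ∈ R, (if q.1 ∈ T ∧ q.2 ∈ T then m T else 0) := by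
      intro T _
      rw [← Finset.sum_filter, Finset.sum_const, nsmul_eq_mul]; ring
    rw [Finset.sum_congr rfl this, Finset.sum_add_distrib, ← Finset.sum_mul, p0, one_mul,
      Finset.sum_comm]
    congr 1
    exact Finset.sum_congr rfl p2
  rw [← s1, ← s2]
  apply Finset.sum_le_sum
  intro T hT
  exact mul_le_mul_of_nonneg_left (h T (Finset.mem_powerset.1 hT)) (hm0 T hT)

end Pool.Agent.Lib.MP_9ff0e7_co
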