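import Pool.Agent.Lib.MP_9ff0e7_co.Q.Defs

/-!
Row S1. Sum over octaves (base 8).

Proof. For j let H_j be the filter set in hcl. For each j choose p = min 1 (p0 * 16^j) in (0,1]. With 1/min 1 a <= 1 + 1/a and
min 1 a <= a the bound gives
 card H_j <= 4Mθ 8^(j+1) b0 + 4Mθ 8^(j+1) b0/(p0 16^j) + 2 (p0 16^j)^2 (Q/(8^j b0))^2/(θ 8^(j+1) b0)
          = 32 M θ b0 8^j + (32 M θ b0/p0) (1/2)^j + (p0^2 Q^2/(4 θ b0^3)) (1/2)^j.
(16^j = 8^j 2^j; (16^j)^2/(8^j)^3 = 256^j/512^j = (1/2)^j.)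
If H is empty: trivial, the right side is >= 0 (M, θ, b0, p0 > 0; note b1 >= 0 can be taken: if H is nonempty b0 <= b1; if H is
empty we need 0 <= 37 M θ b1, so b1 >= 0 is a hypothesis). Otherwise b0 <= b1. Let J be the least natural number with b1 < 8^J b0 (exists: 8^J → ∞,
pow_unbounded_of_one_lt; Nat.find). J >= 1 because b0 <= b1, and 8^(J-1) b0 <= b1 by minimality. H is the union of the H_j, j < J: by
induction on J: card (H.filter (w g < 8^J b0)) <= sum_{j<J} card H_j. And all w g <= b1 < 8^J b0.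
sum_{j<J} 8^j = (8^J - 1)/7 <= 8^J/7 <= (8/7) b1/b0 (geom_sum_eq or induction), sum_{j<J} (1/2)^j <= 2.
So card H <= 32 M θ b0 (8/7) b1/b0 + 64 M θ b0/p0 + p0^2 Q^2/(2θ b0^3), and 256/7 <= 37.
-/

set_option autoImplicit false
open scoped Classical

namespace Pool.Agent.Lib.MP_9ff0e7_co

theorem s1_term {M θ Q p0 b0 : ℝ} (hb0 : 0 < b0) (hM : 0 < M) (hθ : 0 < θ) (hQ : 0 < Q) (hp0 : 0 < p0)
    (j : ℕ) (p : ℝ) (hp : p = min 1 (p0 * 16 ^ j)) :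
    4 * M * (θ * (8 ^ (j + 1) * b0)) / p +
          2 * p ^ 2 * (Q / (8 ^ j * b0)) ^ 2 / (θ * (8 ^ (j + 1) * b0)) ≤
      32 * M * θ * b0 * 8 ^ j + (32 * M * θ * b0 / p0 + p0 ^ 2 * Q ^ 2 / (4 * θ * b0 ^ 3)) * (1 / 2) ^ j := by
  obtain ⟨f, hf⟩ : ∃ f : ℝ, f = 2 ^ j := ⟨_, rfl⟩
  have hfpos : 0 < f := by rw [hf]; positivity
  have e8 : (8 : ℝ) ^ j = f ^ 3 := by rw [hf, ← pow_mul, mul_comm j 3, pow_mul]; norm_num
  have e16 : (16 : ℝ) ^ j = f ^ 4 := by rw [hf, ← pow_mul, mul_comm j 4, pow_mul]; norm_num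
  have e2 : ((1 : ℝ) / 2) ^ j = 1 / f := by rw [hf, one_div_pow]
  rw [pow_succ, e8, e2]
  rw [e16] at hp
  have ha : 0 < p0 * f ^ 4 := by positivity
  have hppos : 0 < p := by rw [hp]; exact lt_min one_pos ha
  have h1 : 1 / p ≤ 1 + 1 / (p0 * f ^ 4) := by
    rcases min_cases (1 : ℝ) (p0 * f ^ 4) with h | h
    · rw [hp, h.1]
      have : 0 < 1 / (p0 * f ^ 4) := by positivity
      linarith
    · rw [hp, h.1]
      linarith
  have h2 : p ^ 2 ≤ (p0 * f ^ 4) ^ 2 := by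
    have : p ≤ p0 * f ^ 4 := by rw [hp]; exact min_le_right _ _
    exact pow_le_pow_left₀ hppos.le this 2
  have t1 : 4 * M * (θ * (f ^ 3 * 8 * b0)) / p ≤ 4 * M * (θ * (f ^ 3 * 8 * b0)) * (1 + 1 / (p0 * f ^ 4)) := by
    rw [div_eq_mul_one_div]
    exact mul_le_mul_of_nonneg_left h1 (by positivity)
  have t2 : 2 * p ^ 2 * (Q / (f ^ 3 * b0)) ^ 2 / (θ * (f ^ 3 * 8 * b0)) ≤
      2 * (p0 * f ^ 4) ^ 2 * (Q / (f ^ 3 * b0)) ^ 2 / (θ * (f ^ 3 * 8 * b0)) := by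
    apply div_le_div_of_nonneg_right _ (by positivity)
    apply mul_le_mul_of_nonneg_right _ (by positivity)
    linarith
  have u1 : 4 * M * (θ * (f ^ 3 * 8 * b0)) * (1 + 1 / (p0 * f ^ 4)) =
      32 * M * θ * b0 * f ^ 3 + 32 * M * θ * b0 / p0 * (1 / f) := by
    field_simp
    ring
  have u2 : 2 * (p0 * f ^ 4) ^ 2 * (Q / (f ^ 3 * b0)) ^ 2 / (θ * (f ^ 3 * 8 * b0)) =
      p0 ^ 2 * Q ^ 2 / (4 * θ * b0 ^ 3) * (1 / f) := by
    field_simp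
    ring
  rw [add_mul, ← u2]
  linarith

theorem s1_ind {H : Finset (Seg × Seg)} {w : Seg × Seg → ℝ} {b0 A C : ℝ}
    (hw0 : ∀ g ∈ H, b0 ≤ w g)
    (hst : ∀ j : ℕ, ((H.filter (fun g => 8 ^ j * b0 ≤ w g ∧ w g < 8 ^ (j + 1) * b0)).card : ℝ) ≤
      A * 8 ^ j + C * (1 / 2) ^ j) (J : ℕ) :
    ((H.filter (fun g => w g < 8 ^ J * b0)).card : ℝ) ≤ A * ((8 ^ J - 1) / 7) + C * (2 - 2 * (1 / 2) ^ J) := by
  induction J with
  | zero =>
    have : H.filter (fun g => w g < 8 ^ 0 * b0) = ∅ := by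
      apply Finset.filter_eq_empty_iff.2
      intro g hg
      have := hw0 g hg
      rw [pow_zero, one_mul]
      exact not_lt.2 this
    rw [this]
    simp
  | succ J ih =>
    have hsub : H.filter (fun g => w g < 8 ^ (J + 1) * b0) ⊆
        H.filter (fun g => w g < 8 ^ J * b0) ∪
          H.filter (fun g => 8 ^ J * b0 ≤ w g ∧ w g < 8 ^ (J + 1) * b0) := by
      intro g hg
      rw [Finset.mem_filter] at hg
      rw [Finset.mem_union, Finset.mem_filter, Finset.mem_filter]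
      rcases lt_or_ge (w g) (8 ^ J * b0) with h | h
      · exact Or.inl ⟨hg.1, h⟩
      · exact Or.inr ⟨hg.1, h, hg.2⟩
    have hc := (Finset.card_le_card hsub).trans (Finset.card_union_le _ _)
    have hc' : ((H.filter (fun g => w g < 8 ^ (J + 1) * b0)).card : ℝ) ≤
        ((H.filter (fun g => w g < 8 ^ J * b0)).card : ℝ) +
          ((H.filter (fun g => 8 ^ J * b0 ≤ w g ∧ w g < 8 ^ (J + 1) * b0)).card : ℝ) := by
      exact_mod_cast hc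
    have h3 := hst J
    rw [pow_succ (8 : ℝ) J, pow_succ ((1 : ℝ) / 2) J]
    have : A * ((8 ^ J * 8 - 1) / 7) + C * (2 - 2 * ((1 / 2) ^ J * (1 / 2))) =
        (A * ((8 ^ J - 1) / 7) + C * (2 - 2 * (1 / 2) ^ J)) + (A * 8 ^ J + C * (1 / 2) ^ J) := by ring
    rw [this]
    rw [pow_succ (8 : ℝ) J] at hc' h3
    linarith

theorem octave {H : Finset (Seg × Seg)} {w : Seg × Seg → ℝ} {b0 b1 M θ Q p0 : ℝ}
    (hb0 : 0 < b0) (hb1 : 0 ≤ b1) (hM : 0 < M) (hθ : 0 < θ) (hQ : 0 < Q) (hp0 : 0 < p0)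
    (hw0 : ∀ g ∈ H, b0 ≤ w g) (hw1 : ∀ g ∈ H, w g ≤ b1)
    (hcl : ∀ j : ℕ, ∀ p : ℝ, 0 < p → p ≤ 1 →
      ((H.filter (fun g => 8 ^ j * b0 ≤ w g ∧ w g < 8 ^ (j + 1) * b0)).card : ℝ) ≤
        4 * M * (θ * (8 ^ (j + 1) * b0)) / p +
          2 * p ^ 2 * (Q / (8 ^ j * b0)) ^ 2 / (θ * (8 ^ (j + 1) * b0))) :
    (H.card : ℝ) ≤ 37 * M * θ * b1 + 64 * M * θ * b0 / p0 + p0 ^ 2 * Q ^ 2 / (2 * θ * b0 ^ 3) := by
  have hC1 : 0 < 32 * M * θ * b0 / p0 := by positivity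
  have hC2 : 0 < p0 ^ 2 * Q ^ 2 / (4 * θ * b0 ^ 3) := by positivity
  have hst : ∀ j : ℕ, ((H.filter (fun g => 8 ^ j * b0 ≤ w g ∧ w g < 8 ^ (j + 1) * b0)).card : ℝ) ≤
      32 * M * θ * b0 * 8 ^ j + (32 * M * θ * b0 / p0 + p0 ^ 2 * Q ^ 2 / (4 * θ * b0 ^ 3)) * (1 / 2) ^ j := by
    intro j
    refine (hcl j (min 1 (p0 * 16 ^ j)) ?_ (min_le_left _ _)).trans ?_
    · exact lt_min one_pos (by positivity)
    · exact s1_term hb0 hM hθ hQ hp0 j _ rfl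
  rcases H.eq_empty_or_nonempty with hH | hH
  · rw [hH]
    simp only [Finset.card_empty, Nat.cast_zero]
    positivity
  · obtain ⟨g0, hg0⟩ := hH
    have hb01 : b0 ≤ b1 := (hw0 g0 hg0).trans (hw1 g0 hg0)
    have hex : ∃ J : ℕ, b1 < 8 ^ J * b0 := by
      obtain ⟨J, hJ⟩ := pow_unbounded_of_one_lt (b1 / b0) (by norm_num : (1 : ℝ) < 8)
      exact ⟨J, (div_lt_iff₀ hb0).1 hJ⟩
    have hJ := Nat.find_spec hex
    obtain ⟨J, hJd⟩ : ∃ J, J = Nat.find hex := ⟨_, rfl⟩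
    rw [← hJd] at hJ
    have hJ0 : J ≠ 0 := by
      intro h0
      rw [h0, pow_zero, one_mul] at hJ
      linarith
    obtain ⟨K, hK⟩ := Nat.exists_eq_succ_of_ne_zero hJ0
    have hKb : 8 ^ K * b0 ≤ b1 := by
      have : K < Nat.find hex := by rw [← hJd, hK]; exact Nat.lt_succ_self K
      exact not_lt.1 (Nat.find_min hex this)
    have hU : H.filter (fun g => w g < 8 ^ J * b0) = H :=
      Finset.filter_true_of_mem fun g hg => (hw1 g hg).trans_lt hJ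
    have hfin := s1_ind hw0 hst J
    rw [hU] at hfin
    have hJ8 : (8 : ℝ) ^ J = 8 ^ K * 8 := by rw [hK, Nat.succ_eq_add_one, pow_succ]
    rw [hJ8] at hfin
    have ha : 32 * M * θ * b0 * ((8 ^ K * 8 - 1) / 7) ≤ 37 * M * θ * b1 := by
      have hMθ : 0 < M * θ := by positivity
      have h1 : M * θ * (8 ^ K * b0) ≤ M * θ * b1 := mul_le_mul_of_nonneg_left hKb hMθ.le
      have h2 : 0 ≤ M * θ * b1 := by positivity
      have h3 : 0 < M * θ * b0 := by positivity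
      nlinarith
    have hb : (32 * M * θ * b0 / p0 + p0 ^ 2 * Q ^ 2 / (4 * θ * b0 ^ 3)) * (2 - 2 * (1 / 2) ^ J) ≤
        64 * M * θ * b0 / p0 + p0 ^ 2 * Q ^ 2 / (2 * θ * b0 ^ 3) := by
      have e : 64 * M * θ * b0 / p0 + p0 ^ 2 * Q ^ 2 / (2 * θ * b0 ^ 3) =
          (32 * M * θ * b0 / p0 + p0 ^ 2 * Q ^ 2 / (4 * θ * b0 ^ 3)) * 2 := by
        field_simp
        ring
      rw [e]
      apply mul_le_mul_of_nonneg_left _ (by linarith)
      have : (0 : ℝ) < (1 / 2) ^ J := by positivity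
      linarith
    linarith

end Pool.Agent.Lib.MP_9ff0e7_co
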