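import Pool.Agent.Lib.MP_9ff0e7_co.Q.S1
import Pool.Agent.Lib.MP_9ff0e7_co.Q.S2

/-!
Row S3. The pairs with middle degree of the first segment and small degree of the second.

Proof. H = the filter set, w = dg1 G. `octave` with b0, b1, M = n, θ = κ, Q: hw0, hw1 clear. hcl: for j, p let
H_j = H.filter (8^j b0 <= w ∧ w < 8^(j+1) b0) ⊆ G. Conf.ineqA for H_j (Conf.mono) with A = κ * (8^(j+1) b0): cap: for a segment q, if at2 H_j q is
empty the bound is clear (A > 0); otherwise take g in it, g.2 = q; card (at2 H_j q) <= card (at2 G q) = dg2 G g <= κ dg1 G g <= κ 8^(j+1) b0.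
card ((H_j).image fst) <= Q/(8^j b0) by few1 (t = 8^j b0 <= dg1 G g on H_j) and card G <= Q. card W <= n. Monotonicity of the
right side in card W and card (image).
-/

set_option autoImplicit false
open scoped Classical

namespace Pool.Agent.Lib.MP_9ff0e7_co

variable {s : ℝ} {S V W : Finset Pt} {f : Pt → Bool} {k l : Bool} {G : Finset (Seg × Seg)}

theorem s3_at2_mono {H G : Finset (Seg × Seg)} (hHG : H ⊆ G) (q : Seg) : at2 H q ⊆ at2 G q := by
  unfold at2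
  exact Finset.filter_subset_filter _ hHG

theorem Conf.T3 (h : Conf s S V W f k l G) {ε : ℝ} (hH : Set.InjOn (Ht ε) S)
    {b0 b1 n κ Q p0 : ℝ} (hb0 : 0 < b0) (hb1 : 0 ≤ b1) (hn : 0 < n) (hκ : 0 < κ) (hQ : 0 < Q)
    (hp0 : 0 < p0) (hW : (W.card : ℝ) ≤ n) (hG : (G.card : ℝ) ≤ Q) :
    ((G.filter (fun g => b0 ≤ dg1 G g ∧ dg1 G g ≤ b1 ∧ dg2 G g ≤ κ * dg1 G g)).card : ℝ) ≤
      37 * n * κ * b1 + 64 * n * κ * b0 / p0 + p0 ^ 2 * Q ^ 2 / (2 * κ * b0 ^ 3) := by
  set H := G.filter (fun g => b0 ≤ dg1 G g ∧ dg1 G g ≤ b1 ∧ dg2 G g ≤ κ * dg1 G g) with hHdef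
  have hmem : ∀ g ∈ H, g ∈ G ∧ b0 ≤ dg1 G g ∧ dg1 G g ≤ b1 ∧ dg2 G g ≤ κ * dg1 G g := by
    intro g hg
    rw [hHdef, Finset.mem_filter] at hg
    exact ⟨hg.1, hg.2.1, hg.2.2.1, hg.2.2.2⟩
  refine octave (H := H) (w := dg1 G) hb0 hb1 hn hκ hQ hp0 (fun g hg => (hmem g hg).2.1)
    (fun g hg => (hmem g hg).2.2.1) ?_
  intro j p hp hp1
  set Hj := H.filter (fun g => 8 ^ j * b0 ≤ dg1 G g ∧ dg1 G g < 8 ^ (j + 1) * b0) with hHj
  have hsub : Hj ⊆ G := by
    intro g hg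
    rw [hHj, Finset.mem_filter] at hg
    exact (hmem g hg.1).1
  have h8 : (0 : ℝ) < 8 ^ j * b0 := by positivity
  have h81 : (0 : ℝ) < 8 ^ (j + 1) * b0 := by positivity
  have hA : 0 < κ * (8 ^ (j + 1) * b0) := by positivity
  have hcap : ∀ q, ((at2 Hj q).card : ℝ) ≤ κ * (8 ^ (j + 1) * b0) := by
    intro q
    rcases Finset.eq_empty_or_nonempty (at2 Hj q) with he | ⟨g, hg⟩
    · rw [he]; simp only [Finset.card_empty, Nat.cast_zero]; exact hA.le
    · have hg' := hg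
      unfold at2 at hg'
      rw [Finset.mem_filter] at hg'
      obtain ⟨hgj, hgq⟩ := hg'
      have hgj' := hgj
      rw [hHj, Finset.mem_filter] at hgj'
      have h1 := hmem g hgj'.1
      have h2 : ((at2 Hj q).card : ℝ) ≤ dg2 G g := by
        unfold dg2
        rw [hgq]
        exact_mod_cast Finset.card_le_card (s3_at2_mono hsub q)
      have h3 : κ * dg1 G g ≤ κ * (8 ^ (j + 1) * b0) :=
        mul_le_mul_of_nonneg_left hgj'.2.2.le hκ.le
      linarith [h1.2.2.2]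
  have hin := (h.mono hsub).ineqA hH hA hcap hp hp1
  have hfew := few1 (G := G) hsub (t := 8 ^ j * b0) (fun g hg => by
    rw [hHj, Finset.mem_filter] at hg
    exact hg.2.1)
  have him : ((Hj.image Prod.fst).card : ℝ) ≤ Q / (8 ^ j * b0) := by
    rw [le_div_iff₀ h8]
    linarith
  have h4 : 4 * (W.card : ℝ) * (κ * (8 ^ (j + 1) * b0)) / p ≤
      4 * n * (κ * (8 ^ (j + 1) * b0)) / p := by
    apply div_le_div_of_nonneg_right _ hp.le
    apply mul_le_mul_of_nonneg_right _ hA.le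
    linarith
  have h5 : 2 * p ^ 2 * ((Hj.image Prod.fst).card : ℝ) ^ 2 / (κ * (8 ^ (j + 1) * b0)) ≤
      2 * p ^ 2 * (Q / (8 ^ j * b0)) ^ 2 / (κ * (8 ^ (j + 1) * b0)) := by
    apply div_le_div_of_nonneg_right _ hA.le
    apply mul_le_mul_of_nonneg_left _ (by positivity)
    exact pow_le_pow_left₀ (Nat.cast_nonneg _) him 2
  linarith

end Pool.Agent.Lib.MP_9ff0e7_co
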